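import Pool.Agent.D0H10.Q4.StmB
import Pool.Agent.D0H43.Q4.Stm2
import Pool.Agent.Y682.ZS

/-!
Project Q5: the exact distribution of the Selmer groups of the endomorphism `1 + i` of the quartic
twists `y² = x³ + D x` over `ℚ(i)`, `D = i Δ, - i Δ, 2 Δ` with `Δ` primary and squarefree. Statements.
-/

set_option autoImplicit false

open NumberField IsDedekindDomain Filter
open scoped Topology

namespace Pool.Agent.D0H10.Q5

open H385 (ZI RQ im1 nrm)
open Pool.Agent.Y699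
open Pool.Agent.Y682 (S1 LL1 LL2 Sq MP)
open Pool.Agent.D0H10.Q4 (dD)

/-- the kernel of the matrix of `Δ` (the matrix `MQ (wt (fam Δ)) (em (fam Δ)) Finset.univ`) -/
def Ker (Δ : ZI) : Set ({π : ZI // π ∈ PD Δ} → ZMod 2) :=
  {z | ∀ v, wt (fam Δ) v * z v + ∑ u, em (fam Δ) u v * (z u + z v) = 0}

/-- the class of the kernel vector `z` and of `a`: `i ^ a ∏_{z π + a = 1} π` -/
noncomputable def cz (Δ : ZI) (z : {π : ZI // π ∈ PD Δ} → ZMod 2) (a : ZMod 2) : ZI :=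
  im1 ^ a.val * DD (fam Δ) (Finset.univ.filter fun i => z i + a = 1)

/-- the three kinds of `D` -/
def Kd (Δ D : ZI) : Prop := D = im1 * Δ ∨ D = -im1 * Δ ∨ D = 2 * Δ

/-- the finite part of `LL1` -/
def LF {K : Type} [Field K] [NumberField K] (B b : K) : Prop :=
  ∀ v : HeightOneSpectrum (𝓞 K), ∃ z m : v.adicCompletion K, z ≠ 0 ∧
    algebraMap K (v.adicCompletion K) b * z ^ 2 = m ∧ S1 0 (algebraMap K (v.adicCompletion K) B) m

/-- U1 (upper bound): a locally soluble class comes from a kernel vector -/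
def S_UP : Prop := ∀ (K : Type) [Field K] [NumberField K] (e : ZI ≃+* 𝓞 K) (Δ D : ZI), PS Δ →
  Kd Δ D → ∀ b : K, b ≠ 0 → LF (Pool.Agent.Y715.Z.em0 e D) b →
    ∃ z ∈ Ker Δ, ∃ (a : ZMod 2) (c : K), b = Pool.Agent.Y715.Z.em0 e (cz Δ z a) * c ^ 2

/-- U2 (lower bound): the classes of the kernel vectors are everywhere locally soluble -/
def S_LOW : Prop := ∀ (K : Type) [Field K] [NumberField K] (e : ZI ≃+* 𝓞 K) (Δ D : ZI), PS Δ →
  Kd Δ D → ∀ z ∈ Ker Δ, ∀ a : ZMod 2,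
    LL1 0 (Pool.Agent.Y715.Z.em0 e D) (Pool.Agent.Y715.Z.em0 e (cz Δ z a))

/-- the Selmer group of `1 + i`, as a set of classes of `K*` modulo squares -/
def Sel {K : Type} [Field K] [NumberField K] (B : K) : Set (Kˣ ⧸ Sq K) :=
  {q | ∃ b : Kˣ, (b : Kˣ ⧸ Sq K) = q ∧ LL1 0 B (b : K)}

/-- U3 (count): the order of the Selmer group, and the bound for the rank and `Ш[2]` -/
def S_CNT : Prop := ∀ (K : Type) [Field K] [NumberField K] (e : ZI ≃+* 𝓞 K) (Δ D : ZI), PS Δ →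
  Kd Δ D →
  (Sel (Pool.Agent.Y715.Z.em0 e D)).ncard = 2 * (Ker Δ).ncard ∧
  Finite {x : Pool.Agent.TH841.NF.D.Sha (Pool.Agent.Y715.Z.q4 (Pool.Agent.Y715.Z.em0 e D)) //
    2 • x = 0} ∧
  2 ^ (Module.finrank ℤ (MP (Pool.Agent.Y715.Z.q4 (Pool.Agent.Y715.Z.em0 e D)))) *
    Nat.card {x : Pool.Agent.TH841.NF.D.Sha (Pool.Agent.Y715.Z.q4 (Pool.Agent.Y715.Z.em0 e D)) //
      2 • x = 0} ≤ (Ker Δ).ncard ^ 2

/-- U4: the kernel is a space over the field with two elements, and it is trivial iff the determinant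
is one -/
def S_KER : Prop := ∀ Δ : ZI, PS Δ → (∃ r : ℕ, (Ker Δ).ncard = 2 ^ r) ∧
  ((Ker Δ).ncard = 1 ↔ dD Δ = 1)

/-- `∏_{i ≥ 0} (1 - 2^{-(2i+1)}) / ((2 - 1) (4 - 1) ⋯ (2 ^ r - 1))` -/
noncomputable def prob (r : ℕ) : ℝ :=
  (∏' i : ℕ, (1 - (1 / 2 : ℝ) ^ (2 * i + 1))) / ∏ i ∈ Finset.range r, ((2 : ℝ) ^ (i + 1) - 1)

open Classical in
/-- U5: the exact distribution of the dimension of the kernel -/
def S_DIS : Prop := ∀ r : ℕ, Tendsto (fun X : ℕ =>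
    (((SB X).filter fun Δ => (Ker Δ).ncard = 2 ^ r).card : ℝ) / ((SB X).card : ℝ)) atTop
  (𝓝 (prob r))

/-- U6: the sum of the probabilities -/
def S_SUM : Prop := HasSum prob 1

end Pool.Agent.D0H10.Q5
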