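import Pool.Agent.Y699.Lin
import Pool.Agent.D0H10.Q5.Stm

/-!
Project Q5, average: the order of the kernel as a character sum.
-/

set_option autoImplicit false

open Finset

namespace Pool.Agent.D0H10.Q5.Av

open H385 (ZI RQ im1 nrm BX)
open H385.H10 (mem_BX nrm_pos Dv mem_Dv card_Dv)
open Pool.Agent.Y699
open Pool.Agent.W164.RC (two2 prim_iff_dvd unit_norm unit_cases)
open Pool.Agent.H304R2.EC.A1 (prim prim_mul prim_cancel prim_one prim_norm_odd prim_star eq_one_of_prim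
  norm_def' re_mul' im_mul' eq_of_dvd prim_ne_zero exists_prim)

/-- the kernel condition -/
def Co (m : ZI) (S : Finset ZI) : Prop :=
  (∀ π ∈ S, psi π * (qr π (∏ ρ ∈ PD m \ S, ρ) : ℝ) = 1) ∧ (∀ π ∈ PD m \ S, qr π (∏ ρ ∈ S, ρ) = 1)

open Classical in
/-- the number of kernel elements -/
noncomputable def KK (m : ZI) : ℝ := (((PD m).powerset.filter (Co m)).card : ℝ)

/-- the summand -/
noncomputable def GG (a b c e : ZI) : ℝ :=
  psi a * (wt2 a * wt2 b * wt2 c * wt2 e * (jac a e * jac b c))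

lemma psi_cases (π : ZI) : psi π = 1 ∨ psi π = -1 := by
  unfold psi
  split_ifs
  · right; rfl
  · left; rfl

lemma psi_one : psi 1 = 1 := by
  unfold psi
  rw [if_neg]
  simp

lemma psi_prod {A : Finset ZI} (hA : ∀ π ∈ A, PP π) : psi (∏ π ∈ A, π) = ∏ π ∈ A, psi π := by
  classical
  induction A using Finset.induction_on with
  | empty => simp [psi_one]
  | insert x s hx ih =>
    have h1 : ∀ π ∈ s, PP π := fun π hπ => hA π (mem_insert_of_mem hπ)
    rw [prod_insert hx, prod_insert hx, psi_mul (hA x (mem_insert_self _ _)).prm (PS_prod h1).1.prm, ih h1]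

lemma half_sign' {z : ℝ} (h : z = 1 ∨ z = -1) :
    (1 / 2 : ℝ) * z + 1 / 2 = if z = 1 then 1 else 0 := by
  rcases h with rfl | rfl <;> norm_num

lemma prod_half_psi {S : Finset ZI} (hS : ∀ π ∈ S, PP π) (x : ZI) :
    ∏ π ∈ S, ((1 / 2 : ℝ) * (psi π * qr π x) + 1 / 2) = ∑ A ∈ S.powerset,
      wt2 (∏ π ∈ A, π) * (psi (∏ π ∈ A, π) * jac (∏ π ∈ A, π) x) * wt2 (∏ π ∈ S \ A, π) := by
  classical
  rw [prod_add]
  refine sum_congr rfl fun A hA => ?_
  have hA' : ∀ π ∈ A, PP π := fun π hπ => hS π (mem_powerset.1 hA hπ)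
  have hA'' : ∀ π ∈ S \ A, PP π := fun π hπ => hS π (mem_sdiff.1 hπ).1
  unfold wt2
  rw [mf_prod hA', mf_prod hA'', prod_mul_distrib, prod_mul_distrib, psi_prod hA']
  unfold jac
  rw [(PS_prod hA').2]
  push_cast
  ring

/-- the pointwise identity -/
theorem GG_sum {m : ZI} (pm : PS m) {S : Finset ZI} (hS : S ⊆ PD m) :
    ∑ A ∈ S.powerset, ∑ C ∈ (PD m \ S).powerset,
      GG (∏ π ∈ A, π) (∏ π ∈ S \ A, π) (∏ π ∈ C, π) (∏ π ∈ (PD m \ S) \ C, π) =
    open Classical in (if Co m S then (1 : ℝ) else 0) := by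
  classical
  have hm0 := pm.ne
  have hPD : ∀ π ∈ PD m, PP π := fun π hπ => ((mem_PD hm0).1 hπ).1
  have hSP : ∀ π ∈ S, PP π := fun π hπ => hPD π (hS hπ)
  have hSP' : ∀ π ∈ PD m \ S, PP π := fun π hπ => hPD π (mem_sdiff.1 hπ).1
  set d := ∏ π ∈ S, π with hd
  set n := ∏ π ∈ PD m \ S, π with hn
  have hdn : d * n = m := by
    rw [hd, hn, mul_comm, prod_sdiff hS]
    exact pm.prod
  obtain ⟨pd, pn⟩ := (PS_prod hSP)
  obtain ⟨pd', pn'⟩ := (PS_prod hSP')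
  rw [← hd] at pd pn
  rw [← hn] at pd' pn'
  have cdn : IsCoprime d n := by
    have : PS (d * n) := by rw [hdn]; exact pm
    exact ((PS.mul_iff pd.prm pd'.prm).1 this).2.2
  have sgn : ∀ {π x : ZI}, PP π → IsCoprime π x → qr π x = 1 ∨ qr π x = -1 := by
    intro π x hπ hx
    apply qr_cases
    intro h
    exact hπ.pr.not_isUnit (hx.isUnit_of_dvd' dvd_rfl h)
  have s1 : ∀ π ∈ S, psi π * (qr π n : ℝ) = 1 ∨ psi π * (qr π n : ℝ) = -1 := by
    intro π hπ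
    have hπd : π ∣ d := dvd_prod_of_mem _ hπ
    rcases sgn (hSP π hπ) (cdn.of_isCoprime_of_dvd_left hπd) with h | h <;>
      rcases psi_cases π with h' | h' <;> rw [h, h'] <;> norm_num
  have s2 : ∀ π ∈ PD m \ S, qr π d = 1 ∨ qr π d = -1 := by
    intro π hπ
    have hπd : π ∣ n := dvd_prod_of_mem _ hπ
    refine sgn (hSP' π hπ) ?_
    exact cdn.symm.of_isCoprime_of_dvd_left hπd
  have e1 : (if Co m S then (1 : ℝ) else 0) =
      (∏ π ∈ S, ((1 / 2 : ℝ) * (psi π * qr π n) + 1 / 2)) *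
        (∏ π ∈ PD m \ S, ((1 / 2 : ℝ) * qr π d + 1 / 2)) := by
    rw [prod_congr rfl (fun π hπ => half_sign' (s1 π hπ)), prod_congr rfl (fun π hπ => half_sign (s2 π hπ)),
      prod_boole, prod_boole]
    unfold Co
    rw [← hd, ← hn]
    by_cases c1 : ∀ π ∈ S, psi π * (qr π n : ℝ) = 1
    · by_cases c2 : ∀ π ∈ PD m \ S, qr π d = 1
      · rw [if_pos ⟨c1, c2⟩, if_pos c1, if_pos c2]; norm_num
      · rw [if_neg (fun h => c2 h.2), if_neg c2]; norm_num
    · rw [if_neg (fun h => c1 h.1), if_neg c1]; norm_num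
  rw [e1, prod_half_psi hSP, prod_half hSP', sum_mul_sum]
  refine sum_congr rfl fun A hA => ?_
  refine sum_congr rfl fun C hC => ?_
  rw [mem_powerset] at hA hC
  have hAP : ∀ π ∈ A, PP π := fun π hπ => hSP π (hA hπ)
  have hAP' : ∀ π ∈ S \ A, PP π := fun π hπ => hSP π (mem_sdiff.1 hπ).1
  have hCP : ∀ π ∈ C, PP π := fun π hπ => hSP' π (hC hπ)
  have hCP' : ∀ π ∈ (PD m \ S) \ C, PP π := fun π hπ => hSP' π (mem_sdiff.1 hπ).1
  obtain ⟨pa, -⟩ := PS_prod hAP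
  obtain ⟨pb, -⟩ := PS_prod hAP'
  obtain ⟨pc, -⟩ := PS_prod hCP
  obtain ⟨pe, -⟩ := PS_prod hCP'
  have hab : (∏ π ∈ A, π) * (∏ π ∈ S \ A, π) = d := by rw [mul_comm, prod_sdiff hA]
  have hce : (∏ π ∈ C, π) * (∏ π ∈ (PD m \ S) \ C, π) = n := by rw [mul_comm, prod_sdiff hC]
  set a := ∏ π ∈ A, π
  set b := ∏ π ∈ S \ A, π
  set c := ∏ π ∈ C, π
  set e := ∏ π ∈ (PD m \ S) \ C, π
  have ad : a ∣ d := ⟨b, hab.symm⟩
  have cn : c ∣ n := ⟨e, hce.symm⟩
  have cac : IsCoprime a c := (cdn.of_isCoprime_of_dvd_left ad).of_isCoprime_of_dvd_right cn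
  have j1 : (jac a n : ℝ) = jac a c * jac a e := by
    rw [← hce, jac_mul_right pa.ne]
    push_cast
    ring
  have j2 : (jac c d : ℝ) = jac a c * jac b c := by
    rw [← hab, jac_mul_right pc.ne, jac_rec pc pa, jac_rec pc pb]
    push_cast
    ring
  have q3 := jac_sq pa cac
  rw [j1, j2]
  unfold GG
  generalize (jac a c : ℝ) = x7 at *
  have : wt2 a * (psi a * (x7 * (jac a e : ℝ))) * wt2 b * (wt2 c * (x7 * (jac b c : ℝ)) * wt2 e) =
      psi a * (wt2 a * wt2 b * wt2 c * wt2 e * ((jac a e : ℝ) * jac b c)) * (x7 ^ 2) := by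
    ring
  rw [this, q3]
  ring

lemma Ind_ne {X : ℕ} {D : ZI} (h : Ind X D ≠ 0) : PS D ∧ nrm D ≤ X := by
  unfold Ind at h
  by_contra h'
  rw [if_neg h'] at h
  exact h rfl

lemma Ind_nonneg (X : ℕ) (D : ZI) : 0 ≤ Ind X D := by
  unfold Ind; split_ifs <;> norm_num

lemma Ind_le (X : ℕ) (D : ZI) : Ind X D ≤ 1 := by
  unfold Ind; split_ifs <;> norm_num

lemma Ind_r {X : ℕ} {r : ZI} (hr : prim r) : ∀ n, Ind X (n * r) ≠ 0 → PS n ∧ nrm n ≤ X := by
  intro n h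
  obtain ⟨h1, h2⟩ := Ind_ne h
  have hn : prim n := prim_cancel hr (by rw [mul_comm]; exact h1.prm)
  refine ⟨((PS.mul_iff hn hr).1 h1).1, ?_⟩
  refine le_trans ?_ h2
  rw [nrm_mul]
  exact Nat.le_mul_of_pos_right _ (nrm_pos' (prim_ne_zero hr))

/-- **the average as a sum over factorisations** -/
theorem KK_sum (X : ℕ) :
    ∑ m ∈ SB X, KK m =
      ∑ a ∈ SB X, ∑ b ∈ SB X, ∑ c ∈ SB X, ∑ e ∈ SB X, Ind X (a * b * c * e) * GG a b c e := by
  classical
  -- the sum over c, e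
  have e1 : ∀ a ∈ SB X, ∀ b ∈ SB X, ∑ c ∈ SB X, ∑ e ∈ SB X, Ind X (a * b * c * e) * GG a b c e =
      ∑ n ∈ SB X, Ind X (a * b * n) * ∑ C ∈ (PD n).powerset,
        GG a b (∏ π ∈ C, π) (∏ π ∈ PD n \ C, π) := by
    intro a ha b hb
    rw [mem_SB] at ha hb
    have hr : prim (a * b) := prim_mul ha.2.prm hb.2.prm
    have h1 := pr_sum (X := X) (Φ := fun n => Ind X (n * (a * b))) (Ind_r hr)
      (fun c e => GG a b c e)
    have h2 : ∀ n, n * (a * b) = a * b * n := fun n => by ring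
    simp only [h2] at h1
    rw [← h1]
    refine sum_congr rfl fun c _ => sum_congr rfl fun e _ => ?_
    rw [mul_assoc (a * b) c e]
  rw [sum_congr rfl (fun a ha => sum_congr rfl (fun b hb => e1 a ha b hb))]
  -- move n outside
  have e2 : ∑ a ∈ SB X, ∑ b ∈ SB X, ∑ n ∈ SB X, Ind X (a * b * n) * ∑ C ∈ (PD n).powerset,
        GG a b (∏ π ∈ C, π) (∏ π ∈ PD n \ C, π) =
      ∑ n ∈ SB X, ∑ a ∈ SB X, ∑ b ∈ SB X, Ind X (a * b * n) * ∑ C ∈ (PD n).powerset,
        GG a b (∏ π ∈ C, π) (∏ π ∈ PD n \ C, π) := by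
    rw [sum_congr rfl (fun a _ => sum_comm), sum_comm]
  rw [e2]
  have e3 : ∀ n ∈ SB X, ∑ a ∈ SB X, ∑ b ∈ SB X, Ind X (a * b * n) * (∑ C ∈ (PD n).powerset,
        GG a b (∏ π ∈ C, π) (∏ π ∈ PD n \ C, π)) =
      ∑ d ∈ SB X, Ind X (d * n) * ∑ A ∈ (PD d).powerset, ∑ C ∈ (PD n).powerset,
        GG (∏ π ∈ A, π) (∏ π ∈ PD d \ A, π) (∏ π ∈ C, π) (∏ π ∈ PD n \ C, π) := by
    intro n hn
    rw [mem_SB] at hn
    exact pr_sum (X := X) (Φ := fun d => Ind X (d * n)) (Ind_r hn.2.prm)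
      (fun a b => ∑ C ∈ (PD n).powerset, GG a b (∏ π ∈ C, π) (∏ π ∈ PD n \ C, π))
  rw [sum_congr rfl e3, sum_comm]
  have h1 := pr_sum (X := X) (Φ := fun m => Ind X m) (fun n h => Ind_ne h)
      (fun d n => ∑ A ∈ (PD d).powerset, ∑ C ∈ (PD n).powerset,
        GG (∏ π ∈ A, π) (∏ π ∈ PD d \ A, π) (∏ π ∈ C, π) (∏ π ∈ PD n \ C, π))
  rw [h1]
  refine sum_congr rfl fun m hm => ?_
  have hm2 := mem_SB.1 hm
  have hI : Ind X m = 1 := by unfold Ind; rw [if_pos ⟨hm2.2, hm2.1⟩]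
  rw [hI, one_mul]
  have hm' := (mem_SB.1 hm).2
  unfold KK
  rw [← sum_boole]
  refine sum_congr rfl fun S hS => ?_
  rw [mem_powerset] at hS
  have hSP : ∀ π ∈ S, PP π := fun π hπ => ((mem_PD hm'.ne).1 (hS hπ)).1
  have hSP' : ∀ π ∈ PD m \ S, PP π := fun π hπ => ((mem_PD hm'.ne).1 (mem_sdiff.1 hπ).1).1
  rw [(PS_prod hSP).2, (PS_prod hSP').2]
  exact (GG_sum hm' hS).symm

/-! ### the kernel -/

section ker
variable {Δ : ZI}

/-- the support of a vector -/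
noncomputable def su (z : {π : ZI // π ∈ PD Δ} → ZMod 2) : Finset ZI :=
  (univ.filter fun v => z v = 1).map (Function.Embedding.subtype _)

lemma mem_su {z : {π : ZI // π ∈ PD Δ} → ZMod 2} {π : ZI} :
    π ∈ su z ↔ ∃ h : π ∈ PD Δ, z ⟨π, h⟩ = 1 := by
  unfold su
  rw [mem_map]
  constructor
  · rintro ⟨v, hv, rfl⟩
    exact ⟨v.2, (mem_filter.1 hv).2⟩
  · rintro ⟨h, h1⟩
    exact ⟨⟨π, h⟩, mem_filter.2 ⟨mem_univ _, h1⟩, rfl⟩

lemma su_sub (z : {π : ZI // π ∈ PD Δ} → ZMod 2) : su z ⊆ PD Δ := fun _ h => (mem_su.1 h).1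

lemma su_inj : Function.Injective (su (Δ := Δ)) := by
  intro z w h
  funext v
  have h1 : ∀ a b : ZMod 2, (a = 1 ↔ b = 1) → a = b := by decide
  apply h1
  have h2 := Finset.ext_iff.1 h v.1
  rw [mem_su, mem_su] at h2
  constructor
  · intro h3
    obtain ⟨_, h4⟩ := h2.1 ⟨v.2, h3⟩
    exact h4
  · intro h3
    obtain ⟨_, h4⟩ := h2.2 ⟨v.2, h3⟩
    exact h4

lemma prod_su (z : {π : ZI // π ∈ PD Δ} → ZMod 2) :
    ∏ ρ ∈ su z, ρ = DD (fam Δ) (univ.filter fun v => z v = 1) := by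
  unfold su DD fam
  rw [prod_map]
  rfl

lemma sdiff_su (z : {π : ZI // π ∈ PD Δ} → ZMod 2) :
    PD Δ \ su z = (univ.filter fun v => z v ≠ 1).map (Function.Embedding.subtype _) := by
  ext π
  rw [mem_sdiff, mem_su, mem_map]
  constructor
  · rintro ⟨h1, h2⟩
    exact ⟨⟨π, h1⟩, mem_filter.2 ⟨mem_univ _, fun h3 => h2 ⟨h1, h3⟩⟩, rfl⟩
  · rintro ⟨v, hv, rfl⟩
    exact ⟨v.2, fun ⟨h, h3⟩ => (mem_filter.1 hv).2 h3⟩

lemma prod_sdiff_su (z : {π : ZI // π ∈ PD Δ} → ZMod 2) :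
    ∏ ρ ∈ PD Δ \ su z, ρ = DD (fam Δ) (univ.filter fun v => z v ≠ 1) := by
  rw [sdiff_su]
  unfold DD fam
  rw [prod_map]
  rfl

lemma psi_sg (v : {π : ZI // π ∈ PD Δ}) : psi v.1 = (sg (wt (fam Δ) v) : ℝ) := by
  unfold psi wt fam
  by_cases h : v.1.norm % 8 = 5
  · rw [if_pos h, if_pos h]
    norm_num [sg]
  · rw [if_neg h, if_neg h]
    norm_num [sg]

lemma z01 : ∀ a : ZMod 2, a ≠ 1 → a = 0 := by decide

lemma ker_iff (hΔ : Δ ≠ 0) (z : {π : ZI // π ∈ PD Δ} → ZMod 2) : z ∈ Ker Δ ↔ Co Δ (su z) := by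
  classical
  have hPF := fam_PF hΔ
  unfold Ker Co
  rw [Set.mem_ofPred_eq]
  -- one line
  have key1 : ∀ v, z v = 1 → (wt (fam Δ) v * z v + ∑ u, em (fam Δ) u v * (z u + z v) = 0 ↔
      psi v.1 * (qr v.1 (∏ ρ ∈ PD Δ \ su z, ρ) : ℝ) = 1) := by
    intro v hv
    rw [prod_sdiff_su, hv, mul_one]
    have h1 : qr v.1 (DD (fam Δ) (univ.filter fun v => z v ≠ 1)) =
        sg (∑ i ∈ univ.filter (fun v => z v ≠ 1), em (fam Δ) i v) :=
      qr_DD_sg hPF (univ.filter fun v => z v ≠ 1) (j := v) (by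
        rw [mem_filter]
        exact fun h => h.2 hv)
    rw [h1, psi_sg]
    have h2 : ∑ u, em (fam Δ) u v * (z u + 1) =
        ∑ i ∈ univ.filter (fun v => z v ≠ 1), em (fam Δ) i v := by
      rw [sum_filter]
      refine sum_congr rfl fun u _ => ?_
      by_cases h : z u = 1
      · have h3 : (1 : ZMod 2) + 1 = 0 := by decide
        rw [if_neg (not_not.2 h), h, h3, mul_zero]
      · rw [if_pos h, z01 _ h, zero_add, mul_one]
    rw [h2]
    have h3 : ((sg (wt (fam Δ) v) : ℝ) *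
        (sg (∑ i ∈ univ.filter (fun v => z v ≠ 1), em (fam Δ) i v) : ℝ)) =
        ((sg (wt (fam Δ) v + ∑ i ∈ univ.filter (fun v => z v ≠ 1), em (fam Δ) i v) : ℤ) : ℝ) := by
      rw [sg_add]
      push_cast
      rfl
    rw [h3]
    constructor
    · intro h4
      rw [h4]
      norm_num [sg]
    · intro h4
      apply sg_eq_one
      exact_mod_cast h4
  have key2 : ∀ v, z v ≠ 1 → (wt (fam Δ) v * z v + ∑ u, em (fam Δ) u v * (z u + z v) = 0 ↔
      qr v.1 (∏ ρ ∈ su z, ρ) = 1) := by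
    intro v hv
    rw [prod_su, z01 _ hv, mul_zero, zero_add]
    have h1 : qr v.1 (DD (fam Δ) (univ.filter fun v => z v = 1)) =
        sg (∑ i ∈ univ.filter (fun v => z v = 1), em (fam Δ) i v) :=
      qr_DD_sg hPF (univ.filter fun v => z v = 1) (j := v) (by
        rw [mem_filter]
        exact fun h => hv h.2)
    rw [h1]
    have h2 : ∑ u, em (fam Δ) u v * (z u + 0) =
        ∑ i ∈ univ.filter (fun v => z v = 1), em (fam Δ) i v := by
      rw [sum_filter]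
      refine sum_congr rfl fun u _ => ?_
      by_cases h : z u = 1
      · rw [if_pos h, h, add_zero, mul_one]
      · rw [if_neg h, z01 _ h, add_zero, mul_zero]
    rw [h2]
    constructor
    · intro h4
      rw [h4]
      rfl
    · intro h4
      exact sg_eq_one h4
  constructor
  · intro h
    constructor
    · intro π hπ
      obtain ⟨h1, h2⟩ := mem_su.1 hπ
      exact (key1 ⟨π, h1⟩ h2).1 (h _)
    · intro π hπ
      rw [mem_sdiff, mem_su] at hπ
      exact (key2 ⟨π, hπ.1⟩ fun h2 => hπ.2 ⟨hπ.1, h2⟩).1 (h _)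
  · rintro ⟨h1, h2⟩ v
    by_cases hv : z v = 1
    · exact (key1 v hv).2 (h1 v.1 (mem_su.2 ⟨v.2, hv⟩))
    · exact (key2 v hv).2 (h2 v.1 (by
        rw [mem_sdiff, mem_su]
        exact ⟨v.2, fun ⟨_, h4⟩ => hv h4⟩))

/-- **the order of the kernel** -/
theorem ker_ncard (hΔ : Δ ≠ 0) : ((Ker Δ).ncard : ℝ) = KK Δ := by
  classical
  unfold KK
  have h1 : (((PD Δ).powerset.filter (Co Δ)) : Set (Finset ZI)) = su '' (Ker Δ) := by
    ext S
    rw [mem_coe, mem_filter, mem_powerset, Set.mem_image]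
    constructor
    · rintro ⟨h1, h2⟩
      refine ⟨fun v => if v.1 ∈ S then 1 else 0, ?_, ?_⟩
      · rw [ker_iff hΔ]
        have : su (Δ := Δ) (fun v => if v.1 ∈ S then 1 else 0) = S := by
          ext π
          rw [mem_su]
          constructor
          · rintro ⟨h, h3⟩
            by_contra h4
            simp only [if_neg h4] at h3
            exact absurd h3 (by decide)
          · intro h
            exact ⟨h1 h, by simp only [if_pos h]⟩
        rw [this]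
        exact h2
      · ext π
        rw [mem_su]
        constructor
        · rintro ⟨h, h3⟩
          by_contra h4
          simp only [if_neg h4] at h3
          exact absurd h3 (by decide)
        · intro h
          exact ⟨h1 h, by simp only [if_pos h]⟩
    · rintro ⟨z, hz, rfl⟩
      exact ⟨su_sub z, (ker_iff hΔ z).1 hz⟩
  have h2 : (Ker Δ).ncard = (su '' (Ker Δ)).ncard := (Set.ncard_image_of_injective _ su_inj).symm
  rw [h2, ← h1, Set.ncard_coe_finset]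

end ker

/-- the sum of the orders of the kernels -/
theorem sum_ker (X : ℕ) : ∑ Δ ∈ SB X, ((Ker Δ).ncard : ℝ) =
    ∑ a ∈ SB X, ∑ b ∈ SB X, ∑ c ∈ SB X, ∑ e ∈ SB X, Ind X (a * b * c * e) * GG a b c e := by
  rw [← KK_sum]
  exact sum_congr rfl fun Δ hΔ => ker_ncard (mem_SB.1 hΔ).2.ne

end Pool.Agent.D0H10.Q5.Av
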