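import Pool.Agent.Y699.Pr

/-!
Project Q5, average: the half-density mean value for the character `(i / π) (G / π)`.
-/

set_option autoImplicit false

open Finset

namespace Pool.Agent.D0H10.Q5.Av

open H385 (ZI RQ im1 nrm BX)
open H385.H10 (mem_BX nrm_pos Dv mem_Dv card_Dv)
open Pool.Agent.Y699
open Pool.Agent.W164.RC (two2 prim_iff_dvd unit_norm unit_cases)
open Pool.Agent.H304R2.EC.A1 (prim prim_mul prim_cancel prim_one prim_norm_odd prim_star eq_one_of_prim
  norm_def' re_mul' im_mul' eq_of_dvd prim_ne_zero exists_prim)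

/-- the twisted symbol -/
noncomputable def xj (G d : ZI) : ℝ := psi d * jac G d

lemma xj_cases (G d : ZI) : xj G d = 0 ∨ xj G d = 1 ∨ xj G d = -1 := by
  unfold xj
  have h1 : psi d = 1 ∨ psi d = -1 := by
    unfold psi
    split_ifs
    · right; rfl
    · left; rfl
  rcases jac_cases G d with h | h | h <;> rcases h1 with h' | h' <;> rw [h, h'] <;> simp

lemma xj_abs (G d : ZI) : |xj G d| ≤ 1 := by
  rcases xj_cases G d with h | h | h <;> rw [h] <;> norm_num

lemma xj_mul {G a b : ZI} (hG : G ≠ 0) (ha : prim a) (hb : prim b) : xj G (a * b) = xj G a * xj G b := by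
  unfold xj
  rw [psi_mul ha hb, jac_mul_right hG]
  push_cast
  ring

lemma xj_one {G : ZI} (hG : G ≠ 0) : xj G 1 = 1 := by
  unfold xj
  rw [jac_one_right hG]
  have : psi 1 = 1 := by
    unfold psi
    rw [if_neg]
    simp
  rw [this]
  norm_num

lemma norm_four {a b : ZI} (h : (4 : ZI) ∣ a - b) : a.norm % 8 = b.norm % 8 := by
  obtain ⟨w, hw⟩ := h
  have e : a = b + 4 * w := by rw [← hw]; ring
  have h1 := congrArg Zsqrtd.re e
  have h2 := congrArg Zsqrtd.im e
  have e1 : a.re = b.re + 4 * w.re := by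
    rw [h1]; simp
  have e2 : a.im = b.im + 4 * w.im := by
    rw [h2]; simp
  rw [norm_def', norm_def', e1, e2]
  have : (b.re + 4 * w.re) ^ 2 + (b.im + 4 * w.im) ^ 2 = b.re ^ 2 + b.im ^ 2 +
      8 * (b.re * w.re + 2 * w.re ^ 2 + b.im * w.im + 2 * w.im ^ 2) := by ring
  rw [this]
  omega

lemma psi_four {a b : ZI} (h : (4 : ZI) ∣ a - b) : psi a = psi b := by
  unfold psi
  rw [norm_four h]

lemma two2_four : (two2 : ZI) ∣ 4 := ⟨⟨1, -1⟩, by decide⟩

lemma prim_four {a b : ZI} (h : (4 : ZI) ∣ a - b) : prim a ↔ prim b := by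
  have e1 : two2 ∣ a - b := two2_four.trans h
  rw [prim_iff_dvd, prim_iff_dvd]
  constructor
  · intro h
    have := dvd_sub h e1
    have e : a - 1 - (a - b) = b - 1 := by ring
    rwa [e] at this
  · intro h
    have := dvd_add h e1
    have e : b - 1 + (a - b) = a - 1 := by ring
    rwa [e] at this

/-- the twisting element -/
lemma exists_c {G : ZI} (hG : PS G) :
    ∃ c : ZI, prim c ∧ psi c = -1 ∧ G ∣ c - 1 ∧ IsCoprime c (4 * G) := by
  have hodd := prim_norm_odd hG.prm
  have hcop2 : IsCoprime G (4 : ZI) := by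
    obtain ⟨w, hw⟩ := (prim_iff_dvd G).1 hG.prm
    have h1 : IsCoprime G two2 := ⟨1, -w, by linear_combination hw⟩
    have h2 : IsCoprime G (two2 ^ 2) := h1.pow_right
    have h3 : (two2 : ZI) ^ 2 = 4 * ⟨0, 2⟩ := by decide
    rw [h3] at h2
    exact h2.of_mul_right_left
  obtain ⟨x, y, hxy⟩ := hcop2
  set c : ZI := ⟨3, 2⟩ * (x * G) + y * 4 with hc
  have hc4 : (4 : ZI) ∣ c - ⟨3, 2⟩ := by
    refine ⟨y - ⟨3, 2⟩ * y, ?_⟩
    rw [hc]
    linear_combination (⟨3, 2⟩ : ZI) * hxy
  have hcG : G ∣ c - 1 := by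
    refine ⟨⟨3, 2⟩ * x - x, ?_⟩
    rw [hc]
    linear_combination hxy
  have hp : prim c := (prim_four hc4).2 (by
    rw [prim_iff_dvd]
    exact ⟨1, by decide⟩)
  refine ⟨c, hp, ?_, hcG, ?_⟩
  · rw [psi_four hc4]
    unfold psi
    rw [if_pos (by decide)]
  · refine IsCoprime.mul_right ?_ ?_
    · obtain ⟨w, hw⟩ := (prim_iff_dvd c).1 hp
      have h1 : IsCoprime c two2 := ⟨1, -w, by linear_combination hw⟩
      have h2 : IsCoprime c (two2 ^ 2) := h1.pow_right
      have h3 : (two2 : ZI) ^ 2 = 4 * ⟨0, 2⟩ := by decide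
      rw [h3] at h2
      exact h2.of_mul_right_left
    · obtain ⟨w, hw⟩ := hcG
      exact ⟨1, -w, by linear_combination hw⟩

open Classical in
lemma xsum_ZB {G : ZI} (hG : PS G) (V : ℕ) :
    |∑ a ∈ ZB V, (if prim a then xj G a else 0)| ≤ 48 * nrm G * (2 * Real.sqrt V + 1) := by
  obtain ⟨c, hc1, hc2, hc3, hc4⟩ := exists_c hG
  have hq : (4 : ZI) * G ≠ 0 := mul_ne_zero (by decide) hG.ne
  have hjc : jac G c = 1 := by
    rw [jac_per hG.ne hc3, jac_one_right hG.ne]
  have hxc : xj G c = -1 := by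
    unfold xj
    rw [hc2, hjc]
    norm_num
  have h3 := csum hq (f := fun a => if prim a then xj G a else 0) ?_ ?_ hc4 ?_ V
  · refine h3.trans (le_of_eq ?_)
    rw [nrm_mul]
    have : nrm (4 : ZI) = 16 := by decide
    rw [this]
    push_cast
    ring
  · intro a b hab
    have h4 : (4 : ZI) ∣ a - b := (dvd_mul_right _ _).trans hab
    have h5 : G ∣ a - b := (dvd_mul_left _ _).trans hab
    by_cases h : prim a
    · rw [if_pos h, if_pos ((prim_four h4).1 h)]
      unfold xj
      rw [psi_four h4, jac_per hG.ne h5]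
    · rw [if_neg h, if_neg (fun hh => h ((prim_four h4).2 hh))]
  · intro a
    split_ifs
    · exact xj_abs _ _
    · simp
  · intro a
    have e4 : prim (c * a) ↔ prim a :=
      ⟨fun h => prim_cancel hc1 h, fun h => prim_mul hc1 h⟩
    by_cases h : prim a
    · rw [if_pos h, if_pos (e4.2 h), xj_mul hG.ne hc1 h, hxc]
      ring
    · rw [if_neg h, if_neg (fun hh => h (e4.1 hh)), neg_zero]

/-- character sums -/
lemma xs_le {G : ZI} (hG : PS G) {v : ℕ} (hv : 1 ≤ v) :
    |∑ d ∈ PB v, xj G d| ≤ 144 * nrm G * Real.sqrt v := by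
  classical
  have h := xsum_ZB hG v
  have e : ∑ a ∈ ZB v, (if prim a then xj G a else 0) = ∑ d ∈ PB v, xj G d := by
    unfold PB
    rw [sum_filter]
  rw [e] at h
  have h2 : (1 : ℝ) ≤ Real.sqrt v := Real.one_le_sqrt.2 (by exact_mod_cast hv)
  have h3 : (0 : ℝ) ≤ nrm G := Nat.cast_nonneg _
  refine h.trans ?_
  nlinarith

lemma xs_le' (G : ZI) {v : ℕ} (hv : 1 ≤ v) : |∑ d ∈ PB v, xj G d| ≤ 9 * v := by
  refine (abs_sum_le_sum_abs _ _).trans ((sum_le_sum fun d _ => xj_abs _ _).trans ?_)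
  rw [sum_const, nsmul_eq_mul, mul_one]
  exact card_PB_le hv

/-- partial sums of the L-series at 1 -/
theorem xs_log {G : ZI} (hG : PS G) (Y : ℕ) :
    |∑ d ∈ PB Y, xj G d / nrm d| ≤ 315 * lg (nrm G) := by
  classical
  have hN1 : 1 ≤ nrm G := nrm_pos' hG.ne
  set N := nrm G with hN
  have hlg := one_le_lg N
  rcases Nat.eq_zero_or_pos Y with h0 | hY
  · have : PB Y = ∅ := by
      rw [eq_empty_iff_forall_notMem]
      intro x hx
      rw [mem_PB] at hx
      have := nrm_pos' (prim_ne_zero hx.2)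
      omega
    rw [this, sum_empty, abs_zero]
    linarith
  have hYr : (0 : ℝ) < Y := by exact_mod_cast hY
  -- summation by parts
  have e1 : ∑ d ∈ PB Y, xj G d / nrm d = (∑ d ∈ PB Y, xj G d) * (1 / Y) +
      ∑ v ∈ Ico 1 Y, (∑ d ∈ PB v, xj G d) * (1 / ((v : ℝ) * (v + 1))) := by
    have e2 : ∀ d ∈ PB Y, xj G d / nrm d = xj G d * (1 / Y) +
        ∑ v ∈ Ico 1 Y, if nrm d ≤ v then xj G d * (1 / ((v : ℝ) * (v + 1))) else 0 := by
      intro d hd
      rw [mem_PB] at hd
      have hd1 := nrm_pos' (prim_ne_zero hd.2)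
      have h2 := inv_tel (nrm d) hd1 Y hd.1
      rw [div_eq_mul_one_div, h2, mul_add, mul_sum]
      congr 1
      rw [← sum_filter]
      refine sum_congr ?_ fun _ _ => rfl
      ext v
      rw [mem_filter, mem_Ico, mem_Ico]
      constructor
      · rintro ⟨a1, a2⟩; exact ⟨⟨by omega, a2⟩, a1⟩
      · rintro ⟨⟨-, a2⟩, a1⟩; exact ⟨a1, a2⟩
    rw [sum_congr rfl e2, sum_add_distrib, ← sum_mul, sum_comm]
    congr 1
    refine sum_congr rfl fun v hv => ?_
    rw [mem_Ico] at hv
    rw [← sum_filter, ← sum_mul]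
    congr 1
    refine sum_congr ?_ fun _ _ => rfl
    ext d
    rw [mem_filter, mem_PB, mem_PB]
    constructor
    · rintro ⟨⟨-, a2⟩, a1⟩; exact ⟨a1, a2⟩
    · rintro ⟨a1, a2⟩; exact ⟨⟨by omega, a2⟩, a1⟩
  rw [e1]
  refine (abs_add_le _ _).trans ?_
  have e3 : |(∑ d ∈ PB Y, xj G d) * (1 / Y)| ≤ 9 := by
    rw [abs_mul, abs_of_pos (show (0 : ℝ) < 1 / Y by positivity), mul_one_div, div_le_iff₀ hYr]
    exact xs_le' G hY
  have e4 : ∀ v ∈ Ico 1 Y, |(∑ d ∈ PB v, xj G d) * (1 / ((v : ℝ) * (v + 1)))| ≤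
      (if v < N ^ 2 then 9 * (1 / ((v : ℝ) + 1)) else 0) +
      (if N ^ 2 ≤ v then 144 * N * (Real.sqrt v / (v * (v + 1))) else 0) := by
    intro v hv
    rw [mem_Ico] at hv
    have v0 : (0 : ℝ) < v := by exact_mod_cast hv.1
    have hp : (0 : ℝ) < 1 / ((v : ℝ) * (v + 1)) := by positivity
    rw [abs_mul, abs_of_pos hp]
    by_cases h : v < N ^ 2
    · rw [if_pos h, if_neg (by omega), add_zero]
      calc |∑ d ∈ PB v, xj G d| * (1 / ((v : ℝ) * (v + 1))) ≤ (9 * v) * (1 / ((v : ℝ) * (v + 1))) :=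
            mul_le_mul_of_nonneg_right (xs_le' G hv.1) hp.le
        _ = 9 * (1 / ((v : ℝ) + 1)) := by field_simp
    · rw [if_neg h, if_pos (by omega), zero_add]
      calc |∑ d ∈ PB v, xj G d| * (1 / ((v : ℝ) * (v + 1))) ≤
            (144 * N * Real.sqrt v) * (1 / ((v : ℝ) * (v + 1))) :=
            mul_le_mul_of_nonneg_right (xs_le hG hv.1) hp.le
        _ = 144 * N * (Real.sqrt v / (v * (v + 1))) := by ring
  have e5 : |∑ v ∈ Ico 1 Y, (∑ d ∈ PB v, xj G d) * (1 / ((v : ℝ) * (v + 1)))| ≤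
      9 * (2 * lg N) + 288 := by
    refine (abs_sum_le_sum_abs _ _).trans ((sum_le_sum e4).trans ?_)
    rw [sum_add_distrib]
    have hN2 : 1 ≤ N ^ 2 := Nat.one_le_pow _ _ hN1
    have a1 : ∑ v ∈ Ico 1 Y, (if v < N ^ 2 then 9 * (1 / ((v : ℝ) + 1)) else 0) ≤ 9 * (2 * lg N) := by
      rw [← sum_filter, ← mul_sum]
      have h2 : ∑ v ∈ (Ico 1 Y).filter (fun v => v < N ^ 2), (1 : ℝ) / ((v : ℝ) + 1) ≤
          ∑ v ∈ Ico 1 (N ^ 2), (1 : ℝ) / ((v : ℝ) + 1) := by
        refine sum_le_sum_of_subset_of_nonneg ?_ (fun _ _ _ => by positivity)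
        intro v hv
        rw [mem_filter, mem_Ico] at hv
        rw [mem_Ico]
        exact ⟨hv.1.1, hv.2⟩
      have h3 := harm_le (N ^ 2) hN2
      have h4 : Real.log ((N ^ 2 : ℕ) : ℝ) = 2 * Real.log N := by
        push_cast
        rw [Real.log_pow]
        push_cast
        ring
      rw [h4] at h3
      have h5 := log_le_lg hN1
      linarith
    have a2 : ∑ v ∈ Ico 1 Y, (if N ^ 2 ≤ v then 144 * (N : ℝ) * (Real.sqrt v / (v * (v + 1))) else 0) ≤ 288 := by
      rw [← sum_filter, ← mul_sum]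
      have h2 : ∑ v ∈ (Ico 1 Y).filter (fun v => N ^ 2 ≤ v), Real.sqrt v / ((v : ℝ) * (v + 1)) ≤
          ∑ v ∈ Ico (N ^ 2) (max Y (N ^ 2)), Real.sqrt v / ((v : ℝ) * (v + 1)) := by
        refine sum_le_sum_of_subset_of_nonneg ?_ (fun _ _ _ => by positivity)
        intro v hv
        rw [mem_filter, mem_Ico] at hv
        rw [mem_Ico]
        exact ⟨hv.2, lt_of_lt_of_le hv.1.2 (le_max_left _ _)⟩
      have h3 := sqrt_tel (N ^ 2) hN2 (max Y (N ^ 2)) (le_max_right _ _)
      have h4 : Real.sqrt ((N ^ 2 : ℕ) : ℝ) = N := by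
        push_cast
        exact Real.sqrt_sq (Nat.cast_nonneg _)
      rw [h4] at h3
      have h5 : (0 : ℝ) ≤ 1 / Real.sqrt ((max Y (N ^ 2) : ℕ) : ℝ) := by positivity
      have Nr : (0 : ℝ) < N := by exact_mod_cast hN1
      calc 144 * (N : ℝ) * ∑ v ∈ (Ico 1 Y).filter (fun v => N ^ 2 ≤ v), Real.sqrt v / ((v : ℝ) * (v + 1))
          ≤ 144 * N * (2 * (1 / N)) := by
            apply mul_le_mul_of_nonneg_left _ (by positivity)
            linarith
        _ = 288 := by field_simp; norm_num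
    linarith
  linarith

/-- comparison of the two convolutions -/
theorem conv_lex {G : ZI} (hG : G ≠ 0) : ∀ n : ZI, prim n →
    mf (fun π => 1 + xj G π) n ≤ ∑ d ∈ DP n, xj G d := by
  have hχ := xj_cases G
  have hnn : ∀ n, 0 ≤ mf (fun π => 1 + xj G π) n := by
    intro n
    apply mf_nonneg
    intro π
    rcases hχ π with h | h | h <;> rw [h] <;> norm_num
  have key : ∀ N : ℕ, ∀ n : ZI, nrm n = N → prim n →
      mf (fun π => 1 + xj G π) n ≤ ∑ d ∈ DP n, xj G d := by
    intro N
    induction N using Nat.strong_induction_on with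
    | _ N ih =>
      intro n hN hn
      have hn0 := prim_ne_zero hn
      by_cases h1 : n = 1
      · rw [h1]
        have e1 : mf (fun π => 1 + xj G π) 1 = 1 := by unfold mf; rw [PD_one]; simp
        have e2 : DP (1 : ZI) = {1} := by
          ext d
          rw [mem_DP one_ne_zero, mem_singleton]
          constructor
          · rintro ⟨a1, a2⟩
            have h2 := isUnit_of_dvd_one a2
            obtain ⟨u, rfl⟩ := h2
            exact eq_one_of_prim a1 (unit_norm u)
          · rintro rfl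
            exact ⟨prim_one, dvd_rfl⟩
        rw [e1, e2, sum_singleton, xj_one hG]
      · have hnu : ¬ IsUnit n := by
          intro h2
          obtain ⟨u, hu⟩ := h2
          apply h1
          rw [← hu]
          rw [← hu] at hn
          exact eq_one_of_prim hn (unit_norm u)
        obtain ⟨ρ, hρ, hρn⟩ := WfDvdMonoid.exists_irreducible_factor hnu hn0
        obtain ⟨π, hπ, hass⟩ := exists_PP (irreducible_iff_prime.1 hρ) (odd_of_dvd hρn (prim_norm_odd hn))
        have hπn : π ∣ n := hass.dvd.trans hρn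
        obtain ⟨k, m, hm, hnm⟩ := WfDvdMonoid.max_power_factor hn0 hπ.pr.irreducible
        have hk : 1 ≤ k := by
          by_contra h2
          have : k = 0 := by omega
          rw [this, pow_zero, one_mul] at hnm
          rw [hnm] at hπn
          exact hm hπn
        have hmp : prim m := prim_cancel (prim_pow hπ.prm k) (by rw [← hnm]; exact hn)
        have hm0 := prim_ne_zero hmp
        have hlt : nrm m < N := by
          rw [← hN, hnm, nrm_mul]
          have h2 : 1 < nrm (π ^ k) := by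
            have h3 : π ∣ π ^ k := dvd_pow_self π (by omega)
            have h4 : nrm π ≤ nrm (π ^ k) := norm_le_of_dvd (pow_ne_zero _ hπ.ne) h3
            have h5 := hπ.nrm_ne_one
            have h6 := nrm_pos' hπ.ne
            omega
          have h3 := nrm_pos' hm0
          nlinarith
        have h2 := ih (nrm m) hlt m rfl hmp
        rw [hnm, sum_DP_mul hπ hmp hm]
        have e1 : mf (fun π => 1 + xj G π) (π ^ k * m) =
            (1 + xj G π) * mf (fun π => 1 + xj G π) m := by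
          unfold mf
          classical
          have h3 : PD (π ^ k * m) = insert π (PD m) := by
            ext ρ
            rw [mem_insert, mem_PD (mul_ne_zero (pow_ne_zero _ hπ.ne) hm0), mem_PD hm0]
            constructor
            · rintro ⟨a1, a2⟩
              rcases a1.pr.dvd_or_dvd a2 with a3 | a3
              · left
                exact a1.eq_of_dvd hπ (a1.pr.dvd_of_dvd_pow a3)
              · right
                exact ⟨a1, a3⟩
            · rintro (rfl | ⟨a1, a2⟩)
              · exact ⟨hπ, (dvd_pow_self _ (by omega)).mul_right _⟩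
              · exact ⟨a1, a2.mul_left _⟩
          rw [h3, prod_insert]
          rw [mem_PD hm0]
          exact fun h4 => hm h4.2
        rw [e1]
        have e2 : ∀ j, ∀ d ∈ DP m, xj G (π ^ j * d) = (xj G π) ^ j * xj G d := by
          intro j d hd
          have : ∀ j, xj G (π ^ j) = (xj G π) ^ j := by
            intro j
            induction j with
            | zero => rw [pow_zero, pow_zero, xj_one hG]
            | succ j ih => rw [pow_succ, pow_succ, xj_mul hG (prim_pow hπ.prm j) hπ.prm, ih]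
          rw [xj_mul hG (prim_pow hπ.prm j) ((mem_DP hm0).1 hd).1, this]
        have e3 : ∑ j ∈ range (k + 1), ∑ d ∈ DP m, xj G (π ^ j * d) =
            (∑ j ∈ range (k + 1), (xj G π) ^ j) * ∑ d ∈ DP m, xj G d := by
          rw [sum_mul]
          refine sum_congr rfl fun j _ => ?_
          rw [mul_sum]
          exact sum_congr rfl fun d hd => e2 j d hd
        rw [e3]
        have h3 := sgn_sum (hχ π) hk
        have h4 : (0 : ℝ) ≤ 1 + xj G π := by
          rcases hχ π with h | h | h <;> rw [h] <;> norm_num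
        exact mul_le_mul h3 h2 (hnn m) (h4.trans h3)
  intro n hn
  exact key _ n rfl hn

/-- **the half-density mean value** -/
theorem hallX {G : ZI} (hG : PS G) (T : ℕ) :
    ∑ n ∈ SB T, mf (fun π => (1 + xj G π) / 2) n ≤
      2247 * Real.sqrt (lg (nrm G)) * (T / Real.sqrt (lg T)) := by
  classical
  rcases Nat.eq_zero_or_pos T with h0 | hT
  · have : SB T = ∅ := by
      rw [eq_empty_iff_forall_notMem]
      intro x hx
      rw [mem_SB] at hx
      have := nrm_pos' hx.2.ne
      omega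
    rw [this, sum_empty]
    positivity
  have hχ := xj_cases G
  have hl := one_le_lg (nrm G)
  have hA : ∑ n ∈ PB (T ^ 2), mf (fun π => 2 * ((1 + xj G π) / 2)) n / nrm n ≤
      (11449 * lg (nrm G)) * lg T := by
    have e1 : (fun π : ZI => 2 * ((1 + xj G π) / 2)) = fun π => 1 + xj G π := by
      funext π; ring
    rw [e1]
    have e2 : ∑ n ∈ PB (T ^ 2), mf (fun π => 1 + xj G π) n / nrm n ≤
        ∑ n ∈ PB (T ^ 2), (∑ d ∈ DP n, xj G d) / nrm n := by
      refine sum_le_sum fun n hn => ?_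
      exact div_le_div_of_nonneg_right (conv_lex hG.ne n (mem_PB.1 hn).2) (Nat.cast_nonneg _)
    rw [conv_sum] at e2
    refine e2.trans ?_
    have e3 : ∀ k ∈ PB (T ^ 2), (1 / (nrm k : ℝ)) * ∑ d ∈ PB (T ^ 2 / nrm k), xj G d / nrm d ≤
        (315 * lg (nrm G)) * (1 / nrm k) := by
      intro k _
      rw [mul_comm]
      exact mul_le_mul_of_nonneg_right ((le_abs_self _).trans (xs_log hG _)) (by positivity)
    refine (sum_le_sum e3).trans ?_
    rw [← mul_sum]
    have e4 := hsum (T ^ 2)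
    have e5 := lg_sq T
    have e6 := lg_pos T
    have e7 : (315 * lg (nrm G)) * ∑ k ∈ PB (T ^ 2), (1 : ℝ) / nrm k ≤ (315 * lg (nrm G)) * (36 * lg T) := by
      apply mul_le_mul_of_nonneg_left _ (by linarith)
      linarith
    refine e7.trans ?_
    have : 0 ≤ lg (nrm G) * lg T := by positivity
    nlinarith
  have h2 := hall_aux (g := fun π => (1 + xj G π) / 2)
    (fun π => by rcases hχ π with h | h | h <;> simp only [h] <;> norm_num)
    (fun π => by rcases hχ π with h | h | h <;> simp only [h] <;> norm_num) hT (by linarith) hA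
  refine h2.trans (le_of_eq ?_)
  have e : Real.sqrt (11449 * lg (nrm G)) = 107 * Real.sqrt (lg (nrm G)) := by
    rw [Real.sqrt_mul (by norm_num)]
    congr 1
    rw [show (11449 : ℝ) = 107 ^ 2 by norm_num]
    exact Real.sqrt_sq (by norm_num)
  rw [e]
  ring

end Pool.Agent.D0H10.Q5.Av
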