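import Pool.Agent.Y699.Rgm
import Pool.Agent.D0H10.Q5.AvA
import Pool.Agent.D0H10.Q5.AvB

/-!
Project Q5, average: the sum over four variables.
-/

set_option autoImplicit false

open Finset

namespace Pool.Agent.D0H10.Q5.Av

open H385 (ZI RQ im1 nrm BX)
open H385.H10 (mem_BX nrm_pos Dv mem_Dv card_Dv)
open Pool.Agent.Y699
open Pool.Agent.W164.RC (two2 prim_iff_dvd unit_norm unit_cases)
open Pool.Agent.H304R2.EC.A1 (prim prim_mul prim_cancel prim_one prim_norm_odd prim_star eq_one_of_prim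
  norm_def' re_mul' im_mul' eq_of_dvd prim_ne_zero exists_prim)

/-- a sum over four variables -/
noncomputable def S4 (s : Finset ZI) (F : ZI → ZI → ZI → ZI → ℝ) : ℝ :=
  ∑ a ∈ s, ∑ b ∈ s, ∑ c ∈ s, ∑ e ∈ s, F a b c e

lemma S4_12 (s : Finset ZI) (F : ZI → ZI → ZI → ZI → ℝ) :
    S4 s F = S4 s (fun a b c e => F b a c e) := by
  unfold S4
  exact sum_comm

lemma S4_23 (s : Finset ZI) (F : ZI → ZI → ZI → ZI → ℝ) :
    S4 s F = S4 s (fun a b c e => F a c b e) := by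
  unfold S4
  exact sum_congr rfl fun _ _ => sum_comm

lemma S4_34 (s : Finset ZI) (F : ZI → ZI → ZI → ZI → ℝ) :
    S4 s F = S4 s (fun a b c e => F a b e c) := by
  unfold S4
  exact sum_congr rfl fun _ _ => sum_congr rfl fun _ _ => sum_comm

lemma S4_congr {s : Finset ZI} {F G : ZI → ZI → ZI → ZI → ℝ}
    (h : ∀ a ∈ s, ∀ b ∈ s, ∀ c ∈ s, ∀ e ∈ s, F a b c e = G a b c e) : S4 s F = S4 s G := by
  unfold S4
  exact sum_congr rfl fun a ha => sum_congr rfl fun b hb => sum_congr rfl fun c hc =>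
    sum_congr rfl fun e he => h a ha b hb c hc e he

lemma S4_add (s : Finset ZI) (F G : ZI → ZI → ZI → ZI → ℝ) :
    S4 s (fun a b c e => F a b c e + G a b c e) = S4 s F + S4 s G := by
  unfold S4
  simp only [sum_add_distrib]

/-- bounding with two outer variables -/
lemma S4_bound {s : Finset ZI} {F : ZI → ZI → ZI → ZI → ℝ} {K : ℝ} {g1 g2 : ZI → ℝ}
    (h : ∀ a ∈ s, ∀ b ∈ s, |∑ c ∈ s, ∑ e ∈ s, F a b c e| ≤ K * (g1 a * g2 b)) :
    |S4 s F| ≤ K * ((∑ x ∈ s, g1 x) * ∑ x ∈ s, g2 x) := by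
  unfold S4
  have e : K * ((∑ x ∈ s, g1 x) * ∑ x ∈ s, g2 x) = ∑ a ∈ s, ∑ b ∈ s, K * (g1 a * g2 b) := by
    rw [sum_mul, mul_sum]
    refine sum_congr rfl fun x1 _ => ?_
    rw [mul_sum, mul_sum]
  rw [e]
  refine (abs_sum_le_sum_abs _ _).trans (sum_le_sum fun x1 h1 => ?_)
  refine (abs_sum_le_sum_abs _ _).trans (sum_le_sum fun x2 h2 => ?_)
  exact h x1 h1 x2 h2

/-- bounding with three outer variables -/
lemma S4_bound3 {s : Finset ZI} {F : ZI → ZI → ZI → ZI → ℝ} {K : ℝ} {g1 g2 g3 : ZI → ℝ}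
    (h : ∀ a ∈ s, ∀ b ∈ s, ∀ c ∈ s, |∑ e ∈ s, F a b c e| ≤ K * (g1 a * (g2 b * g3 c))) :
    |S4 s F| ≤ K * ((∑ x ∈ s, g1 x) * ((∑ x ∈ s, g2 x) * ∑ x ∈ s, g3 x)) := by
  unfold S4
  have e : K * ((∑ x ∈ s, g1 x) * ((∑ x ∈ s, g2 x) * ∑ x ∈ s, g3 x)) =
      ∑ a ∈ s, ∑ b ∈ s, ∑ c ∈ s, K * (g1 a * (g2 b * g3 c)) := by
    rw [sum_mul, mul_sum]
    refine sum_congr rfl fun x1 _ => ?_
    rw [sum_mul, mul_sum, mul_sum]
    refine sum_congr rfl fun x2 _ => ?_
    rw [mul_sum, mul_sum, mul_sum]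
  rw [e]
  refine (abs_sum_le_sum_abs _ _).trans (sum_le_sum fun x1 h1 => ?_)
  refine (abs_sum_le_sum_abs _ _).trans (sum_le_sum fun x2 h2 => ?_)
  refine (abs_sum_le_sum_abs _ _).trans (sum_le_sum fun x3 h3 => ?_)
  exact h x1 h1 x2 h2 x3 h3

/-- the summand -/
noncomputable def F4 (X : ℕ) (a b c e : ZI) : ℝ := Ind X (a * b * c * e) * GG a b c e

lemma hi_lo (Z : ℕ) (x : ZI) : hi Z x = 1 - lo Z x := by
  unfold hi lo
  by_cases h : nrm x ≤ Z
  · rw [if_pos h, if_neg (by omega)]; ring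
  · rw [if_neg h, if_pos (by omega)]; ring

lemma psi_abs' (x : ZI) : |psi x| ≤ 1 := psi_abs x

lemma two_bound {X : ℕ} {K : ℝ} (hK : 0 ≤ K) :
    K * ((∑ x ∈ SB X, (1 : ℝ) / nrm x) * ∑ x ∈ SB X, (1 : ℝ) / nrm x) ≤ K * (18 * lg X) ^ 2 := by
  have h := hsum_SB X
  have h0 : 0 ≤ ∑ x ∈ SB X, (1 : ℝ) / nrm x := sum_nonneg fun _ _ => by positivity
  apply mul_le_mul_of_nonneg_left _ hK
  rw [sq]
  exact mul_le_mul h h h0 (by linarith)

lemma inv_two {X : ℕ} {x1 x2 : ZI} {C L z : ℝ} :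
    C * ((X : ℝ) / nrm (x1 * x2) * L) * z =
      (C * (X * L) * z) * (1 / nrm x1 * (1 / nrm x2)) := by
  rw [nrm_mul]
  push_cast
  rw [one_div_mul_one_div]
  ring

/-- the first linked pair -/
theorem regU : ∃ C : ℝ, 1 ≤ C ∧ ∀ (X Z : ℕ), 1 ≤ Z →
    |S4 (SB X) (fun a b c e => (hi Z a * hi Z e) * F4 X a b c e)| ≤
      C * (X * lg X ^ 3) * (Z : ℝ) ^ (-(1 / 96) : ℝ) := by
  obtain ⟨C, hC1, hC⟩ := blp
  refine ⟨18 ^ 2 * C, by linarith, ?_⟩
  intro X Z hZ
  have hlg := lg_pos X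
  rw [S4_12, S4_23]
  have h := S4_bound (s := SB X) (F := fun b c a e => (hi Z a * hi Z e) * F4 X a b c e)
    (K := C * (X * lg X) * (Z : ℝ) ^ (-(1 / 96) : ℝ))
    (g1 := fun x => 1 / nrm x) (g2 := fun x => 1 / nrm x) ?_
  · refine h.trans ((two_bound (by positivity)).trans (le_of_eq (by ring)))
  · intro b hb c hc
    rw [mem_SB] at hb hc
    have hr : prim (b * c) := prim_mul hb.2.prm hc.2.prm
    have h1 := hC (fun a => hi Z a * (psi a * wt2 a)) (fun e => hi Z e * wt2 e)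
      (fun a => abs_mul_le (hi_abs _ _) (abs_mul_le (psi_abs _) (wt2_abs _)))
      (fun e => abs_mul_le (hi_abs _ _) (wt2_abs _)) Z X hZ
      (fun x hx => by rw [hi_zero hx, zero_mul]) (fun x hx => by rw [hi_zero hx, zero_mul])
      (b * c) hr
    have e1 : ∑ a ∈ SB X, ∑ e ∈ SB X, (hi Z a * hi Z e) * F4 X a b c e =
        (wt2 b * wt2 c * jac b c) * ∑ a ∈ SB X, ∑ e ∈ SB X, Ind X (a * e * (b * c)) *
          ((hi Z a * (psi a * wt2 a)) * (hi Z e * wt2 e) * jac a e) := by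
      rw [mul_sum]
      refine sum_congr rfl fun a _ => ?_
      rw [mul_sum]
      refine sum_congr rfl fun e _ => ?_
      unfold F4 GG
      rw [show a * b * c * e = a * e * (b * c) by ring]
      ring
    rw [e1, abs_mul]
    have h2 : |wt2 b * wt2 c * (jac b c : ℝ)| ≤ 1 :=
      abs_mul_le (abs_mul_le (wt2_abs _) (wt2_abs _)) (jac_abs _ _)
    refine (mul_le_of_le_one_left (abs_nonneg _) h2).trans (h1.trans (le_of_eq ?_))
    rw [inv_two]

/-- the second linked pair -/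
theorem regW : ∃ C : ℝ, 1 ≤ C ∧ ∀ (X Z : ℕ), 1 ≤ Z →
    |S4 (SB X) (fun a b c e => ((1 - hi Z a * hi Z e) * (hi Z b * hi Z c)) * F4 X a b c e)| ≤
      C * (X * lg X ^ 3) * (Z : ℝ) ^ (-(1 / 96) : ℝ) := by
  obtain ⟨C, hC1, hC⟩ := blp
  refine ⟨18 ^ 2 * C, by linarith, ?_⟩
  intro X Z hZ
  have hlg := lg_pos X
  rw [S4_34, S4_23]
  have h := S4_bound (s := SB X)
    (F := fun a e b c => ((1 - hi Z a * hi Z e) * (hi Z b * hi Z c)) * F4 X a b c e)
    (K := C * (X * lg X) * (Z : ℝ) ^ (-(1 / 96) : ℝ))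
    (g1 := fun x => 1 / nrm x) (g2 := fun x => 1 / nrm x) ?_
  · refine h.trans ((two_bound (by positivity)).trans (le_of_eq (by ring)))
  · intro a ha e he
    rw [mem_SB] at ha he
    have hr : prim (a * e) := prim_mul ha.2.prm he.2.prm
    have h1 := hC (fun b => hi Z b * wt2 b) (fun c => hi Z c * wt2 c)
      (fun b => abs_mul_le (hi_abs _ _) (wt2_abs _))
      (fun c => abs_mul_le (hi_abs _ _) (wt2_abs _)) Z X hZ
      (fun x hx => by rw [hi_zero hx, zero_mul]) (fun x hx => by rw [hi_zero hx, zero_mul])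
      (a * e) hr
    have e1 : ∑ b ∈ SB X, ∑ c ∈ SB X,
        ((1 - hi Z a * hi Z e) * (hi Z b * hi Z c)) * F4 X a b c e =
        ((1 - hi Z a * hi Z e) * (psi a * (wt2 a * wt2 e * jac a e))) *
          ∑ b ∈ SB X, ∑ c ∈ SB X, Ind X (b * c * (a * e)) *
          ((hi Z b * wt2 b) * (hi Z c * wt2 c) * jac b c) := by
      rw [mul_sum]
      refine sum_congr rfl fun b _ => ?_
      rw [mul_sum]
      refine sum_congr rfl fun c _ => ?_
      unfold F4 GG
      rw [show a * b * c * e = b * c * (a * e) by ring]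
      ring
    rw [e1, abs_mul]
    have h2 : |(1 - hi Z a * hi Z e) * (psi a * (wt2 a * wt2 e * (jac a e : ℝ)))| ≤ 1 := by
      refine abs_mul_le ?_ (abs_mul_le (psi_abs _)
        (abs_mul_le (abs_mul_le (wt2_abs _) (wt2_abs _)) (jac_abs _ _)))
      have h3 := hi_nonneg Z a
      have h4 := hi_nonneg Z e
      have h5 := hi_le Z a
      have h6 := hi_le Z e
      rw [abs_le]
      constructor
      · nlinarith [mul_le_mul h5 h6 h4 zero_le_one]
      · nlinarith [mul_nonneg h3 h4]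
    refine (mul_le_of_le_one_left (abs_nonneg _) h2).trans (h1.trans (le_of_eq ?_))
    rw [inv_two]

/-! ### two free variables -/

/-- restriction to small elements -/
lemma sum_Ind_le {X : ℕ} {r : ZI} (hr : prim r) {f : ZI → ℝ} (hf : ∀ n, 0 ≤ f n) :
    ∑ n ∈ SB X, Ind X (n * r) * f n ≤ ∑ n ∈ SB (X / nrm r), f n := by
  have h1 : ∑ n ∈ SB X, Ind X (n * r) * f n = ∑ n ∈ SB (X / nrm r), Ind X (n * r) * f n := by
    symm
    refine sum_subset (SB_mono (Nat.div_le_self _ _)) ?_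
    intro n hn hn'
    by_contra h
    have h2 := left_ne_zero_of_mul h
    obtain ⟨h3, h4⟩ := Ind_ne h2
    apply hn'
    rw [mem_SB, Nat.le_div_iff_mul_le (nrm_pos' (prim_ne_zero hr)), ← nrm_mul]
    exact ⟨h4, (mem_SB.1 hn).2⟩
  rw [h1]
  refine sum_le_sum fun n _ => ?_
  exact mul_le_of_le_one_left (hf n) (Ind_le _ _)

lemma wt2_prod {S : Finset ZI} (hS : ∀ π ∈ S, PP π) : wt2 (∏ π ∈ S, π) = ∏ _π ∈ S, (1 / 2 : ℝ) := by
  unfold wt2
  rw [mf_prod hS]

/-- **two free variables** -/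
theorem hswI {A B r : ZI} (hAB : PS (A * B)) (hA : prim A) (hB : prim B) (h1 : A * B ≠ 1) (hr : prim r)
    (hd : A * B ∣ r) (X : ℕ) :
    |∑ c ∈ SB X, ∑ e ∈ SB X, Ind X (c * e * r) * (wt2 c * wt2 e * jac A e * jac B c)| ≤
      1680 * Real.sqrt (lg (nrm (A * B))) * ((X / nrm r : ℕ) / Real.sqrt (lg (X / nrm r))) := by
  classical
  obtain ⟨pA, pB, cAB⟩ := (PS.mul_iff hA hB).1 hAB
  have e1 := pr_sum (X := X) (Φ := fun n => Ind X (n * r)) (Ind_r hr)
    (fun c e => wt2 c * wt2 e * (jac A e : ℝ) * jac B c)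
  rw [e1]
  have e2 : ∀ n ∈ SB X, ∑ S ∈ (PD n).powerset, wt2 (∏ π ∈ S, π) * wt2 (∏ π ∈ PD n \ S, π) *
      (jac A (∏ π ∈ PD n \ S, π) : ℝ) * jac B (∏ π ∈ S, π) =
      ∏ π ∈ PD n, ((1 / 2) * (jac B π : ℝ) + (1 / 2) * jac A π) := by
    intro n hn
    rw [mem_SB] at hn
    rw [prod_add]
    refine sum_congr rfl fun S hS => ?_
    have hSP : ∀ π ∈ S, PP π := fun π hπ => ((mem_PD hn.2.ne).1 (mem_powerset.1 hS hπ)).1
    have hSP' : ∀ π ∈ PD n \ S, PP π := fun π hπ => ((mem_PD hn.2.ne).1 (mem_sdiff.1 hπ).1).1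
    rw [wt2_prod hSP, wt2_prod hSP', jac_prod' pA.ne, jac_prod' pB.ne, prod_mul_distrib, prod_mul_distrib]
    ring
  rw [sum_congr rfl (fun n hn => by rw [e2 n hn])]
  refine (abs_sum_le_sum_abs _ _).trans ?_
  have e3 : ∀ n ∈ SB X, |Ind X (n * r) * ∏ π ∈ PD n, ((1 / 2) * (jac B π : ℝ) + (1 / 2) * jac A π)| ≤
      Ind X (n * r) * mf (fun π => (1 + (jac (A * B) π : ℝ)) / 2) n := by
    intro n hn
    rw [mem_SB] at hn
    rw [abs_mul, abs_of_nonneg (Ind_nonneg _ _)]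
    by_cases h0 : Ind X (n * r) = 0
    · rw [h0, zero_mul, zero_mul]
    · apply mul_le_mul_of_nonneg_left _ (Ind_nonneg _ _)
      rw [abs_prod]
      unfold mf
      refine prod_le_prod (fun _ _ => abs_nonneg _) ?_
      intro π hπ
      obtain ⟨h2, -⟩ := Ind_ne h0
      have hcop := ((PS.mul_iff hn.2.prm hr).1 h2).2.2
      have hπ' := (mem_PD hn.2.ne).1 hπ
      have hπr : IsCoprime π (A * B) := (hcop.of_isCoprime_of_dvd_left hπ'.2).of_isCoprime_of_dvd_right hd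
      have c1 : IsCoprime A π := (hπr.of_mul_right_left).symm
      have c2 : IsCoprime B π := (hπr.of_mul_right_right).symm
      have n1 := jac_ne_zero pA c1
      have n2 := jac_ne_zero pB c2
      rw [jac_mul_left pA.ne pB.ne cAB]
      rcases jac_cases A π with h | h | h
      · exact absurd h n1
      · rcases jac_cases B π with h' | h' | h'
        · exact absurd h' n2
        · rw [h, h']; norm_num
        · rw [h, h']; norm_num
      · rcases jac_cases B π with h' | h' | h'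
        · exact absurd h' n2
        · rw [h, h']; norm_num
        · rw [h, h']; norm_num [abs_of_neg]
  refine (sum_le_sum e3).trans ?_
  have hnn : ∀ n, 0 ≤ mf (fun π => (1 + (jac (A * B) π : ℝ)) / 2) n := by
    apply mf_nonneg
    intro π
    rcases jac_cases (A * B) π with h | h | h <;> rw [h] <;> norm_num
  exact (sum_Ind_le hr hnn).trans (hallG hAB h1 _)

/-- **two free variables, twisted** -/
theorem hswX {A B r : ZI} (hAB : PS (A * B)) (hA : prim A) (hB : prim B) (hr : prim r)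
    (hd : A * B ∣ r) (X : ℕ) :
    |∑ c ∈ SB X, ∑ e ∈ SB X, Ind X (c * e * r) * (wt2 c * wt2 e * (psi e * jac A e) * jac B c)| ≤
      2247 * Real.sqrt (lg (nrm (A * B))) * ((X / nrm r : ℕ) / Real.sqrt (lg (X / nrm r))) := by
  classical
  obtain ⟨pA, pB, cAB⟩ := (PS.mul_iff hA hB).1 hAB
  have e1 := pr_sum (X := X) (Φ := fun n => Ind X (n * r)) (Ind_r hr)
    (fun c e => wt2 c * wt2 e * (psi e * (jac A e : ℝ)) * jac B c)
  rw [e1]
  have e2 : ∀ n ∈ SB X, ∑ S ∈ (PD n).powerset, wt2 (∏ π ∈ S, π) * wt2 (∏ π ∈ PD n \ S, π) *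
      (psi (∏ π ∈ PD n \ S, π) * (jac A (∏ π ∈ PD n \ S, π) : ℝ)) * jac B (∏ π ∈ S, π) =
      ∏ π ∈ PD n, ((1 / 2) * (jac B π : ℝ) + (1 / 2) * (psi π * jac A π)) := by
    intro n hn
    rw [mem_SB] at hn
    rw [prod_add]
    refine sum_congr rfl fun S hS => ?_
    have hSP : ∀ π ∈ S, PP π := fun π hπ => ((mem_PD hn.2.ne).1 (mem_powerset.1 hS hπ)).1
    have hSP' : ∀ π ∈ PD n \ S, PP π := fun π hπ => ((mem_PD hn.2.ne).1 (mem_sdiff.1 hπ).1).1
    rw [wt2_prod hSP, wt2_prod hSP', jac_prod' pA.ne, jac_prod' pB.ne, psi_prod hSP',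
      prod_mul_distrib, prod_mul_distrib, prod_mul_distrib]
    ring
  rw [sum_congr rfl (fun n hn => by rw [e2 n hn])]
  refine (abs_sum_le_sum_abs _ _).trans ?_
  have e3 : ∀ n ∈ SB X, |Ind X (n * r) *
      ∏ π ∈ PD n, ((1 / 2) * (jac B π : ℝ) + (1 / 2) * (psi π * jac A π))| ≤
      Ind X (n * r) * mf (fun π => (1 + xj (A * B) π) / 2) n := by
    intro n hn
    rw [mem_SB] at hn
    rw [abs_mul, abs_of_nonneg (Ind_nonneg _ _)]
    by_cases h0 : Ind X (n * r) = 0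
    · rw [h0, zero_mul, zero_mul]
    · apply mul_le_mul_of_nonneg_left _ (Ind_nonneg _ _)
      rw [abs_prod]
      unfold mf
      refine prod_le_prod (fun _ _ => abs_nonneg _) ?_
      intro π hπ
      obtain ⟨h2, -⟩ := Ind_ne h0
      have hcop := ((PS.mul_iff hn.2.prm hr).1 h2).2.2
      have hπ' := (mem_PD hn.2.ne).1 hπ
      have hπr : IsCoprime π (A * B) := (hcop.of_isCoprime_of_dvd_left hπ'.2).of_isCoprime_of_dvd_right hd
      have c1 : IsCoprime A π := (hπr.of_mul_right_left).symm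
      have c2 : IsCoprime B π := (hπr.of_mul_right_right).symm
      have n1 := jac_ne_zero pA c1
      have n2 := jac_ne_zero pB c2
      unfold xj
      rw [jac_mul_left pA.ne pB.ne cAB]
      rcases jac_cases A π with h | h | h
      · exact absurd h n1
      · rcases jac_cases B π with h' | h' | h'
        · exact absurd h' n2
        · rcases psi_cases π with h3 | h3 <;> rw [h, h', h3] <;> norm_num
        · rcases psi_cases π with h3 | h3 <;> rw [h, h', h3] <;> norm_num [abs_of_neg]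
      · rcases jac_cases B π with h' | h' | h'
        · exact absurd h' n2
        · rcases psi_cases π with h3 | h3 <;> rw [h, h', h3] <;> norm_num
        · rcases psi_cases π with h3 | h3 <;> rw [h, h', h3] <;> norm_num [abs_of_neg]
  refine (sum_le_sum e3).trans ?_
  have hnn : ∀ n, 0 ≤ mf (fun π => (1 + xj (A * B) π) / 2) n := by
    apply mf_nonneg
    intro π
    rcases xj_cases (A * B) π with h | h | h <;> rw [h] <;> norm_num
  exact (sum_Ind_le hr hnn).trans (hallX hAB _)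

/-- **one free variable** -/
theorem hsw0I {r : ZI} (hr : prim r) (X : ℕ) :
    ∑ e ∈ SB X, Ind X (e * r) * wt2 e ≤ 126 * ((X / nrm r : ℕ) / Real.sqrt (lg (X / nrm r))) :=
  (sum_Ind_le hr wt2_nonneg).trans (hall0 _)

/-- the free sum -/
theorem freeI (X : ℕ) : ∑ c ∈ SB X, ∑ e ∈ SB X, Ind X (c * e) * (wt2 c * wt2 e) = (SB X).card := by
  classical
  rw [pr_sum (Φ := fun n => Ind X n) (fun n h => Ind_ne h) (fun c e => wt2 c * wt2 e)]
  have : ∀ n ∈ SB X, Ind X n * ∑ S ∈ (PD n).powerset, wt2 (∏ π ∈ S, π) * wt2 (∏ π ∈ PD n \ S, π) = 1 := by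
    intro n hn
    rw [mem_SB] at hn
    have h2 : ∑ S ∈ (PD n).powerset, wt2 (∏ π ∈ S, π) * wt2 (∏ π ∈ PD n \ S, π) = 1 := by
      have h1 : ∏ π ∈ PD n, ((1 / 2 : ℝ) + 1 / 2) = 1 := by norm_num
      rw [← h1, prod_add]
      refine sum_congr rfl fun S hS => ?_
      have hSP : ∀ π ∈ S, PP π := fun π hπ => ((mem_PD hn.2.ne).1 (mem_powerset.1 hS hπ)).1
      have hSP' : ∀ π ∈ PD n \ S, PP π := fun π hπ => ((mem_PD hn.2.ne).1 (mem_sdiff.1 hπ).1).1
      rw [wt2_prod hSP, wt2_prod hSP']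
    rw [h2, mul_one]
    unfold Ind
    rw [if_pos ⟨hn.2, hn.1⟩]
  rw [sum_congr rfl this, sum_const, nsmul_eq_mul, mul_one]

end Pool.Agent.D0H10.Q5.Av
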