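import Pool.Agent.D0H10.Q5.AvC

/-!
Project Q5, average: the small variables.
-/

set_option autoImplicit false

open Finset

namespace Pool.Agent.D0H10.Q5.Av

open H385 (ZI RQ im1 nrm BX)
open H385.H10 (mem_BX nrm_pos Dv mem_Dv card_Dv)
open Pool.Agent.Y699
open Pool.Agent.W164.RC (two2 prim_iff_dvd unit_norm unit_cases)
open Pool.Agent.H304R2.EC.A1 (prim prim_mul prim_cancel prim_one prim_norm_odd prim_star eq_one_of_prim
  norm_def' re_mul' im_mul' eq_of_dvd prim_ne_zero exists_prim)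

/-- the condition on the size of the parameters -/
def HB (X Z : ℕ) (lam : ℝ) : Prop :=
  ∀ r : ZI, prim r → nrm r ≤ Z ^ 3 → lg X ≤ lam * lg (X / nrm r)

lemma TBI {X Z : ℕ} {lam : ℝ} (hlam : 0 ≤ lam) (h : HB X Z lam) {r : ZI} (hr : prim r)
    (hn : nrm r ≤ Z ^ 3) :
    ((X / nrm r : ℕ) : ℝ) / Real.sqrt (lg (X / nrm r)) ≤
      (X / Real.sqrt (lg X) * Real.sqrt lam) * (1 / nrm r) := by
  have h1 := h r hr hn
  set T := X / nrm r with hT
  have hlT := lg_pos T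
  have hlX := lg_pos X
  have s1 : 0 < Real.sqrt (lg T) := Real.sqrt_pos.2 hlT
  have s2 : 0 < Real.sqrt (lg X) := Real.sqrt_pos.2 hlX
  have h2 : Real.sqrt (lg X) ≤ Real.sqrt lam * Real.sqrt (lg T) := by
    rw [← Real.sqrt_mul hlam]
    exact Real.sqrt_le_sqrt h1
  have h3 : (T : ℝ) ≤ (X : ℝ) / nrm r := Nat.cast_div_le
  have hX0 : (0 : ℝ) ≤ X := Nat.cast_nonneg X
  have hn0 : (0 : ℝ) ≤ (X : ℝ) / nrm r := by positivity
  calc (T : ℝ) / Real.sqrt (lg T) ≤ ((X : ℝ) / nrm r) / Real.sqrt (lg T) :=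
        div_le_div_of_nonneg_right h3 s1.le
    _ ≤ ((X : ℝ) / nrm r) * (Real.sqrt lam / Real.sqrt (lg X)) := by
        rw [div_eq_mul_one_div]
        apply mul_le_mul_of_nonneg_left _ hn0
        rw [div_le_div_iff₀ s1 s2]
        linarith
    _ = (X / Real.sqrt (lg X) * Real.sqrt lam) * (1 / nrm r) := by ring

/-- two small variables -/
lemma two_s {X Z : ℕ} {lam : ℝ} (hlam : 0 ≤ lam) (h : HB X Z lam) (hZ : 1 ≤ Z) {a b : ZI}
    (ha : PS a) (hb : PS b) {Q K0 k : ℝ} (hK0 : 0 ≤ K0) (hk : |k| ≤ 1)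
    (hQ : PS (a * b) → k ≠ 0 → |Q| ≤ K0 * Real.sqrt (lg (nrm (a * b))) *
      ((X / nrm (a * b) : ℕ) / Real.sqrt (lg (X / nrm (a * b)))))
    (hQ0 : ¬ PS (a * b) → Q = 0) :
    |(lo Z a * lo Z b) * k * Q| ≤
      (K0 * Real.sqrt (2 * lg Z) * (X / Real.sqrt (lg X) * Real.sqrt lam)) *
        (lo Z a * (1 / nrm a) * (lo Z b * (1 / nrm b))) := by
  classical
  have hlX := lg_pos X
  have hr : prim (a * b) := prim_mul ha.prm hb.prm
  have hnn : 0 ≤ (K0 * Real.sqrt (2 * lg Z) * (X / Real.sqrt (lg X) * Real.sqrt lam)) *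
        (lo Z a * (1 / (nrm a : ℝ)) * (lo Z b * (1 / nrm b))) := by
    apply mul_nonneg (by positivity)
    exact mul_nonneg (mul_nonneg (lo_nonneg Z a) (by positivity))
      (mul_nonneg (lo_nonneg Z b) (by positivity))
  by_cases c3 : nrm a ≤ Z
  swap
  · have : lo Z a = 0 := by unfold lo; rw [if_neg c3]
    rw [this]; simp
  by_cases c4 : nrm b ≤ Z
  swap
  · have : lo Z b = 0 := by unfold lo; rw [if_neg c4]
    rw [this]; simp
  have e3 : lo Z a = 1 := by unfold lo; rw [if_pos c3]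
  have e4 : lo Z b = 1 := by unfold lo; rw [if_pos c4]
  by_cases c5 : k = 0
  · rw [c5]
    simp only [mul_zero, zero_mul, abs_zero]
    exact hnn
  by_cases c6 : PS (a * b)
  swap
  · rw [hQ0 c6]
    simp only [mul_zero, abs_zero]
    exact hnn
  have h1 := hQ c6 c5
  have hnab : nrm (a * b) ≤ Z ^ 2 := by
    rw [nrm_mul, sq]
    exact Nat.mul_le_mul c3 c4
  have hlg : lg (nrm (a * b)) ≤ 2 * lg Z := (lg_mono hnab).trans (lg_sq Z)
  have hsq : Real.sqrt (lg (nrm (a * b))) ≤ Real.sqrt (2 * lg Z) := Real.sqrt_le_sqrt hlg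
  have hnr : nrm (a * b) ≤ Z ^ 3 := hnab.trans (Nat.pow_le_pow_right hZ (by norm_num))
  have hTB := TBI hlam h hr hnr
  have h0 : (0 : ℝ) ≤ ((X / nrm (a * b) : ℕ) : ℝ) / Real.sqrt (lg (X / nrm (a * b))) := by
    positivity
  rw [e3, e4, abs_mul, abs_mul]
  rw [show |(1 : ℝ) * 1| = 1 by norm_num]
  simp only [one_mul]
  refine (mul_le_of_le_one_left (abs_nonneg _) hk).trans (h1.trans ?_)
  calc K0 * Real.sqrt (lg (nrm (a * b))) * (((X / nrm (a * b) : ℕ) : ℝ) /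
        Real.sqrt (lg (X / nrm (a * b))))
      ≤ K0 * Real.sqrt (2 * lg Z) * ((X / Real.sqrt (lg X) * Real.sqrt lam) * (1 / nrm (a * b))) := by
        apply mul_le_mul _ hTB h0 (by positivity)
        exact mul_le_mul_of_nonneg_left hsq hK0
    _ = _ := by
        rw [nrm_mul]
        push_cast
        rw [one_div, mul_inv]
        ring

/-- the sum vanishes unless the product is squarefree -/
lemma zero_of_not {X : ℕ} {a b : ZI} (ha : PS a) (hb : PS b) (h : ¬ PS (a * b)) (G : ZI → ZI → ℝ) :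
    ∑ c ∈ SB X, ∑ e ∈ SB X, Ind X (c * e * (a * b)) * G c e = 0 := by
  refine sum_eq_zero fun c hc => sum_eq_zero fun e he => ?_
  rw [mem_SB] at hc he
  have : Ind X (c * e * (a * b)) = 0 := by
    by_contra h0
    obtain ⟨h1, -⟩ := Ind_ne h0
    exact h ((PS.mul_iff (prim_mul hc.2.prm he.2.prm) (prim_mul ha.prm hb.prm)).1 h1).2.1
  rw [this, zero_mul]

/-- the error term -/
noncomputable def EB (X Z : ℕ) (lam : ℝ) : ℝ :=
  (2247 * 2 * (18 : ℝ) ^ 3) * Real.sqrt lam * (X * lg Z ^ 3 / Real.sqrt (lg X))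

lemma EB_bound {X Z : ℕ} {lam K0 : ℝ} (hK0 : 0 ≤ K0) (hK : K0 ≤ 2247) :
    (K0 * Real.sqrt (2 * lg Z) * (X / Real.sqrt (lg X) * Real.sqrt lam)) *
      ((∑ x ∈ SB X, lo Z x * (1 / nrm x)) * ∑ x ∈ SB X, lo Z x * (1 / nrm x)) ≤ EB X Z lam := by
  have h0 := sum_lo Z X
  have h00 := sum_lo_nonneg Z X
  have hs : (∑ x ∈ SB X, lo Z x * (1 / (nrm x : ℝ))) * ∑ x ∈ SB X, lo Z x * (1 / (nrm x : ℝ)) ≤
      (18 * lg Z) * (18 * lg Z) := mul_le_mul h0 h0 h00 (h00.trans h0)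
  have h1 := sqrt_two_lg Z
  have h2 := lg_pos Z
  have h4 : 0 ≤ Real.sqrt lam := Real.sqrt_nonneg _
  have h5 : 0 ≤ (X : ℝ) / Real.sqrt (lg X) := by positivity
  unfold EB
  calc (K0 * Real.sqrt (2 * lg Z) * (X / Real.sqrt (lg X) * Real.sqrt lam)) *
      ((∑ x ∈ SB X, lo Z x * (1 / (nrm x : ℝ))) * ∑ x ∈ SB X, lo Z x * (1 / (nrm x : ℝ)))
      ≤ (K0 * (2 * lg Z) * (X / Real.sqrt (lg X) * Real.sqrt lam)) *
      ((18 * lg Z) * (18 * lg Z)) := by gcongr
    _ = (K0 * 2 * (18 : ℝ) ^ 2) * (Real.sqrt lam * (X * lg Z ^ 3 / Real.sqrt (lg X))) := by ring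
    _ ≤ (2247 * 2 * (18 : ℝ) ^ 3) * (Real.sqrt lam * (X * lg Z ^ 3 / Real.sqrt (lg X))) := by
        apply mul_le_mul_of_nonneg_right _ (by positivity)
        nlinarith
    _ = _ := by ring

/-- `a`, `b` small -/
theorem regAB {X Z : ℕ} {lam : ℝ} (hlam : 0 ≤ lam) (h : HB X Z lam) (hZ : 1 ≤ Z) :
    |S4 (SB X) (fun a b c e => (lo Z a * lo Z b * n1 (a * b)) * F4 X a b c e)| ≤ EB X Z lam := by
  refine (S4_bound (s := SB X)
    (K := 1680 * Real.sqrt (2 * lg Z) * (X / Real.sqrt (lg X) * Real.sqrt lam))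
    (g1 := fun x => lo Z x * (1 / nrm x)) (g2 := fun x => lo Z x * (1 / nrm x)) ?_).trans
    (EB_bound (by norm_num) (by norm_num))
  intro a ha b hb
  rw [mem_SB] at ha hb
  have hk : |n1 (a * b) * (psi a * (wt2 a * wt2 b))| ≤ 1 :=
    abs_mul_le (n1_abs _) (abs_mul_le (psi_abs _) (abs_mul_le (wt2_abs _) (wt2_abs _)))
  have h1 := two_s hlam h hZ ha.2 hb.2 (K0 := 1680) (by norm_num) hk
    (Q := ∑ c ∈ SB X, ∑ e ∈ SB X, Ind X (c * e * (a * b)) * (wt2 c * wt2 e * jac a e * jac b c))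
    (fun hp hk0 => by
      have h1 : a * b ≠ 1 := by
        intro h2
        apply hk0
        rw [h2]
        unfold n1
        rw [if_pos rfl, zero_mul]
      exact hswI hp ha.2.prm hb.2.prm h1 hp.prm dvd_rfl X)
    (fun hp => zero_of_not ha.2 hb.2 hp _)
  refine le_trans (le_of_eq ?_) h1
  congr 1
  rw [mul_sum]
  refine sum_congr rfl fun c _ => ?_
  rw [mul_sum]
  refine sum_congr rfl fun e _ => ?_
  unfold F4 GG
  rw [show a * b * c * e = c * e * (a * b) by ring]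
  ring

/-- `a`, `c` small -/
theorem regAC {X Z : ℕ} {lam : ℝ} (hlam : 0 ≤ lam) (h : HB X Z lam) (hZ : 1 ≤ Z) :
    |S4 (SB X) (fun a b c e => (lo Z a * lo Z c * n1 (a * c)) * F4 X a b c e)| ≤ EB X Z lam := by
  rw [S4_23]
  refine (S4_bound (s := SB X)
    (K := 1680 * Real.sqrt (2 * lg Z) * (X / Real.sqrt (lg X) * Real.sqrt lam))
    (g1 := fun x => lo Z x * (1 / nrm x)) (g2 := fun x => lo Z x * (1 / nrm x)) ?_).trans
    (EB_bound (by norm_num) (by norm_num))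
  intro a ha c hc
  rw [mem_SB] at ha hc
  have hk : |n1 (a * c) * (psi a * (wt2 a * wt2 c))| ≤ 1 :=
    abs_mul_le (n1_abs _) (abs_mul_le (psi_abs _) (abs_mul_le (wt2_abs _) (wt2_abs _)))
  have h1 := two_s hlam h hZ ha.2 hc.2 (K0 := 1680) (by norm_num) hk
    (Q := ∑ b ∈ SB X, ∑ e ∈ SB X, Ind X (b * e * (a * c)) * (wt2 b * wt2 e * jac a e * jac c b))
    (fun hp hk0 => by
      have h1 : a * c ≠ 1 := by
        intro h2
        apply hk0
        rw [h2]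
        unfold n1
        rw [if_pos rfl, zero_mul]
      exact hswI hp ha.2.prm hc.2.prm h1 hp.prm dvd_rfl X)
    (fun hp => zero_of_not ha.2 hc.2 hp _)
  refine le_trans (le_of_eq ?_) h1
  congr 1
  rw [mul_sum]
  refine sum_congr rfl fun b hb => ?_
  rw [mul_sum]
  refine sum_congr rfl fun e _ => ?_
  unfold F4 GG
  rw [show a * b * c * e = b * e * (a * c) by ring, jac_rec (mem_SB.1 hb).2 hc.2]
  ring

/-- `e`, `b` small -/
theorem regEB {X Z : ℕ} {lam : ℝ} (hlam : 0 ≤ lam) (h : HB X Z lam) (hZ : 1 ≤ Z) :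
    |S4 (SB X) (fun a b c e => (lo Z e * lo Z b) * F4 X a b c e)| ≤ EB X Z lam := by
  rw [S4_12, S4_34, S4_23, S4_12, S4_34]
  refine (S4_bound (s := SB X)
    (F := fun e b c a => (lo Z e * lo Z b) * F4 X a b c e)
    (K := 2247 * Real.sqrt (2 * lg Z) * (X / Real.sqrt (lg X) * Real.sqrt lam))
    (g1 := fun x => lo Z x * (1 / nrm x)) (g2 := fun x => lo Z x * (1 / nrm x)) ?_).trans
    (EB_bound (by norm_num) (by norm_num))
  intro e he b hb
  rw [mem_SB] at he hb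
  have hk : |wt2 e * wt2 b| ≤ 1 := abs_mul_le (wt2_abs _) (wt2_abs _)
  have h1 := two_s hlam h hZ he.2 hb.2 (K0 := 2247) (by norm_num) hk
    (Q := ∑ c ∈ SB X, ∑ a ∈ SB X, Ind X (c * a * (e * b)) *
      (wt2 c * wt2 a * (psi a * jac e a) * jac b c))
    (fun hp hk0 => hswX hp he.2.prm hb.2.prm hp.prm dvd_rfl X)
    (fun hp => zero_of_not he.2 hb.2 hp _)
  refine le_trans (le_of_eq ?_) h1
  congr 1
  rw [mul_sum]
  refine sum_congr rfl fun c _ => ?_
  rw [mul_sum]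
  refine sum_congr rfl fun a ha => ?_
  unfold F4 GG
  rw [show a * b * c * e = c * a * (e * b) by ring, jac_rec (mem_SB.1 ha).2 he.2]
  ring

/-- `e`, `c` small -/
theorem regEC {X Z : ℕ} {lam : ℝ} (hlam : 0 ≤ lam) (h : HB X Z lam) (hZ : 1 ≤ Z) :
    |S4 (SB X) (fun a b c e => (lo Z e * lo Z c) * F4 X a b c e)| ≤ EB X Z lam := by
  rw [S4_23, S4_12, S4_34, S4_23, S4_12, S4_34]
  refine (S4_bound (s := SB X)
    (F := fun e c b a => (lo Z e * lo Z c) * F4 X a b c e)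
    (K := 2247 * Real.sqrt (2 * lg Z) * (X / Real.sqrt (lg X) * Real.sqrt lam))
    (g1 := fun x => lo Z x * (1 / nrm x)) (g2 := fun x => lo Z x * (1 / nrm x)) ?_).trans
    (EB_bound (by norm_num) (by norm_num))
  intro e he c hc
  rw [mem_SB] at he hc
  have hk : |wt2 e * wt2 c| ≤ 1 := abs_mul_le (wt2_abs _) (wt2_abs _)
  have h1 := two_s hlam h hZ he.2 hc.2 (K0 := 2247) (by norm_num) hk
    (Q := ∑ b ∈ SB X, ∑ a ∈ SB X, Ind X (b * a * (e * c)) *
      (wt2 b * wt2 a * (psi a * jac e a) * jac c b))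
    (fun hp hk0 => hswX hp he.2.prm hc.2.prm hp.prm dvd_rfl X)
    (fun hp => zero_of_not he.2 hc.2 hp _)
  refine le_trans (le_of_eq ?_) h1
  congr 1
  rw [mul_sum]
  refine sum_congr rfl fun b hb => ?_
  rw [mul_sum]
  refine sum_congr rfl fun a ha => ?_
  unfold F4 GG
  rw [show a * b * c * e = b * a * (e * c) by ring, jac_rec (mem_SB.1 ha).2 he.2,
    jac_rec (mem_SB.1 hb).2 hc.2]
  ring

/-- three small variables -/
theorem reg3' {X Z : ℕ} {lam : ℝ} (hlam : 0 ≤ lam) (h : HB X Z lam)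
    {F : ZI → ZI → ZI → ZI → ℝ}
    (hF : ∀ x ∈ SB X, ∀ y ∈ SB X, ∀ z ∈ SB X, ∀ t ∈ SB X,
      |F x y z t| ≤ lo Z x * lo Z y * lo Z z * (Ind X (t * (x * y * z)) * wt2 t)) :
    |S4 (SB X) F| ≤ EB X Z lam := by
  classical
  have hlX := lg_pos X
  have hlZ := lg_pos Z
  have hb := S4_bound3 (s := SB X) (F := F)
    (K := 126 * (X / Real.sqrt (lg X) * Real.sqrt lam))
    (g1 := fun x => lo Z x * (1 / nrm x)) (g2 := fun x => lo Z x * (1 / nrm x))
    (g3 := fun x => lo Z x * (1 / nrm x)) ?_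
  · refine hb.trans ?_
    have h0 := sum_lo Z X
    have h00 := sum_lo_nonneg Z X
    have hl0 := h00.trans h0
    have h7 : (∑ x ∈ SB X, lo Z x * (1 / (nrm x : ℝ))) * ((∑ x ∈ SB X, lo Z x * (1 / (nrm x : ℝ))) *
        ∑ x ∈ SB X, lo Z x * (1 / (nrm x : ℝ))) ≤ (18 * lg Z) * ((18 * lg Z) * (18 * lg Z)) := by
      apply mul_le_mul h0 _ (by positivity) hl0
      exact mul_le_mul h0 h0 h00 hl0
    refine (mul_le_mul_of_nonneg_left h7 (by positivity)).trans ?_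
    unfold EB
    calc 126 * (X / Real.sqrt (lg X) * Real.sqrt lam) * ((18 * lg Z) * ((18 * lg Z) * (18 * lg Z)))
        = (126 * 18 ^ 3) * (Real.sqrt lam * (X * lg Z ^ 3 / Real.sqrt (lg X))) := by ring
      _ ≤ (2247 * 2 * (18 : ℝ) ^ 3) * (Real.sqrt lam * (X * lg Z ^ 3 / Real.sqrt (lg X))) := by
          apply mul_le_mul_of_nonneg_right _ (by positivity)
          norm_num
      _ = _ := by ring
  · intro a ha b hb c hc
    have hstep : |∑ e ∈ SB X, F a b c e| ≤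
        (lo Z a * lo Z b * lo Z c) * ∑ e ∈ SB X, Ind X (e * (a * b * c)) * wt2 e := by
      rw [mul_sum]
      exact (abs_sum_le_sum_abs _ _).trans (sum_le_sum fun e he => hF a ha b hb c hc e he)
    rw [mem_SB] at ha hb hc
    have hr : prim (a * b * c) := prim_mul (prim_mul ha.2.prm hb.2.prm) hc.2.prm
    refine hstep.trans ?_
    by_cases c3 : nrm a ≤ Z
    swap
    · have : lo Z a = 0 := by unfold lo; rw [if_neg c3]
      rw [this]; simp
    by_cases c4 : nrm b ≤ Z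
    swap
    · have : lo Z b = 0 := by unfold lo; rw [if_neg c4]
      rw [this]; simp
    by_cases c5 : nrm c ≤ Z
    swap
    · have : lo Z c = 0 := by unfold lo; rw [if_neg c5]
      rw [this]; simp
    have e3 : lo Z a = 1 := by unfold lo; rw [if_pos c3]
    have e4 : lo Z b = 1 := by unfold lo; rw [if_pos c4]
    have e5 : lo Z c = 1 := by unfold lo; rw [if_pos c5]
    have h1 := hsw0I hr X
    have hnr : nrm (a * b * c) ≤ Z ^ 3 := by
      rw [nrm_mul, nrm_mul a b]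
      have : Z ^ 3 = Z * Z * Z := by ring
      rw [this]
      exact Nat.mul_le_mul (Nat.mul_le_mul c3 c4) c5
    have hTB := TBI hlam h hr hnr
    rw [e3, e4, e5]
    simp only [one_mul, mul_one]
    refine h1.trans ?_
    refine (mul_le_mul_of_nonneg_left hTB (by norm_num)).trans (le_of_eq ?_)
    rw [nrm_mul, nrm_mul]
    push_cast
    rw [one_div, mul_inv, mul_inv]
    ring

lemma F4_abs (X : ℕ) (a b c e : ZI) {t : ZI}
    (ht : t = a ∨ t = b ∨ t = c ∨ t = e) : |F4 X a b c e| ≤ Ind X (a * b * c * e) * wt2 t := by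
  unfold F4
  rw [abs_mul, abs_of_nonneg (Ind_nonneg _ _)]
  apply mul_le_mul_of_nonneg_left _ (Ind_nonneg _ _)
  unfold GG
  have hj : |(jac a e : ℝ) * jac b c| ≤ 1 := abs_mul_le (jac_abs _ _) (jac_abs _ _)
  have hp := psi_abs a
  have ha := wt2_abs a
  have hb := wt2_abs b
  have hc := wt2_abs c
  have he := wt2_abs e
  have na := wt2_nonneg a
  have nb := wt2_nonneg b
  have nc := wt2_nonneg c
  have ne := wt2_nonneg e
  rcases ht with rfl | rfl | rfl | rfl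
  · have e1 : psi t * (wt2 t * wt2 b * wt2 c * wt2 e * ((jac t e : ℝ) * jac b c)) =
        (psi t * (wt2 b * wt2 c * wt2 e * ((jac t e : ℝ) * jac b c))) * wt2 t := by ring
    rw [e1, abs_mul, abs_of_nonneg na]
    exact mul_le_of_le_one_left na (abs_mul_le hp (abs_mul_le (abs_mul_le (abs_mul_le hb hc) he) hj))
  · have e1 : psi a * (wt2 a * wt2 t * wt2 c * wt2 e * ((jac a e : ℝ) * jac t c)) =
        (psi a * (wt2 a * wt2 c * wt2 e * ((jac a e : ℝ) * jac t c))) * wt2 t := by ring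
    rw [e1, abs_mul, abs_of_nonneg nb]
    exact mul_le_of_le_one_left nb (abs_mul_le hp (abs_mul_le (abs_mul_le (abs_mul_le ha hc) he) hj))
  · have e1 : psi a * (wt2 a * wt2 b * wt2 t * wt2 e * ((jac a e : ℝ) * jac b t)) =
        (psi a * (wt2 a * wt2 b * wt2 e * ((jac a e : ℝ) * jac b t))) * wt2 t := by ring
    rw [e1, abs_mul, abs_of_nonneg nc]
    exact mul_le_of_le_one_left nc (abs_mul_le hp (abs_mul_le (abs_mul_le (abs_mul_le ha hb) he) hj))
  · have e1 : psi a * (wt2 a * wt2 b * wt2 c * wt2 t * ((jac a t : ℝ) * jac b c)) =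
        (psi a * (wt2 a * wt2 b * wt2 c * ((jac a t : ℝ) * jac b c))) * wt2 t := by ring
    rw [e1, abs_mul, abs_of_nonneg ne]
    exact mul_le_of_le_one_left ne (abs_mul_le hp (abs_mul_le (abs_mul_le (abs_mul_le ha hb) hc) hj))

lemma kF {k F l I : ℝ} (hk : |k| ≤ 1) (hl : 0 ≤ l) (hF : |F| ≤ I) : |l * k * F| ≤ l * I := by
  rw [abs_mul, abs_mul, abs_of_nonneg hl, mul_assoc]
  apply mul_le_mul_of_nonneg_left _ hl
  exact (mul_le_of_le_one_left (abs_nonneg _) hk).trans hF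

/-- `a`, `b`, `c` small -/
theorem regABC {X Z : ℕ} {lam : ℝ} (hlam : 0 ≤ lam) (h : HB X Z lam) {κ : ZI → ZI → ZI → ZI → ℝ}
    (hκ : ∀ a b c e, |κ a b c e| ≤ 1) :
    |S4 (SB X) (fun a b c e => (lo Z a * lo Z b * lo Z c * κ a b c e) * F4 X a b c e)| ≤
      EB X Z lam := by
  refine reg3' hlam h fun a _ b _ c _ e _ => ?_
  refine kF (hκ _ _ _ _) (mul_nonneg (mul_nonneg (lo_nonneg _ _) (lo_nonneg _ _)) (lo_nonneg _ _)) ?_
  rw [mul_comm e]
  exact F4_abs X a b c e (Or.inr (Or.inr (Or.inr rfl)))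

/-- `e`, `b`, `c` small -/
theorem regEBC {X Z : ℕ} {lam : ℝ} (hlam : 0 ≤ lam) (h : HB X Z lam) {κ : ZI → ZI → ZI → ZI → ℝ}
    (hκ : ∀ a b c e, |κ a b c e| ≤ 1) :
    |S4 (SB X) (fun a b c e => (lo Z e * lo Z b * lo Z c * κ a b c e) * F4 X a b c e)| ≤
      EB X Z lam := by
  rw [S4_12, S4_23, S4_34]
  refine reg3' hlam h fun b _ c _ e _ a _ => ?_
  have e1 : lo Z e * lo Z b * lo Z c * κ a b c e = lo Z b * lo Z c * lo Z e * κ a b c e := by ring
  rw [e1]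
  refine kF (hκ _ _ _ _) (mul_nonneg (mul_nonneg (lo_nonneg _ _) (lo_nonneg _ _)) (lo_nonneg _ _)) ?_
  rw [show a * (b * c * e) = a * b * c * e by ring]
  exact F4_abs X a b c e (Or.inl rfl)

/-- `a`, `e`, `b` small -/
theorem regAEB {X Z : ℕ} {lam : ℝ} (hlam : 0 ≤ lam) (h : HB X Z lam) {κ : ZI → ZI → ZI → ZI → ℝ}
    (hκ : ∀ a b c e, |κ a b c e| ≤ 1) :
    |S4 (SB X) (fun a b c e => (lo Z a * lo Z e * lo Z b * κ a b c e) * F4 X a b c e)| ≤
      EB X Z lam := by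
  rw [S4_34]
  refine reg3' hlam h fun a _ b _ e _ c _ => ?_
  have e1 : lo Z a * lo Z e * lo Z b * κ a b c e = lo Z a * lo Z b * lo Z e * κ a b c e := by ring
  rw [e1]
  refine kF (hκ _ _ _ _) (mul_nonneg (mul_nonneg (lo_nonneg _ _) (lo_nonneg _ _)) (lo_nonneg _ _)) ?_
  rw [show c * (a * b * e) = a * b * c * e by ring]
  exact F4_abs X a b c e (Or.inr (Or.inr (Or.inl rfl)))

/-- `a`, `e`, `c` small -/
theorem regAEC {X Z : ℕ} {lam : ℝ} (hlam : 0 ≤ lam) (h : HB X Z lam) {κ : ZI → ZI → ZI → ZI → ℝ}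
    (hκ : ∀ a b c e, |κ a b c e| ≤ 1) :
    |S4 (SB X) (fun a b c e => (lo Z a * lo Z e * lo Z c * κ a b c e) * F4 X a b c e)| ≤
      EB X Z lam := by
  rw [S4_23, S4_34]
  refine reg3' hlam h fun a _ c _ e _ b _ => ?_
  have e1 : lo Z a * lo Z e * lo Z c * κ a b c e = lo Z a * lo Z c * lo Z e * κ a b c e := by ring
  rw [e1]
  refine kF (hκ _ _ _ _) (mul_nonneg (mul_nonneg (lo_nonneg _ _) (lo_nonneg _ _)) (lo_nonneg _ _)) ?_
  rw [show b * (a * c * e) = a * b * c * e by ring]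
  exact F4_abs X a b c e (Or.inr (Or.inl rfl))

end Pool.Agent.D0H10.Q5.Av
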