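import Pool.Agent.D0H10.Q5.AvD

/-!
Project Q5, average: assembly.
-/

set_option autoImplicit false

open Finset

namespace Pool.Agent.D0H10.Q5.Av

open H385 (ZI RQ im1 nrm BX)
open H385.H10 (mem_BX nrm_pos Dv mem_Dv card_Dv)
open Pool.Agent.Y699
open Pool.Agent.W164.RC (two2 prim_iff_dvd unit_norm unit_cases)
open Pool.Agent.H304R2.EC.A1 (prim prim_mul prim_cancel prim_one prim_norm_odd prim_star eq_one_of_prim
  norm_def' re_mul' im_mul' eq_of_dvd prim_ne_zero exists_prim)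

lemma lo_one {Z : ℕ} (hZ : 1 ≤ Z) : lo Z 1 = 1 := by
  unfold lo
  rw [nrm_one, if_pos hZ]

/-- the main term with `a = b = 1` -/
lemma mainAB {X Z : ℕ} (hX : 1 ≤ X) (hZ : 1 ≤ Z) :
    S4 (SB X) (fun a b c e => (lo Z a * lo Z b * d1 (a * b)) * F4 X a b c e) = (SB X).card := by
  classical
  have h1 := one_mem_SB hX
  rw [← freeI X]
  unfold S4
  rw [sum_eq_single_of_mem 1 h1, sum_eq_single_of_mem 1 h1]
  · refine sum_congr rfl fun c _ => sum_congr rfl fun e _ => ?_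
    unfold F4 GG
    beta_reduce
    rw [one_mul, one_mul, d1_one, lo_one hZ, wt2_one, psi_one, jac_one_left, jac_one_left]
    push_cast
    ring
  · intro b hb hb1
    have hb2 := (mem_SB.1 hb).2
    refine sum_eq_zero fun c _ => sum_eq_zero fun e _ => ?_
    beta_reduce
    rw [one_mul, d1_ne hb1]
    ring
  · intro a ha ha1
    have ha2 := (mem_SB.1 ha).2
    refine sum_eq_zero fun b hb => sum_eq_zero fun c _ => sum_eq_zero fun e _ => ?_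
    have h2 : a * b ≠ 1 := fun h => ha1 ((mul_eq_one ha2.prm (mem_SB.1 hb).2.prm).1 h).1
    beta_reduce
    rw [d1_ne h2]
    ring

/-- the main term with `a = c = 1` -/
lemma mainAC {X Z : ℕ} (hX : 1 ≤ X) (hZ : 1 ≤ Z) :
    S4 (SB X) (fun a b c e => (lo Z a * lo Z c * d1 (a * c)) * F4 X a b c e) = (SB X).card := by
  classical
  have h1 := one_mem_SB hX
  rw [← freeI X, S4_23]
  unfold S4
  rw [sum_eq_single_of_mem 1 h1, sum_eq_single_of_mem 1 h1]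
  · refine sum_congr rfl fun b hb => sum_congr rfl fun e _ => ?_
    have hb2 := (mem_SB.1 hb).2
    unfold F4 GG
    beta_reduce
    rw [one_mul, mul_one, d1_one, lo_one hZ, wt2_one, psi_one, jac_one_left,
      jac_one_right hb2.ne]
    push_cast
    ring_nf
  · intro c hc hc1
    refine sum_eq_zero fun b _ => sum_eq_zero fun e _ => ?_
    beta_reduce
    rw [one_mul, d1_ne hc1]
    ring
  · intro a ha ha1
    have ha2 := (mem_SB.1 ha).2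
    refine sum_eq_zero fun c hc => sum_eq_zero fun b _ => sum_eq_zero fun e _ => ?_
    have h2 : a * c ≠ 1 := fun h => ha1 ((mul_eq_one ha2.prm (mem_SB.1 hc).2.prm).1 h).1
    beta_reduce
    rw [d1_ne h2]
    ring

lemma n1_d1 (x : ZI) : n1 x + d1 x = 1 := by
  unfold n1 d1
  split_ifs <;> norm_num

lemma S4_neg (s : Finset ZI) (F : ZI → ZI → ZI → ZI → ℝ) :
    S4 s (fun a b c e => - F a b c e) = - S4 s F := by
  unfold S4
  simp only [sum_neg_distrib]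

/-- **the average, with error terms** -/
theorem avg4 : ∃ C : ℝ, 1 ≤ C ∧ ∀ (X Z : ℕ) (lam : ℝ), 0 ≤ lam → HB X Z lam → 1 ≤ Z → 1 ≤ X →
    |∑ Δ ∈ SB X, ((Ker Δ).ncard : ℝ) - 2 * (SB X).card| ≤
      C * (X * lg X ^ 3) * (Z : ℝ) ^ (-(1 / 96) : ℝ) + 9 * EB X Z lam := by
  obtain ⟨C1, hC1, h1⟩ := regU
  obtain ⟨C2, hC2, h2⟩ := regW
  refine ⟨C1 + C2, by linarith, ?_⟩
  intro X Z lam hlam hB hZ hX
  have hU := h1 X Z hZ
  have hW := h2 X Z hZ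
  have h3 := regAB hlam hB hZ (X := X)
  have h4 := regAC hlam hB hZ (X := X)
  have h5 := regEB hlam hB hZ (X := X)
  have h6 := regEC hlam hB hZ (X := X)
  have hκ1 : ∀ a b c e : ZI, |(fun _ _ _ _ : ZI => (1 : ℝ)) a b c e| ≤ 1 := fun _ _ _ _ => by norm_num
  have h7 := regABC hlam hB hκ1 (X := X)
  have h8 := regEBC hlam hB hκ1 (X := X)
  have h9 := regAEB hlam hB hκ1 (X := X)
  have h10 := regAEC hlam hB hκ1 (X := X)
  have h11 := regAEB hlam hB (κ := fun _ _ c _ => lo Z c) (fun _ _ c _ => lo_abs Z c) (X := X)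
  have m1 := mainAB hX hZ
  have m2 := mainAC hX hZ
  rw [sum_ker]
  have e0 : ∑ a ∈ SB X, ∑ b ∈ SB X, ∑ c ∈ SB X, ∑ e ∈ SB X, Ind X (a * b * c * e) * GG a b c e =
      S4 (SB X) (F4 X) := rfl
  rw [e0]
  obtain ⟨f1, hf1⟩ : ∃ f : ZI → ZI → ZI → ZI → ℝ, f = fun a b c e => (hi Z a * hi Z e) * F4 X a b c e := ⟨_, rfl⟩
  obtain ⟨f2, hf2⟩ : ∃ f : ZI → ZI → ZI → ZI → ℝ, f = fun a b c e =>
    ((1 - hi Z a * hi Z e) * (hi Z b * hi Z c)) * F4 X a b c e := ⟨_, rfl⟩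
  obtain ⟨f3, hf3⟩ : ∃ f : ZI → ZI → ZI → ZI → ℝ, f = fun a b c e =>
    (lo Z a * lo Z b * n1 (a * b)) * F4 X a b c e := ⟨_, rfl⟩
  obtain ⟨f4, hf4⟩ : ∃ f : ZI → ZI → ZI → ZI → ℝ, f = fun a b c e =>
    (lo Z a * lo Z c * n1 (a * c)) * F4 X a b c e := ⟨_, rfl⟩
  obtain ⟨f5, hf5⟩ : ∃ f : ZI → ZI → ZI → ZI → ℝ, f = fun a b c e =>
    (lo Z e * lo Z b) * F4 X a b c e := ⟨_, rfl⟩
  obtain ⟨f6, hf6⟩ : ∃ f : ZI → ZI → ZI → ZI → ℝ, f = fun a b c e =>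
    (lo Z e * lo Z c) * F4 X a b c e := ⟨_, rfl⟩
  obtain ⟨f7, hf7⟩ : ∃ f : ZI → ZI → ZI → ZI → ℝ, f = fun a b c e =>
    (lo Z a * lo Z b * lo Z c * (fun _ _ _ _ : ZI => (1 : ℝ)) a b c e) * F4 X a b c e := ⟨_, rfl⟩
  obtain ⟨f8, hf8⟩ : ∃ f : ZI → ZI → ZI → ZI → ℝ, f = fun a b c e =>
    (lo Z e * lo Z b * lo Z c * (fun _ _ _ _ : ZI => (1 : ℝ)) a b c e) * F4 X a b c e := ⟨_, rfl⟩
  obtain ⟨f9, hf9⟩ : ∃ f : ZI → ZI → ZI → ZI → ℝ, f = fun a b c e =>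
    (lo Z a * lo Z e * lo Z b * (fun _ _ _ _ : ZI => (1 : ℝ)) a b c e) * F4 X a b c e := ⟨_, rfl⟩
  obtain ⟨f10, hf10⟩ : ∃ f : ZI → ZI → ZI → ZI → ℝ, f = fun a b c e =>
    (lo Z a * lo Z e * lo Z c * (fun _ _ _ _ : ZI => (1 : ℝ)) a b c e) * F4 X a b c e := ⟨_, rfl⟩
  obtain ⟨f11, hf11⟩ : ∃ f : ZI → ZI → ZI → ZI → ℝ, f = fun a b c e =>
    (lo Z a * lo Z e * lo Z b * (fun _ _ c _ => lo Z c) a b c e) * F4 X a b c e := ⟨_, rfl⟩
  obtain ⟨g1, hg1⟩ : ∃ f : ZI → ZI → ZI → ZI → ℝ, f = fun a b c e =>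
    (lo Z a * lo Z b * d1 (a * b)) * F4 X a b c e := ⟨_, rfl⟩
  obtain ⟨g2, hg2⟩ : ∃ f : ZI → ZI → ZI → ZI → ℝ, f = fun a b c e =>
    (lo Z a * lo Z c * d1 (a * c)) * F4 X a b c e := ⟨_, rfl⟩
  rw [← hf1] at hU
  rw [← hf2] at hW
  rw [← hf3] at h3
  rw [← hf4] at h4
  rw [← hf5] at h5
  rw [← hf6] at h6
  rw [← hf7] at h7
  rw [← hf8] at h8
  rw [← hf9] at h9
  rw [← hf10] at h10
  rw [← hf11] at h11
  rw [← hg1] at m1
  rw [← hg2] at m2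
  have key : S4 (SB X) (F4 X) = (S4 (SB X) g1 + S4 (SB X) g2) + (S4 (SB X) f1 + S4 (SB X) f2 +
      (S4 (SB X) f3 + S4 (SB X) f4) + (S4 (SB X) f5 + S4 (SB X) f6) + - S4 (SB X) f7 +
      - S4 (SB X) f8 + - S4 (SB X) f9 + - S4 (SB X) f10 + S4 (SB X) f11) := by
    rw [← S4_neg, ← S4_neg, ← S4_neg, ← S4_neg]
    simp only [← S4_add]
    refine S4_congr fun a _ b _ c _ e _ => ?_
    simp only [hf1, hf2, hf3, hf4, hf5, hf6, hf7, hf8, hf9, hf10, hf11, hg1, hg2]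
    have hab : d1 (a * b) = 1 - n1 (a * b) := by linarith [n1_d1 (a * b)]
    have hac : d1 (a * c) = 1 - n1 (a * c) := by linarith [n1_d1 (a * c)]
    rw [hab, hac, hi_lo, hi_lo, hi_lo, hi_lo]
    ring
  rw [key, m1, m2]
  have e2 : ((SB X).card : ℝ) + (SB X).card + (S4 (SB X) f1 + S4 (SB X) f2 +
      (S4 (SB X) f3 + S4 (SB X) f4) + (S4 (SB X) f5 + S4 (SB X) f6) + - S4 (SB X) f7 +
      - S4 (SB X) f8 + - S4 (SB X) f9 + - S4 (SB X) f10 + S4 (SB X) f11) - 2 * (SB X).card =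
      S4 (SB X) f1 + S4 (SB X) f2 +
      (S4 (SB X) f3 + S4 (SB X) f4) + (S4 (SB X) f5 + S4 (SB X) f6) + - S4 (SB X) f7 +
      - S4 (SB X) f8 + - S4 (SB X) f9 + - S4 (SB X) f10 + S4 (SB X) f11 := by ring
  rw [e2]
  rw [abs_le] at hU hW h3 h4 h5 h6 h7 h8 h9 h10 h11
  rw [abs_le]
  have e3 : (C1 + C2) * (X * lg X ^ 3) * (Z : ℝ) ^ (-(1 / 96) : ℝ) =
      C1 * (X * lg X ^ 3) * (Z : ℝ) ^ (-(1 / 96) : ℝ) +
      C2 * (X * lg X ^ 3) * (Z : ℝ) ^ (-(1 / 96) : ℝ) := by ring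
  rw [e3]
  constructor
  · linarith [hU.1, hW.1, h3.1, h4.1, h5.1, h6.1, h7.2, h8.2, h9.2, h10.2, h11.1]
  · linarith [hU.2, hW.2, h3.2, h4.2, h5.2, h6.2, h7.1, h8.1, h9.1, h10.1, h11.2]

end Pool.Agent.D0H10.Q5.Av
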