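import Pool.Agent.D0H10.Q5.AvE
import Pool.Agent.D0H45.QK.Fin

/-!
Project Q5, average: the average order of the kernel tends to `2`.
-/

set_option autoImplicit false
set_option exponentiation.threshold 3000

open Finset Filter

namespace Pool.Agent.D0H10.Q5.Av

open H385 (ZI RQ im1 nrm BX)
open H385.H10 (mem_BX nrm_pos Dv mem_Dv card_Dv)
open Pool.Agent.Y699
open Pool.Agent.W164.RC (two2 prim_iff_dvd unit_norm unit_cases)
open Pool.Agent.H304R2.EC.A1 (prim prim_mul prim_cancel prim_one prim_norm_odd prim_star eq_one_of_prim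
  norm_def' re_mul' im_mul' eq_of_dvd prim_ne_zero exists_prim)

/-- the logarithmic size -/
def LN (X : ℕ) : ℕ := Nat.log 2 X + 1

lemma lg_LN (X : ℕ) : lg X = (LN X : ℝ) := by
  unfold lg LN
  push_cast
  ring

lemma LN_tendsto : Tendsto LN atTop atTop := by
  rw [tendsto_atTop]
  intro b
  filter_upwards [eventually_ge_atTop (2 ^ b)] with X hX
  unfold LN
  have h1 : b ≤ Nat.log 2 X := Nat.le_log_of_pow_le (by norm_num) hX
  omega

lemma HB_of {X : ℕ} {Z : ℕ} (hX : 1 ≤ X) (hZ : (Z ^ 3) ^ 2 ≤ 2 ^ (LN X - 1)) : HB X Z 2 := by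
  intro r hr hn
  have hX2 : 2 ^ (LN X - 1) ≤ X := by
    unfold LN
    rw [Nat.add_sub_cancel]
    exact Nat.pow_log_le_self 2 (by omega)
  have hr0 := nrm_pos' (prim_ne_zero hr)
  set R := nrm r with hR
  set m := Nat.log 2 (X / R) with hm
  have h1 : X / R < 2 ^ (m + 1) := Nat.lt_pow_succ_log_self (by norm_num) _
  have h2 : X < R * 2 ^ (m + 1) := by
    rw [Nat.div_lt_iff_lt_mul hr0] at h1
    rw [mul_comm]
    exact h1
  have h3 : X < Z ^ 3 * 2 ^ (m + 1) := lt_of_lt_of_le h2 (Nat.mul_le_mul_right _ hn)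
  have h4 : X ^ 2 < 2 ^ (LN X - 1) * (2 ^ (m + 1)) ^ 2 := by
    calc X ^ 2 < (Z ^ 3 * 2 ^ (m + 1)) ^ 2 := Nat.pow_lt_pow_left h3 (by norm_num)
      _ = (Z ^ 3) ^ 2 * (2 ^ (m + 1)) ^ 2 := by ring
      _ ≤ _ := Nat.mul_le_mul_right _ hZ
  have h5 : 2 ^ (LN X - 1) * 2 ^ (LN X - 1) < 2 ^ (LN X - 1) * (2 ^ (m + 1)) ^ 2 := by
    refine lt_of_le_of_lt ?_ h4
    rw [sq]
    exact Nat.mul_le_mul hX2 hX2
  have h6 : 2 ^ (LN X - 1) < (2 ^ (m + 1)) ^ 2 := Nat.lt_of_mul_lt_mul_left h5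
  rw [← pow_mul] at h6
  have h7 : LN X - 1 < (m + 1) * 2 := (Nat.pow_lt_pow_iff_right (by norm_num)).1 h6
  have h8 : LN X ≤ 2 * (m + 1) := by
    have : 1 ≤ LN X := by unfold LN; omega
    omega
  rw [lg_LN]
  show ((LN X : ℕ) : ℝ) ≤ 2 * ((m : ℝ) + 1)
  exact_mod_cast h8

lemma log_pow_le (L k : ℕ) : Nat.log 2 (L ^ k) ≤ k * (Nat.log 2 L + 1) := by
  rcases Nat.eq_zero_or_pos L with rfl | hL
  · rcases Nat.eq_zero_or_pos k with rfl | hk
    · simp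
    · rw [zero_pow (by omega)]
      simp
  · have h1 : L < 2 ^ (Nat.log 2 L + 1) := Nat.lt_pow_succ_log_self (by norm_num) _
    have h2 : L ^ k ≤ 2 ^ (k * (Nat.log 2 L + 1)) := by
      rw [mul_comm, pow_mul]
      exact Nat.pow_le_pow_left h1.le k
    calc Nat.log 2 (L ^ k) ≤ Nat.log 2 (2 ^ (k * (Nat.log 2 L + 1))) := Nat.log_mono_right h2
      _ = _ := Nat.log_pow (by norm_num) _

lemma lg_Z {L : ℕ} (hL : 2 ≤ L) : lg (L ^ 384) ≤ 385 * 3 * Real.log L := by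
  have h1 := log_pow_le L 384
  have h2 : lg (L ^ 384) ≤ 385 * lg L := by
    unfold lg
    have h3 : (Nat.log 2 (L ^ 384) : ℝ) ≤ 384 * ((Nat.log 2 L : ℝ) + 1) := by exact_mod_cast h1
    have h4 : (0 : ℝ) ≤ Nat.log 2 L := Nat.cast_nonneg _
    linarith
  have h3 := lg_le_log hL
  linarith

/-- the logarithmic error is small -/
lemma ev_log3 : ∀ ε : ℝ, 0 < ε → ∀ᶠ L : ℕ in atTop, Real.log L ^ 3 / Real.sqrt L ≤ ε := by
  intro ε hε
  have h1 := (isLittleO_log_rpow_rpow_atTop (3 : ℝ) (show (0 : ℝ) < 1 / 2 by norm_num)).bound hε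
  have h2 := tendsto_natCast_atTop_atTop (R := ℝ) |>.eventually h1
  filter_upwards [h2, eventually_ge_atTop 1] with L h3 hL
  have hL1 : (1 : ℝ) ≤ L := by exact_mod_cast hL
  have hlog : 0 ≤ Real.log L := Real.log_nonneg hL1
  have h4 : (0 : ℝ) < (L : ℝ) ^ (1 / 2 : ℝ) := Real.rpow_pos_of_pos (by linarith) _
  rw [Real.norm_of_nonneg (by positivity), Real.norm_of_nonneg h4.le] at h3
  rw [Real.sqrt_eq_rpow, div_le_iff₀ h4]
  refine le_trans (le_of_eq ?_) h3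
  rw [← Real.rpow_natCast]
  norm_num

lemma ev_pow2 (k : ℕ) : ∀ᶠ L : ℕ in atTop, L ^ k ≤ 2 ^ (L - 1) := by
  have h1 := tendsto_pow_const_div_const_pow_of_one_lt k (show (1 : ℝ) < 2 by norm_num)
  have h2 := h1.eventually (ge_mem_nhds (show (0 : ℝ) < 1 / 2 by norm_num))
  filter_upwards [h2, eventually_ge_atTop 1] with L h3 hL1
  rw [div_le_iff₀ (by positivity)] at h3
  obtain ⟨m, rfl⟩ := Nat.exists_eq_add_of_le hL1
  have h4 : (1 / 2 : ℝ) * 2 ^ (1 + m) = 2 ^ m := by rw [pow_add]; ring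
  rw [h4] at h3
  have h5 : 1 + m - 1 = m := by omega
  rw [h5]
  exact_mod_cast h3

lemma Z_rpow {L : ℕ} (hL : 1 ≤ L) : ((L ^ 384 : ℕ) : ℝ) ^ (-(1 / 96) : ℝ) = 1 / (L : ℝ) ^ 4 := by
  have h0 : (0 : ℝ) < L := by exact_mod_cast hL
  push_cast
  rw [← Real.rpow_natCast (L : ℝ) 384, ← Real.rpow_mul h0.le]
  have : ((384 : ℕ) : ℝ) * (-(1 / 96)) = -((4 : ℕ) : ℝ) := by norm_num
  rw [this, Real.rpow_neg h0.le, Real.rpow_natCast, one_div]

/-- **the average, with a small error** -/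
theorem avg_err : ∀ ε : ℝ, 0 < ε → ∀ᶠ X : ℕ in atTop,
    |∑ Δ ∈ SB X, ((Ker Δ).ncard : ℝ) - 2 * (SB X).card| ≤ ε * X := by
  obtain ⟨C, hC1, hC⟩ := avg4
  intro ε hε
  obtain ⟨κ, hκ⟩ : ∃ κ : ℝ, κ = 9 * ((2247 * 2 * (18 : ℝ) ^ 3) * Real.sqrt 2 * (385 * 3) ^ 3) := ⟨_, rfl⟩
  have hκ0 : 0 < κ := by
    rw [hκ]
    have : (0 : ℝ) < Real.sqrt 2 := Real.sqrt_pos.2 (by norm_num)
    positivity
  have g1 := LN_tendsto.eventually (ev_pow2 2304)
  have g2 := LN_tendsto.eventually (ev_log3 (ε / (2 * κ)) (by positivity))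
  have g3 : ∀ᶠ X : ℕ in atTop, C / (LN X : ℝ) ≤ ε / 2 := by
    have h1 : Tendsto (fun X : ℕ => C / (LN X : ℝ)) atTop (nhds 0) :=
      (tendsto_const_nhds.div_atTop (tendsto_natCast_atTop_atTop (R := ℝ))).comp LN_tendsto
    exact h1.eventually (ge_mem_nhds (by positivity))
  filter_upwards [g1, g2, g3, eventually_ge_atTop 1, LN_tendsto.eventually_ge_atTop 2] with
    X h1 h2 h3 hX hL2
  set L := LN X with hL
  have hL1 : 1 ≤ L := by omega
  have hZ1 : 1 ≤ L ^ 384 := Nat.one_le_pow _ _ (by omega)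
  have hB : HB X (L ^ 384) 2 := by
    apply HB_of hX
    rw [← pow_mul, ← pow_mul]
    exact h1
  have h4 := hC X (L ^ 384) 2 (by norm_num) hB hZ1 hX
  refine h4.trans ?_
  have hL0 : (0 : ℝ) < L := by exact_mod_cast (by omega : 0 < L)
  have hX0 : (0 : ℝ) ≤ X := Nat.cast_nonneg _
  have e1 : C * (X * lg X ^ 3) * ((L ^ 384 : ℕ) : ℝ) ^ (-(1 / 96) : ℝ) = C / L * X := by
    rw [Z_rpow hL1, lg_LN, ← hL]
    field_simp
  have e2 : 9 * EB X (L ^ 384) 2 ≤ κ * (Real.log L ^ 3 / Real.sqrt L) * X := by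
    unfold EB
    rw [lg_LN X, ← hL]
    have h5 := lg_Z hL2
    have h6 := lg_pos (L ^ 384)
    have h7 : lg (L ^ 384) ^ 3 ≤ (385 * 3 * Real.log L) ^ 3 := pow_le_pow_left₀ h6.le h5 3
    have h8 : 0 < Real.sqrt (L : ℝ) := Real.sqrt_pos.2 hL0
    calc 9 * (2247 * 2 * (18 : ℝ) ^ 3 * Real.sqrt 2 * (X * lg (L ^ 384) ^ 3 / Real.sqrt L))
        ≤ 9 * (2247 * 2 * (18 : ℝ) ^ 3 * Real.sqrt 2 * (X * (385 * 3 * Real.log L) ^ 3 / Real.sqrt L)) := by
          gcongr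
      _ = κ * (Real.log L ^ 3 / Real.sqrt L) * X := by
          rw [hκ]
          ring
  rw [e1]
  have e3 : κ * (Real.log L ^ 3 / Real.sqrt L) * X ≤ κ * (ε / (2 * κ)) * X := by
    apply mul_le_mul_of_nonneg_right _ hX0
    exact mul_le_mul_of_nonneg_left h2 hκ0.le
  have e4 : κ * (ε / (2 * κ)) = ε / 2 := by
    field_simp
  rw [e4] at e3
  have e5 : C / L * X ≤ ε / 2 * X := mul_le_mul_of_nonneg_right h3 hX0
  linarith

/-- the number of the elements -/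
theorem SB_low : ∃ c : ℝ, 0 < c ∧ ∀ᶠ X : ℕ in atTop, c * X ≤ ((SB X).card : ℝ) := by
  classical
  obtain ⟨c, X₀, hc, h⟩ := Pool.Agent.D0H45.QK.lowT
  refine ⟨c, hc, ?_⟩
  filter_upwards [eventually_ge_atTop X₀] with X hX
  have h1 := Pool.Agent.D0H45.QK.card_eq Pool.Agent.D0H45.QK.LT X fun _ => True
  rw [filter_true] at h1
  have h2 := h X hX
  rw [← h1] at h2
  refine h2.trans ?_
  have h3 : ∀ (p : ZI → Prop) (i : DecidablePred p), (@Finset.filter _ p i (SB X)).card ≤ (SB X).card :=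
    fun p i => @Finset.card_filter_le _ (SB X) p i
  exact Nat.cast_le.2 (h3 _ _)

/-- **The average order of the kernel tends to `2`.** -/
theorem avg_ker : Tendsto (fun X : ℕ => (∑ Δ ∈ SB X, ((Ker Δ).ncard : ℝ)) / ((SB X).card : ℝ)) atTop
    (nhds 2) := by
  obtain ⟨c, hc, h1⟩ := SB_low
  rw [Metric.tendsto_nhds]
  intro ε hε
  filter_upwards [h1, avg_err (c * ε / 2) (by positivity), eventually_ge_atTop 1] with X h3 h4 hX3
  have hXp : (0 : ℝ) < X := by exact_mod_cast hX3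
  have hN : (0 : ℝ) < ((SB X).card : ℝ) := lt_of_lt_of_le (by positivity) h3
  rw [Real.dist_eq]
  have e : (∑ Δ ∈ SB X, ((Ker Δ).ncard : ℝ)) / ((SB X).card : ℝ) - 2 =
      (∑ Δ ∈ SB X, ((Ker Δ).ncard : ℝ) - 2 * ((SB X).card : ℝ)) / ((SB X).card : ℝ) := by
    field_simp
  rw [e, abs_div, abs_of_pos hN, div_lt_iff₀ hN]
  refine lt_of_le_of_lt h4 ?_
  have h5 : c * ε / 2 * X = ε / 2 * (c * X) := by ring
  have h6 : ε / 2 * (c * X) ≤ ε / 2 * ((SB X).card : ℝ) :=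
    mul_le_mul_of_nonneg_left h3 (by linarith)
  have h7 : 0 < ε * ((SB X).card : ℝ) := by positivity
  linarith

end Pool.Agent.D0H10.Q5.Av
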