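import Pool.Agent.D0H10.Q5.Up
import Pool.Agent.D0H76.Q4.Conv1
import Pool.Agent.D0H92.Q4.Conv

/-!
Project Q5, U2: the classes of the kernel vectors are everywhere locally soluble. The local points are from
helper76 (`D0H76/Q4/Conv1`) and helper92 (`D0H92/Q4/Conv`).
-/

set_option autoImplicit false
set_option linter.unusedSectionVars false
set_option linter.unusedVariables false

open NumberField IsDedekindDomain

namespace Pool.Agent.D0H10.Q5

open Pool.Agent.Y682 (S1 S2 vv vv_coe IsT Zc Zc_card Zc_lower LL1 LL2 Sq quot_eq)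
open Pool.Agent.Y699
open Pool.Agent.Y715.Z
open Pool.Agent.D0H10.Q4
open Pool.Agent.D0H92.Q4
open Pool.Agent.D0H76.Q4
open H385 (ZI RQ im1 nrm)
open Pool.Agent.W164.RC (two2 prim_iff_dvd unit_norm unit_cases)

section comb

variable {ι : Type} [DecidableEq ι] [Fintype ι] {pr : ι → ZI}

/-- the set of a kernel vector -/
lemma rows (hp : PF pr) {z : ι → ZMod 2}
    (hrow : ∀ v, wt pr v * z v + ∑ u, em pr u v * (z u + z v) = 0) {S : Finset ι}
    (hS : S = Finset.univ.filter fun i => z i = 1) :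
    (∀ j ∉ S, ∑ i ∈ S, em pr i j = 0) ∧ (∀ j ∈ S, wt pr j + ∑ i ∈ Sᶜ, em pr i j = 0) := by
  have e2 : ∀ a : ZMod 2, a + a = 0 := by decide
  have h01 : ∀ a : ZMod 2, a = 0 ∨ a = 1 := by decide
  have hz1 : ∀ i ∈ S, z i = 1 := fun i hi => by
    rw [hS] at hi
    exact (Finset.mem_filter.1 hi).2
  have hz0 : ∀ i, i ∉ S → z i = 0 := by
    intro i hi
    rcases h01 (z i) with h | h
    · exact h
    · rw [hS] at hi
      exact absurd (Finset.mem_filter.2 ⟨Finset.mem_univ i, h⟩) hi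
  constructor
  · intro j hj
    have h1 := hrow j
    rw [hz0 j hj, mul_zero, zero_add, ← Finset.sum_add_sum_compl S] at h1
    have h5 : ∑ i ∈ Sᶜ, em pr i j * (z i + 0) = 0 :=
      Finset.sum_eq_zero fun i hi => by rw [hz0 i (Finset.mem_compl.1 hi), add_zero, mul_zero]
    rw [h5, add_zero] at h1
    rw [← h1]
    exact Finset.sum_congr rfl fun i hi => by rw [hz1 i hi, add_zero, mul_one]
  · intro j hj
    have h1 := hrow j
    rw [hz1 j hj, mul_one, ← Finset.sum_add_sum_compl S] at h1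
    have h5 : ∑ i ∈ S, em pr i j * (z i + 1) = 0 :=
      Finset.sum_eq_zero fun i hi => by rw [hz1 i hi, e2, mul_zero]
    rw [h5, zero_add] at h1
    rw [← h1]
    congr 1
    exact Finset.sum_congr rfl fun i hi => by rw [hz0 i (Finset.mem_compl.1 hi), zero_add, mul_one]

lemma qr_rows (hp : PF pr) {S : Finset ι} (h1 : ∀ j ∉ S, ∑ i ∈ S, em pr i j = 0)
    (h2 : ∀ j ∈ S, wt pr j + ∑ i ∈ Sᶜ, em pr i j = 0) :
    (∀ j, j ∉ S → qr (pr j) (DD pr S) = 1) ∧
      (∀ j, j ∈ S → qr (pr j) im1 * qr (pr j) (DD pr Sᶜ) = 1) := by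
  have hsg : ∀ a : ZMod 2, a = 0 → sg a = 1 := by decide
  constructor
  · intro j hj
    rw [qr_DD_sg hp S hj]
    exact hsg _ (h1 j hj)
  · intro j hj
    rw [qr_unit_sg hp j (by decide), qr_DD_sg hp Sᶜ (fun h => (Finset.mem_compl.1 h) hj), ← sg_add]
    apply hsg
    have hue : ue im1 = 1 := by
      unfold ue
      rw [if_neg (by decide)]
    rw [hue, one_mul]
    exact h2 j hj

end comb

section

variable {K : Type} [Field K] [NumberField K] (e : ZI ≃+* 𝓞 K)

/-- the local points, `D = κ Δ` -/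
theorem loc1 {κ Δ : ZI} (hκc : κ = im1 ∨ κ = -im1) (hg : PS Δ)
    {S : Finset {π : ZI // π ∈ PD Δ}} (h1 : ∀ j ∉ S, ∑ i ∈ S, em (fam Δ) i j = 0)
    (h2 : ∀ j ∈ S, wt (fam Δ) j + ∑ i ∈ Sᶜ, em (fam Δ) i j = 0) (v : HeightOneSpectrum (𝓞 K)) :
    LocB (algebraMap K (v.adicCompletion K) (em0 e (κ * Δ)))
        (algebraMap K (v.adicCompletion K) (em0 e (DD (fam Δ) S))) := by
  classical
  have hp := fam_PF hg.ne
  obtain ⟨hk1, hk2⟩ := qr_rows hp h1 h2
  obtain ⟨z, hz⟩ := norm_ker hg (sum_wt hp h1 h2)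
  have hκn : κ.norm = 1 := by rcases hκc with h | h <;> rw [h] <;> decide
  have hκ4 : κ ^ 4 = 1 := by rcases hκc with h | h <;> rw [h] <;> decide
  set d : ZI := DD (fam Δ) S with hd
  set d' : ZI := DD (fam Δ) Sᶜ with hd'
  have hΔ : Δ = d * d' := by
    have h1 : DD (fam Δ) Finset.univ = Δ := hg.DD
    refine h1.symm.trans ?_
    rw [hd, hd']
    unfold DD
    exact (Finset.prod_mul_prod_compl S _).symm
  have hd0 : d ≠ 0 := by
    intro h0
    apply hg.ne
    rw [hΔ, h0, zero_mul]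
  have hκ0 : κ ≠ 0 := by rcases hκc with h | h <;> rw [h] <;> decide
  have hD0 : κ * Δ ≠ 0 := mul_ne_zero hκ0 hg.ne
  have hκdvd : ∀ x y : ZI, x ∣ κ * y → x ∣ y := by
    intro x y h
    have h1 : x ∣ κ ^ 3 * (κ * y) := h.mul_left _
    have h2 : κ ^ 3 * (κ * y) = y := by
      have : κ ^ 3 * (κ * y) = κ ^ 4 * y := by ring
      rw [this, hκ4, one_mul]
    rwa [h2] at h1
  have hi2 : (em0 e im1 : K) ^ 2 = -1 := em0_im e
  obtain ⟨w, hw, hwc, rfl⟩ : ∃ (w : ZI) (hw : Prime w), (w = pi1 ∨ PP w) ∧ v = plc e hw := by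
    refine ⟨pg e v, pg_prime e v, ?_, HeightOneSpectrum.ext (pg_span e v)⟩
    rcases pg_cases e v with ⟨h1, h2⟩ | ⟨h1, h2⟩
    · exact Or.inl h2
    · right
      have h3 := Pool.Agent.W164.RC.Ip_spec (Pool.Agent.H921R2.TatePole.below v).2 h2
      exact ⟨h3.2.1, h3.1⟩
  rcases hwc with rfl | hP
  · -- the place `1 + i`
    have hΔo : ¬ pi1 ∣ κ * Δ := fun h => pi1_prim hg.prm (hκdvd _ _ h)
    have hd0' : ph (K := K) e hw (em0 e d) ≠ 0 := (map_ne_zero _).2 (em0_ne e hd0)
    rcases cls5 (K := K) e hz with ⟨c, hc, h1⟩ | ⟨c, hc, h1⟩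
    · exact loc_one e hw ⟨c, by rw [← sq]; exact h1⟩ hd0'
    · exact locB_mul (loc5 e hΔo) hc h1
  · have hd0' : ph (K := K) e hw (em0 e d) ≠ 0 := (map_ne_zero _).2 (em0_ne e hd0)
    have hD0' : ph (K := K) e hw (em0 e (κ * Δ)) ≠ 0 := (map_ne_zero _).2 (em0_ne e hD0)
    by_cases hwΔ : w ∣ Δ
    · set j : {π : ZI // π ∈ PD Δ} := ⟨w, (mem_PD hg.ne).2 ⟨hP, hwΔ⟩⟩ with hj
      by_cases hjS : j ∈ S
      · have h1 : qr w im1 * qr w d' = 1 := hk2 j hjS
        have h2 : qr w (κ * d') = 1 := by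
          rw [qr_mul hP]
          rcases hκc with h | h
          · rw [h]; exact h1
          · rw [h, qr_neg hP]; exact h1
        obtain ⟨s, hs⟩ := sq_of_qr (K := K) e hP h2
        refine loc_two e hw ⟨2 * ph e hw (em0 e im1) * ph e hw (em0 e d) * s, ?_⟩ hd0' hD0'
        have hi : (ph (K := K) e hw (em0 e im1)) ^ 2 = -1 := by
          rw [← map_pow, hi2, map_neg, map_one]
        change ph (K := K) e hw (em0 e d) * (-4 * ph e hw (em0 e (κ * Δ))) = _
        have e1 : ph (K := K) e hw (em0 e (κ * Δ)) =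
            ph e hw (em0 e d) * ph e hw (em0 e (κ * d')) := by
          rw [← map_mul, ← map_mul, hΔ]
          congr 2
          ring
        rw [e1]
        have hs' : ph (K := K) e hw (em0 e (κ * d')) = s * s := hs
        rw [hs']
        linear_combination (-4 * ph e hw (em0 e d) ^ 2 * s ^ 2) * hi
      · have h1 : qr w d = 1 := hk1 j hjS
        exact loc_one e hw (sq_of_qr e hP h1) hd0'
    · refine loc_good e hP (fun h => hwΔ (hκdvd _ _ h)) (fun h => hwΔ (h.trans ⟨d', hΔ⟩))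

/-- the local points, `D = 2 Δ` -/
theorem loc2 {Δ : ZI} (hΔ : PS Δ)
    {S : Finset {π : ZI // π ∈ PD Δ}} (hS1 : ∀ j ∉ S, ∑ i ∈ S, em (fam Δ) i j = 0)
    (hS2 : ∀ j ∈ S, wt (fam Δ) j + ∑ i ∈ Sᶜ, em (fam Δ) i j = 0) (v : HeightOneSpectrum (𝓞 K)) :
    LocB (algebraMap K (v.adicCompletion K) (em0 e (2 * Δ)))
        (algebraMap K (v.adicCompletion K) (em0 e (DD (fam Δ) S))) := by
  classical
  have hp : PF (fam Δ) := fam_PF hΔ.ne
  set D := DD (fam Δ) S with hD
  set D' := DD (fam Δ) Sᶜ with hD'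
  have hDD : D * D' = Δ := by
    rw [hD, hD', DD, DD, Finset.prod_mul_prod_compl]
    exact hΔ.DD
  have hΔ0 := hΔ.ne
  have hD0 : D ≠ 0 := DD_ne hp S
  have hb0 : (em0 e (2 * Δ) : K) ≠ 0 := em0_ne e (mul_ne_zero two_ne_zero hΔ0)
  have hdK : (em0 e D : K) ≠ 0 := em0_ne e hD0
  obtain ⟨z, hz, rfl, hc⟩ : ∃ (z : ZI) (hz : Prime z), v = plc e hz ∧ (z = pi1 ∨ PP z) := by
    refine ⟨_, pg_prime e v, (plc_pg e v).symm, ?_⟩
    rcases pg_cases e v with h | h
    · exact Or.inl h.2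
    · obtain ⟨a1, a2, -, -⟩ := Pool.Agent.W164.RC.Ip_spec (Pool.Agent.H921R2.TatePole.below v).2 h.2
      exact Or.inr ⟨a2, a1⟩
  rcases hc with rfl | hc
  · refine loc_pi1 e hΔ.prm (prim_four (DD_prim hp S) ?_)
    exact ((norm_DD hp S).resolve_right fun h => by
      rw [sum_wt hp hS1 hS2] at h
      exact absurd h.1 (by decide)).2
  · have hd0 : ph (K := K) e hz (em0 e D) ≠ 0 := (map_ne_zero _).2 hdK
    have hbv : ph (K := K) e hz (em0 e (2 * Δ)) ≠ 0 := (map_ne_zero _).2 hb0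
    by_cases hzΔ : z ∣ Δ
    · obtain ⟨i, rfl⟩ : ∃ i, fam Δ i = z := ⟨⟨z, (mem_PD hΔ0).2 ⟨hc, hzΔ⟩⟩, rfl⟩
      by_cases hi : i ∈ S
      · refine loc_two e hz ?_ hd0 hbv
        have h1 : qr (fam Δ i) (2 * D') = 1 := by
          rw [qr_mul hc, qr_two hc]
          have h2 := hS2 i hi
          have h3 : wt (fam Δ) i = if (fam Δ i).norm % 8 = 5 then 1 else 0 := rfl
          rw [h3] at h2
          have hi' : i ∉ Sᶜ := fun h => Finset.mem_compl.1 h hi
          rcases qr_DD hp hi' with ⟨a, b⟩ | ⟨a, b⟩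
          · rw [a, add_zero] at h2
            rw [← hD'] at b
            rw [b]
            split_ifs at h2 ⊢ with h5
            · exact absurd h2 (by decide)
            · norm_num
          · rw [a] at h2
            rw [← hD'] at b
            rw [b]
            split_ifs at h2 ⊢ with h5
            · norm_num
            · exact absurd h2 (by decide)
        obtain ⟨s, hs⟩ := sq_of_qr (K := K) e hc h1
        have h16 : ph (K := K) e hz (em0 e D) * (-4 * ph e hz (em0 e (2 * Δ))) =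
            ph e hz (em0 e (im1 * 2 * D)) ^ 2 * ph e hz (em0 e (2 * D')) := by
          have h17 : D * (-4 * (2 * Δ)) = (im1 * 2 * D) ^ 2 * (2 * D') := by
            have h18 : (im1 : ZI) ^ 2 = -1 := by decide
            linear_combination (8 * D) * hDD + (-8 * D ^ 2 * D') * h18
          have h19 := congrArg (fun a => ph (K := K) e hz (em0 e a)) h17
          simp only [map_mul, map_pow, map_neg, map_ofNat] at h19 ⊢
          linear_combination h19
        rw [h16, hs]
        exact ⟨ph e hz (em0 e (im1 * 2 * D)) * s, by ring⟩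
      · refine loc_one e hz ?_ hd0
        apply sq_of_qr e hc
        rcases qr_DD hp hi with ⟨a, b⟩ | ⟨a, b⟩
        · exact b
        · rw [hS1 i hi] at a
          exact absurd a (by decide)
    · apply loc_good e hc
      · exact fun h => (hc.pr.dvd_or_dvd h).elim (not_dvd_two hc) hzΔ
      · exact fun h => hzΔ (h.trans ⟨D', hDD.symm⟩)

/-- from `LocB` to `S1` -/
lemma locB_S1 {L : Type} [Field L] {l b d : L} (hl : l ^ 4 = -4) (h4 : (4 : L) ≠ 0)
    (h : LocB b d) : ∃ z m : L, z ≠ 0 ∧ d * z ^ 2 = m ∧ S1 0 b m := by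
  obtain ⟨X, Y, r, hX, hY, hr⟩ := h
  have hl0 : l ≠ 0 := by
    rintro rfl
    rw [zero_pow (by norm_num)] at hl
    exact h4 (by linear_combination hl)
  have hr0 : r ≠ 0 := by
    rintro rfl
    exact hX (by rw [hr]; ring)
  refine ⟨r / l, X / l ^ 2, div_ne_zero hr0 hl0, ?_, Or.inr (Or.inr ⟨div_ne_zero hX
    (pow_ne_zero _ hl0), Y / l ^ 3, ?_⟩)⟩
  · rw [hr, div_pow]
    ring
  · field_simp
    linear_combination hY + (-(b * X)) * hl

/-- the other class -/
lemma S1_flip {L : Type} [Field L] {B b c : L} (hB : B ≠ 0) (hb : b ≠ 0) (hc : c ≠ 0)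
    (h : ∃ z m : L, z ≠ 0 ∧ b * z ^ 2 = m ∧ S1 0 B m) :
    ∃ z m : L, z ≠ 0 ∧ (B * b * c ^ 2) * z ^ 2 = m ∧ S1 0 B m := by
  obtain ⟨z, m, hz, hm, hS⟩ := h
  have hm0 : m ≠ 0 := by rw [← hm]; exact mul_ne_zero hb (pow_ne_zero _ hz)
  refine ⟨1 / (b * z * c), B / m, div_ne_zero one_ne_zero (mul_ne_zero (mul_ne_zero hb hz) hc),
    ?_, ?_⟩
  · rw [← hm]
    field_simp
  · rcases hS with h | h | ⟨-, y, hy⟩
    · right; left
      rw [h, div_one]
    · left
      rw [h, div_self hB]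
    · right; right
      refine ⟨div_ne_zero hB hm0, y * B / m ^ 2, ?_⟩
      field_simp
      linear_combination hy

end

lemma filter_zero {ι : Type} [DecidableEq ι] [Fintype ι] (z : ι → ZMod 2) :
    (Finset.univ.filter fun i => z i + 0 = 1) = Finset.univ.filter fun i => z i = 1 :=
  Finset.filter_congr fun i _ => by rw [add_zero]

lemma filter_one {ι : Type} [DecidableEq ι] [Fintype ι] (z : ι → ZMod 2) :
    (Finset.univ.filter fun i => z i + 1 = 1) = (Finset.univ.filter fun i => z i = 1)ᶜ := by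
  have h01 : ∀ a : ZMod 2, a + 1 = 1 ↔ ¬ a = 1 := by decide
  rw [Finset.compl_filter]
  exact Finset.filter_congr fun i _ => h01 _

/-- **U2.** -/
theorem low : S_LOW := by
  classical
  intro K _ _ e Δ D hΔ hD z hz a
  have hp : PF (fam Δ) := fam_PF hΔ.ne
  obtain ⟨h1, h2⟩ := rows hp hz rfl
  set S : Finset {π : ZI // π ∈ PD Δ} := Finset.univ.filter fun i => z i = 1 with hS
  have hd0 : DD (fam Δ) S ≠ 0 := DD_ne hp S
  have hdK : (em0 e (DD (fam Δ) S) : K) ≠ 0 := em0_ne e hd0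
  have hDne : D ≠ 0 := by
    rcases hD with rfl | rfl | rfl
    · exact mul_ne_zero (by decide) hΔ.ne
    · exact mul_ne_zero (by decide) hΔ.ne
    · exact mul_ne_zero two_ne_zero hΔ.ne
  have hDK : (em0 e D : K) ≠ 0 := em0_ne e hDne
  have hlf : ∀ v : HeightOneSpectrum (𝓞 K),
      LocB (algebraMap K (v.adicCompletion K) (em0 e D))
        (algebraMap K (v.adicCompletion K) (em0 e (DD (fam Δ) S))) := by
    intro v
    rcases hD with rfl | rfl | rfl
    · exact loc1 e (Or.inl rfl) hΔ h1 h2 v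
    · exact loc1 e (Or.inr rfl) hΔ h1 h2 v
    · exact loc2 e hΔ h1 h2 v
  have hl4 : (em0 e pi1 : K) ^ 4 = -4 := by
    rw [← map_pow, show (pi1 : ZI) ^ 4 = -4 by decide, map_neg, map_ofNat]
  have hbase : LL1 0 (em0 e D) (em0 e (DD (fam Δ) S)) := by
    constructor
    · intro v
      have hv := Pool.Agent.Y682.charZero_adic v
      rw [map_zero]
      refine locB_S1 (l := algebraMap K (v.adicCompletion K) (em0 e pi1)) ?_ (by norm_num) (hlf v)
      rw [← map_pow, hl4, map_neg, map_ofNat]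
    · intro v
      rw [map_zero]
      refine locB_S1 (l := algebraMap K v.Completion (em0 e pi1)) ?_ ?_ (locB_inf e v hdK)
      · rw [← map_pow, hl4, map_neg, map_ofNat]
      · have h4 : algebraMap K v.Completion 4 ≠ 0 := (map_ne_zero _).2 (by norm_num)
        rwa [map_ofNat] at h4
  have h01 : ∀ a : ZMod 2, a = 0 ∨ a = 1 := by decide
  rcases h01 a with rfl | rfl
  · have h3 : cz Δ z 0 = DD (fam Δ) S := by
      unfold cz
      rw [filter_zero, ← hS]
      have h4 : (0 : ZMod 2).val = 0 := by decide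
      rw [h4, pow_zero, one_mul]
    rw [h3]
    exact hbase
  · have h3 : cz Δ z 1 = im1 * DD (fam Δ) Sᶜ := by
      unfold cz
      rw [filter_one, ← hS]
      have h4 : (1 : ZMod 2).val = 1 := by decide
      rw [h4, pow_one]
    have hΔ' : Δ = DD (fam Δ) S * DD (fam Δ) Sᶜ := by
      have h1 : DD (fam Δ) Finset.univ = Δ := hΔ.DD
      refine h1.symm.trans ?_
      unfold DD
      exact (Finset.prod_mul_prod_compl S _).symm
    have hi2 : (em0 e im1 : K) ^ 2 = -1 := em0_im e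
    have hi0 : (em0 e im1 : K) ≠ 0 := em0_ne e (by decide)
    have hp0 : (em0 e pi1 : K) ≠ 0 := em0_ne e pi1_prime.ne_zero
    have hp2 : (em0 e pi1 : K) ^ 2 = 2 * em0 e im1 := by
      rw [← map_pow, pi1_sq, map_mul, map_ofNat]
    obtain ⟨c, hc0, hc⟩ : ∃ c : K, c ≠ 0 ∧
        em0 e (cz Δ z 1) = em0 e D * em0 e (DD (fam Δ) S) * c ^ 2 := by
      rw [h3]
      generalize DD (fam Δ) S = A at *
      generalize DD (fam Δ) Sᶜ = B at *
      rcases hD with rfl | rfl | rfl
      · refine ⟨1 / em0 e A, div_ne_zero one_ne_zero hdK, ?_⟩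
        rw [hΔ', map_mul, map_mul, map_mul]
        field_simp
      · refine ⟨em0 e im1 / em0 e A, div_ne_zero hi0 hdK, ?_⟩
        rw [hΔ', map_mul, map_mul, map_mul, map_neg, div_pow, hi2]
        field_simp
      · refine ⟨1 / (em0 e im1 * em0 e pi1 * em0 e A),
          div_ne_zero one_ne_zero (mul_ne_zero (mul_ne_zero hi0 hp0) hdK), ?_⟩
        rw [hΔ', map_mul, map_mul, map_mul, map_ofNat, div_pow, mul_pow, mul_pow, hi2, hp2]
        field_simp
        linear_combination (em0 e B) * hi2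
    rw [hc]
    constructor
    · intro v
      have h5 := hbase.1 v
      rw [map_zero] at h5 ⊢
      rw [map_mul, map_mul, map_pow]
      exact S1_flip ((map_ne_zero _).2 hDK) ((map_ne_zero _).2 hdK) ((map_ne_zero _).2 hc0) h5
    · intro v
      have h5 := hbase.2 v
      rw [map_zero] at h5 ⊢
      rw [map_mul, map_mul, map_pow]
      exact S1_flip ((map_ne_zero _).2 hDK) ((map_ne_zero _).2 hdK) ((map_ne_zero _).2 hc0) h5

end Pool.Agent.D0H10.Q5
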