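import Pool.Agent.D0H10.Q5.InfB
import Pool.Agent.D0H10.Q5.Low

/-!
Project Q5: the Selmer group of `1 + i` as a set of classes modulo squares and as a group of cocycles.
-/

set_option autoImplicit false
set_option linter.unusedSectionVars false
set_option linter.unusedVariables false

open NumberField IsDedekindDomain WeierstrassCurve

namespace Pool.Agent.D0H10.Q5.Inf

open Pool.Agent.Y682 (S1 S2 IsT LL1 LL2 Sq quot_eq exists_b2)
open Pool.Agent.Y699
open Pool.Agent.Y715.Z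
open Pool.Agent.D0H92.Q4
open Pool.Agent.D0H76.Q4
open Pool.Agent.D0H10.Q5 (Sel)
open H385 (ZI RQ im1 nrm)
open Pool.Agent.TH841.SH.D (Pt act Gal Coch IsCoc IsCob LocTriv)
open Pool.Agent.TH841.NF.D (IsShaCoc shaCoc)

section loc

variable {K : Type} [Field K] [NumberField K]

/-- the finite places -/
lemma fin_locB (e : ZI ≃+* 𝓞 K) (v : HeightOneSpectrum (𝓞 K)) {D b : K} (hD : D ≠ 0) (hb : b ≠ 0)
    (h : ∃ z m : v.adicCompletion K, z ≠ 0 ∧ algebraMap K (v.adicCompletion K) b * z ^ 2 = m ∧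
      S1 0 (algebraMap K (v.adicCompletion K) D) m) :
    LocB (algebraMap K (v.adicCompletion K) D) (algebraMap K (v.adicCompletion K) b) := by
  obtain ⟨w, hw, rfl⟩ : ∃ (w : ZI) (hw : Prime w), v = plc e hw :=
    ⟨pg e v, pg_prime e v, HeightOneSpectrum.ext (pg_span e v)⟩
  have hb' : algebraMap K ((plc e hw : HeightOneSpectrum (𝓞 K)).adicCompletion K) b ≠ 0 :=
    (map_ne_zero _).2 hb
  have hD' : algebraMap K ((plc e hw : HeightOneSpectrum (𝓞 K)).adicCompletion K) D ≠ 0 :=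
    (map_ne_zero _).2 hD
  have hi : (algebraMap K ((plc e hw : HeightOneSpectrum (𝓞 K)).adicCompletion K)
      (em0 e im1)) ^ 2 = -1 := by
    rw [← map_pow, em0_im e, map_neg, map_one]
  obtain ⟨z, m, hz, hzm, hm⟩ := h
  rcases hm with hm | hm | ⟨hm, y, hy⟩
  · refine loc_one e hw ⟨z⁻¹, ?_⟩ hb'
    rw [hm] at hzm
    field_simp
    exact hzm
  · refine loc_two e hw ⟨2 * algebraMap K _ (em0 e im1) * algebraMap K _ D / z, ?_⟩ hb' hD'
    rw [hm] at hzm
    generalize algebraMap K ((plc e hw : HeightOneSpectrum (𝓞 K)).adicCompletion K)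
      (em0 e im1) = i at *
    generalize algebraMap K ((plc e hw : HeightOneSpectrum (𝓞 K)).adicCompletion K) b = B at *
    generalize algebraMap K ((plc e hw : HeightOneSpectrum (𝓞 K)).adicCompletion K) D = C at *
    field_simp
    linear_combination (-4 : (plc e hw : HeightOneSpectrum (𝓞 K)).adicCompletion K) * hzm -
      4 * C * hi
  · generalize algebraMap K ((plc e hw : HeightOneSpectrum (𝓞 K)).adicCompletion K)
      (em0 e im1) = i at *
    have h1i : (1 + i) ^ 2 = 2 * i := by linear_combination hi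
    have h2 : (2 : (plc e hw : HeightOneSpectrum (𝓞 K)).adicCompletion K) ≠ 0 := by
      have := Pool.Agent.Y682.charZero_adic (plc e hw : HeightOneSpectrum (𝓞 K))
      exact two_ne_zero
    have hi0 : i ≠ 0 := by
      rintro rfl
      rw [zero_pow two_ne_zero] at hi
      exact one_ne_zero (α := (plc e hw : HeightOneSpectrum (𝓞 K)).adicCompletion K)
        (by linear_combination hi)
    refine ⟨2 * i * m, (1 + i) ^ 3 * y, (1 + i) * z, mul_ne_zero (mul_ne_zero h2 hi0) hm, ?_, ?_⟩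
    · have h3 : ((1 + i) ^ 3) ^ 2 = -8 * i := by
        have : ((1 + i) ^ 3) ^ 2 = ((1 + i) ^ 2) ^ 3 := by ring
        rw [this, h1i]
        linear_combination 8 * i * hi
      rw [mul_pow, h3, hy]
      linear_combination (-8 * i * m ^ 3) * hi
    · rw [mul_pow, h1i, ← hzm]
      ring

lemma ll1_sha (e : ZI ≃+* 𝓞 K) {D b : K} (hD : D ≠ 0) (hb : b ≠ 0) (h : LL1 0 D b) :
    IsShaCoc (WB D) (coc hD b) := by
  refine ⟨coc_coc hD b, fun v => lot hD _ (fin_locB e v hD hb ?_),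
    fun v => lot hD _ (locB_inf e v hb)⟩
  have h1 := h.1 v
  rwa [map_zero] at h1

end loc

section

variable {K : Type} [Field K] [NumberField K]

lemma T0_ne {D : K} (hD : D ≠ 0) : T0 hD (AlgebraicClosure K) ≠ 0 := Affine.Point.some_ne_zero _

lemma coc_iff {D b : K} (hD : D ≠ 0) {s : AlgebraicClosure K}
    (hs : s ^ 2 = algebraMap K (AlgebraicClosure K) b) (σ : Gal K) :
    coc hD b σ = 0 ↔ σ s = s := by
  obtain ⟨h1, h2⟩ := coc_eq hD hs σ
  constructor
  · intro h
    by_contra h3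
    exact T0_ne hD ((h2 h3).symm.trans h)
  · exact h1

lemma coc_cases {D : K} (hD : D ≠ 0) (b : K) (σ : Gal K) :
    coc hD b σ = 0 ∨ coc hD b σ = T0 hD (AlgebraicClosure K) := by
  obtain ⟨s, hs⟩ := exists_root (F := K) b
  obtain ⟨h1, h2⟩ := coc_eq hD hs σ
  by_cases h : σ s = s
  · exact Or.inl (h1 h)
  · exact Or.inr (h2 h)

lemma coc_ext {D b b' : K} (hD : D ≠ 0) {s s' : AlgebraicClosure K}
    (hs : s ^ 2 = algebraMap K (AlgebraicClosure K) b)
    (hs' : s' ^ 2 = algebraMap K (AlgebraicClosure K) b') (h : ∀ σ : Gal K, σ s = s ↔ σ s' = s') :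
    coc hD b = coc hD b' := by
  funext σ
  rcases coc_cases hD b σ with h1 | h1 <;> rcases coc_cases hD b' σ with h2 | h2
  · rw [h1, h2]
  · exfalso
    have h3 := (coc_iff hD hs' σ).2 ((h σ).1 ((coc_iff hD hs σ).1 h1))
    exact T0_ne hD (h2.symm.trans h3)
  · exfalso
    have h3 := (coc_iff hD hs σ).2 ((h σ).2 ((coc_iff hD hs' σ).1 h2))
    exact T0_ne hD (h1.symm.trans h3)
  · rw [h1, h2]

/-- the cocycle depends only on the class modulo squares -/
lemma coc_congr {D : K} (hD : D ≠ 0) {b c : Kˣ} (h : (b : Kˣ ⧸ Sq K) = (c : Kˣ ⧸ Sq K)) :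
    coc hD (b : K) = coc hD (c : K) := by
  obtain ⟨z, hz⟩ := quot_eq.1 h
  obtain ⟨s, hs⟩ := exists_root (F := K) (b : K)
  have hz0 : algebraMap K (AlgebraicClosure K) (z : K) ≠ 0 := (map_ne_zero _).2 z.ne_zero
  refine coc_ext hD hs (s' := s * algebraMap K _ (z : K)) ?_ fun σ => ?_
  · rw [hz, Units.val_mul, Units.val_pow_eq_pow_val, map_mul, mul_pow, hs, map_pow]
  · rw [map_mul, AlgEquiv.commutes]
    exact ⟨fun h => by rw [h], fun h => mul_right_cancel₀ hz0 h⟩

/-- different classes have different cocycles -/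
lemma coc_inj {D : K} (hD : D ≠ 0) {b c : Kˣ} (h : coc hD (b : K) = coc hD (c : K)) :
    (b : Kˣ ⧸ Sq K) = (c : Kˣ ⧸ Sq K) := by
  obtain ⟨s, hs⟩ := exists_root (F := K) (b : K)
  obtain ⟨t, ht⟩ := exists_root (F := K) (c : K)
  have h1 : ∀ σ : Gal K, σ s = s ↔ σ t = t := fun σ => by
    rw [← coc_iff hD hs, ← coc_iff hD ht, h]
  obtain ⟨u, hu⟩ := fix_mem (s * t) fun σ => by
    rw [map_mul]
    by_cases h2 : σ s = s
    · rw [h2, (h1 σ).1 h2]
    · have h3 : ¬ σ t = t := fun h4 => h2 ((h1 σ).2 h4)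
      rw [(ap_sq hs σ).resolve_left h2, (ap_sq ht σ).resolve_left h3, neg_mul_neg]
  have h2 : u ^ 2 = (b : K) * (c : K) := by
    apply (algebraMap K (AlgebraicClosure K)).injective
    rw [map_pow, hu, mul_pow, hs, ht, map_mul]
  have hu0 : u ≠ 0 := by
    rintro rfl
    rw [zero_pow two_ne_zero] at h2
    exact mul_ne_zero b.ne_zero c.ne_zero h2.symm
  rw [quot_eq]
  refine ⟨Units.mk0 (u / b) (div_ne_zero hu0 b.ne_zero), ?_⟩
  apply Units.ext
  rw [Units.val_mul, Units.val_pow_eq_pow_val, Units.val_mk0, div_pow, h2]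
  field_simp

/-- a locally trivial cocycle with values in the kernel comes from a class -/
lemma coc_surj {D i : K} (hD : D ≠ 0) (hi : i ^ 2 = -1) {f : Coch (WB D)} (hf : IsShaCoc (WB D) f)
    (hv : ∀ σ, f σ = 0 ∨ f σ = T0 hD (AlgebraicClosure K)) :
    ∃ b : Kˣ, LL1 0 D (b : K) ∧ f = coc hD (b : K) := by
  have hT : IsT (WB D) 0 D :=
    ⟨rfl, rfl, rfl, rfl, rfl, hD, by
      have : (0 : K) ^ 2 - 4 * D = -4 * D := by ring
      rw [this]
      exact mul_ne_zero (by norm_num) hD⟩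
  have h2 : ∀ σ, f σ + f σ = 0 := by
    intro σ
    rcases hv σ with h | h
    · rw [h, add_zero]
    · rw [h, T0_add]
  have hX : ∀ σ, Pool.Agent.TH841.SH.IsX ((WB D).baseChange (AlgebraicClosure K)) 0 (f σ) := by
    intro σ
    rcases hv σ with h | h
    · exact Or.inl h
    · exact Or.inr ⟨0, _, h⟩
  obtain ⟨b, hb, hbs, hbl⟩ := exists_b2 hT hf.1 h2 hX
  refine ⟨Units.mk0 b hb, ⟨fun v => ?_, fun v => ?_⟩, ?_⟩
  · have := Pool.Agent.Y682.charZero_adic v
    have h1 := hbl _ (hf.2.1 v)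
    rw [map_zero] at h1 ⊢
    refine S2_S1 (i := algebraMap K (v.adicCompletion K) i) ?_ h1
    rw [← map_pow, hi, map_neg, map_one]
  · have := Pool.Agent.Y682.charZero_inf v
    have h1 := hbl _ (hf.2.2 v)
    rw [map_zero] at h1 ⊢
    refine S2_S1 (i := algebraMap K v.Completion i) ?_ h1
    rw [← map_pow, hi, map_neg, map_one]
  · obtain ⟨s, hs⟩ := exists_root (F := K) b
    have hs0 : s ≠ 0 := by
      rintro rfl
      rw [zero_pow two_ne_zero, eq_comm, map_eq_zero] at hs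
      exact hb hs
    funext σ
    show f σ = coc hD b σ
    obtain ⟨h3, h4⟩ := hbs s hs σ
    rcases hv σ with h | h
    · rw [h, (coc_eq hD hs σ).1 (h3 h)]
    · have h5 : f σ ≠ 0 := by rw [h]; exact T0_ne hD
      have h6 : σ s ≠ s := by
        rw [h4 h5]
        intro h7
        have h8 : (2 : AlgebraicClosure K) * s = 0 := by linear_combination -h7
        exact (mul_ne_zero two_ne_zero hs0) h8
      rw [h, (coc_eq hD hs σ).2 h6]

/-- **The two Selmer groups.** -/
theorem sel_coc (e : ZI ≃+* 𝓞 K) {D : K} (hD : D ≠ 0) :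
    {f : Coch (E1 D) | IsShaCoc (E1 D) f ∧
      ∀ σ, f σ = 0 ∨ ∃ y h, f σ = Affine.Point.some 0 y h}.ncard = (Sel D).ncard := by
  classical
  have hi : (em0 e im1 : K) ^ 2 = -1 := em0_im e
  have hT : ∀ P : Pt (E1 D) (AlgebraicClosure K), (∃ y h, P = Affine.Point.some 0 y h) →
      P = T0 hD (AlgebraicClosure K) := by
    rintro P ⟨y, h, rfl⟩
    exact pp_ext h _ rfl (y0 h)
  symm
  refine Set.ncard_congr (fun q (hq : q ∈ Sel D) => (coc hD ((hq.choose : Kˣ) : K) :
    Coch (E1 D))) ?_ ?_ ?_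
  · intro q hq
    obtain ⟨h1, h2⟩ := hq.choose_spec
    refine ⟨ll1_sha e hD (Units.ne_zero _) h2, fun σ => ?_⟩
    rcases coc_cases hD ((hq.choose : Kˣ) : K) σ with h | h
    · exact Or.inl h
    · exact Or.inr ⟨0, _, h⟩
  · intro q q' hq hq' h
    rw [← hq.choose_spec.1, ← hq'.choose_spec.1]
    exact coc_inj hD h
  · intro f hf
    obtain ⟨b, hb, hfb⟩ := coc_surj hD hi hf.1 fun σ => by
      rcases hf.2 σ with h | h
      · exact Or.inl h
      · exact Or.inr (hT _ h)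
    have hq : ((b : Kˣ ⧸ Sq K)) ∈ Sel D := ⟨b, rfl, hb⟩
    refine ⟨(b : Kˣ ⧸ Sq K), hq, ?_⟩
    rw [hfb]
    exact coc_congr hD hq.choose_spec.1

end

end Pool.Agent.D0H10.Q5.Inf
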