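import Pool.Agent.D0H10.Q5.FinR
import Pool.Agent.D0H10.Q5.Brd
import Pool.Agent.D0H10.Q4.Num

/-!
Project Q5: the law of the kernel of `1 + i` on the `2^∞`-Selmer groups.
-/

set_option autoImplicit false

open NumberField IsDedekindDomain WeierstrassCurve Filter
open scoped Topology Classical

namespace Pool.Agent.D0H10.Q5

open H385 (ZI RQ im1 nrm)
open Pool.Agent.TH841.NF.D (Sha)
open Pool.Agent.Y699 (SB mem_SB PS pi1 pi1_prime)
open Pool.Agent.D0H10.Q4 hiding S1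
open Pool.Agent.Y682 (LL1 Sq MP S1)
open Pool.Agent.D0H10.Q5.Inf (killed SelInf E1)
open Pool.Agent.Y715.Z (em0 em0_ne)

section
variable {K : Type} [Field K] [NumberField K]

/-- the `D` are no squares -/
lemma kd_not_sq {Δ D : ZI} (hΔ : PS Δ) (hD : Kd Δ D) (a : ZI) : a * a ≠ D := by
  intro h
  obtain ⟨h1, h2⟩ := hΔ.prm
  have hre := congrArg Zsqrtd.re h
  have him := congrArg Zsqrtd.im h
  rw [Zsqrtd.re_mul] at hre
  rw [Zsqrtd.im_mul] at him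
  have h6 : a.re * a.im + a.im * a.re = 2 * (a.re * a.im) := by ring
  rw [h6] at him
  rcases hD with rfl | rfl | rfl
  · have h5 : (im1 * Δ).im = Δ.re := by simp [im1]
    rw [h5] at him
    omega
  · have h5 : (-im1 * Δ).im = -Δ.re := by simp [im1]
    rw [h5] at him
    omega
  · have h5 : (2 * Δ).im = 2 * Δ.im := by simp
    have h7 : (2 * Δ).re = 2 * Δ.re := by simp
    rw [h5] at him
    rw [h7] at hre
    have h8 : a.re * a.re + -1 * a.im * a.im = 2 * Δ.re := hre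
    rcases Int.even_or_odd' a.re with ⟨x, hx | hx⟩ <;> rcases Int.even_or_odd' a.im with ⟨y, hy | hy⟩
    · rw [hx, hy] at h8
      have h9 : 2 * x * (2 * x) + -1 * (2 * y) * (2 * y) = 4 * (x * x - y * y) := by ring
      omega
    · rw [hx, hy] at h8
      have h9 : 2 * x * (2 * x) + -1 * (2 * y + 1) * (2 * y + 1) =
          4 * (x * x - y * y - y) - 1 := by ring
      omega
    · rw [hx, hy] at h8
      have h9 : (2 * x + 1) * (2 * x + 1) + -1 * (2 * y) * (2 * y) =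
          4 * (x * x + x - y * y) + 1 := by ring
      omega
    · rw [hx, hy] at him
      have h9 : (2 * x + 1) * (2 * y + 1) = 2 * (2 * (x * y) + x + y) + 1 := by ring
      omega

lemma cl_not_sq (e : ZI ≃+* 𝓞 K) {p : ℕ × ℕ} (hp : p ∈ S3) {Δ : ZI} (hΔ : PS Δ) (t : K) :
    t ^ 2 ≠ ((e (cl p.1 p.2 Δ) : 𝓞 K) : K) := by
  intro h
  obtain ⟨a, ha⟩ := Pool.Agent.D0H76.Q4.sq_int (K := K) e (x := cl p.1 p.2 Δ)
    ⟨t, by rw [← sq, h]; rfl⟩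
  exact kd_not_sq hΔ (kd_cl hp) a ha

lemma cl_ne (e : ZI ≃+* 𝓞 K) {p : ℕ × ℕ} (hp : p ∈ S3) {Δ : ZI} (hΔ : PS Δ) :
    ((e (cl p.1 p.2 Δ) : 𝓞 K) : K) ≠ 0 := by
  intro h
  exact cl_not_sq e hp hΔ 0 (by rw [h]; ring)

/-- what is proved about one curve -/
def FactS (i : K) (D : 𝓞 K) : Prop :=
  (∃ r : ℕ, (killed i (D : K)).ncard = 2 ^ r ∧ Finite {x : Sha (E1 (D : K)) // 2 • x = 0} ∧
    2 ^ (Module.finrank ℤ (E1 (D : K)).toAffine.Point) *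
      Nat.card {x : Sha (E1 (D : K)) // 2 • x = 0} ≤ 4 ^ r) ∧
  ((killed i (D : K)).ncard = 1 ↔ ∀ x : SelInf (D : K), x = 0) ∧
  ((∀ x : SelInf (D : K), x = 0) ↔ FinT D)

theorem facts_s (e : ZI ≃+* 𝓞 K) {i : K} (hi : i ^ 2 = -1) : ∀ p ∈ S3, ∀ Δ, PS Δ →
    FactS i (e (cl p.1 p.2 Δ)) ∧
    ∀ r : ℕ, ((killed i ((e (cl p.1 p.2 Δ) : 𝓞 K) : K)).ncard = 2 ^ r ↔
      (Ker Δ).ncard = 2 ^ r) := by
  intro p hp Δ hΔ
  obtain ⟨⟨r, hr, hf, hle, h0⟩, h5⟩ := facts_r e p hp Δ hΔ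
  have hD := cl_ne e hp hΔ
  have h1 := Inf.sel_card hD hi (cl_not_sq e hp hΔ)
  rw [Inf.sel_coc e hD] at h1
  have h2 : (Sel ((e (cl p.1 p.2 Δ) : 𝓞 K) : K)).ncard =
      (SelK ((e (cl p.1 p.2 Δ) : 𝓞 K) : K)).ncard := by
    rw [sel_eq]
    rfl
  rw [h2] at h1
  have h3 : ∀ r : ℕ, ((killed i ((e (cl p.1 p.2 Δ) : 𝓞 K) : K)).ncard = 2 ^ r ↔
      (Ker Δ).ncard = 2 ^ r) := by
    intro r
    rw [← h5 r, h1, pow_succ, mul_comm (2 ^ r)]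
    exact (Nat.mul_right_inj (by norm_num)).symm
  have h4 := Inf.sel_triv hD hi
  refine ⟨⟨⟨r, ?_, hf, hle⟩, h4, ?_⟩, h3⟩
  · exact (h3 r).2 ((h5 r).1 hr)
  · rw [← h4, ← h0]
    have h6 : (killed i ((e (cl p.1 p.2 Δ) : 𝓞 K) : K)).ncard = 2 ^ r := (h3 r).2 ((h5 r).1 hr)
    rw [h6]
    constructor
    · intro h
      by_contra hne
      have := Nat.one_lt_two_pow hne
      omega
    · intro h
      rw [h, pow_zero]

end

/-- **The final statement of Q5.** -/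
theorem finS (hLA : S_LA2) (K : Type) [Field K] [NumberField K] [IsCyclotomicExtension {4} ℚ K]
    (i : K) (hi : i ^ 2 = -1) :
    (∀ D : 𝓞 K, FamQ D → FactS i D) ∧
    (∀ r : ℕ, Tendsto (fun X : ℕ =>
      ({D : 𝓞 K | Algebra.norm ℤ D ≤ X ∧ FamQ D ∧ (killed i (D : K)).ncard = 2 ^ r}.ncard : ℝ) /
        ({D : 𝓞 K | Algebra.norm ℤ D ≤ X ∧ FamQ D}.ncard : ℝ)) atTop (nhds (prob r))) ∧
    (∀ r : ℕ, Tendsto (fun X : ℕ =>
      ({D : 𝓞 K | Algebra.norm ℤ D ≤ X ∧ (Squarefree D ∧ OddI D) ∧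
        (killed i (D : K)).ncard = 2 ^ r}.ncard : ℝ) /
        ({D : 𝓞 K | Algebra.norm ℤ D ≤ X ∧ (Squarefree D ∧ OddI D)}.ncard : ℝ)) atTop
          (nhds (prob r))) ∧
    (∀ r : ℕ, Tendsto (fun X : ℕ =>
      ({D : 𝓞 K | Algebra.norm ℤ D ≤ X ∧ TwP D ∧ (killed i (D : K)).ncard = 2 ^ r}.ncard : ℝ) /
        ({D : 𝓞 K | Algebra.norm ℤ D ≤ X ∧ TwP D}.ncard : ℝ)) atTop (nhds (prob r))) ∧
    (∀ r : ℕ, Tendsto (fun X : ℕ =>
      ({D : 𝓞 K | Algebra.norm ℤ D ≤ X ∧ (Squarefree D ∧ OddI D) ∧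
        (killed i (D : K)).ncard = 2 ^ r}.ncard : ℝ) /
        ({D : 𝓞 K | Algebra.norm ℤ D ≤ X ∧ Squarefree D}.ncard : ℝ)) atTop
          (nhds (1 / 3 * prob r))) := by
  obtain ⟨e, he⟩ := Rng.exists_e K
  have h4 : ∀ p ∈ S3, p.1 < 4 := by decide
  have hf := facts_s (K := K) e hi
  set T : ℕ → 𝓞 K → Prop := fun r D => (killed i (D : K)).ncard = 2 ^ r with hTd
  have hd : ∀ r : ℕ, ∀ p ∈ S3, Dn ((fun _ : ℕ × ℕ => fun Δ : ZI => (Ker Δ).ncard = 2 ^ r) p)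
      (prob r) := fun r p _ => by
    refine (dis hLA r).congr fun X => ?_
    rw [filter_inst]
  have g0 : ∀ (S : Finset (ℕ × ℕ)) (Q : 𝓞 K → Prop), (∀ D : ZI, Q (e D) ↔ InS S D) → ∀ r X : ℕ,
      {D : 𝓞 K | Algebra.norm ℤ D ≤ X ∧ Q D ∧ T r D}.ncard =
        {D : ZI | nrm D ≤ X ∧ InS S D ∧ T r (e D)}.ncard := fun S Q hQ r X =>
      img_ncard e he X (fun D => InS S D ∧ T r (e D)) (fun D => Q D ∧ T r D) fun D =>
        and_congr (hQ D) Iff.rfl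
  have g : ∀ (S : Finset (ℕ × ℕ)) (Q : 𝓞 K → Prop), S ⊆ S3 → S.Nonempty →
      (∀ D : ZI, Q (e D) ↔ InS S D) → ∀ r : ℕ, Tendsto (fun X : ℕ =>
      ({D : 𝓞 K | Algebra.norm ℤ D ≤ X ∧ Q D ∧ T r D}.ncard : ℝ) /
        ({D : 𝓞 K | Algebra.norm ℤ D ≤ X ∧ Q D}.ncard : ℝ)) atTop (nhds (prob r)) := by
    intro S Q hS hne hQ r
    have e3' : ∀ X : ℕ, {D : 𝓞 K | Algebra.norm ℤ D ≤ X ∧ Q D}.ncard =
        {D : ZI | nrm D ≤ X ∧ InS S D}.ncard := fun X =>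
      img_ncard e he X (InS S) Q fun D => hQ D
    simp_rw [g0 S Q hQ r, e3']
    exact dens_clsG S hne (fun p hp => h4 p (hS hp)) _ (prob r) (fun p hp => hd r p (hS hp))
      (fun D => T r (e D)) fun p hp Δ hΔ => (hf p (hS hp) Δ hΔ).2 r
  refine ⟨?_, ?_, ?_, ?_, ?_⟩
  · intro D hD
    obtain ⟨D, rfl⟩ := e.surjective D
    obtain ⟨p, hp, Δ, hΔ, rfl⟩ := (threeK e D).1 hD
    exact (hf p hp Δ hΔ).1
  · exact g S3 FamQ (Finset.Subset.refl _) ⟨(1, 0), by decide⟩ fun D => threeK e D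
  · exact g Q4.S1 (fun D => Squarefree D ∧ OddI D) (by decide) ⟨(1, 0), by decide⟩
      fun D => oneK e D
  · exact g Q4.S2 TwP (by decide) ⟨(3, 2), by decide⟩ fun D => twoK e D
  · intro r
    have e0 : ∀ X : ℕ, {D : 𝓞 K | Algebra.norm ℤ D ≤ X ∧ Squarefree D}.ncard =
        {D : ZI | nrm D ≤ X ∧ Squarefree D}.ncard := fun X =>
      img_ncard e he X Squarefree Squarefree fun D => sqf_e e D
    have hS : Q4.S1 ⊆ S3 := by decide
    have h := prop_sqfG sqfK Q4.S1 ⟨(1, 0), by decide⟩ (by decide) _ (prob r)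
      (fun p hp => hd r p (hS hp)) (fun D => T r (e D)) fun p hp Δ hΔ => (hf p (hS hp) Δ hΔ).2 r
    have h6 : (∑ p ∈ Q4.S1, (1 / 2 : ℝ) ^ p.2) / 6 * prob r = 1 / 3 * prob r := by
      have h7 : (∑ p ∈ Q4.S1, (1 / 2 : ℝ) ^ p.2) = 2 := by
        unfold Q4.S1
        rw [Finset.sum_pair (by decide)]
        norm_num
      rw [h7]
      ring
    rw [h6] at h
    refine h.congr fun X => ?_
    rw [← g0 Q4.S1 (fun D => Squarefree D ∧ OddI D) (fun D => oneK e D) r X, ← e0 X]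

end Pool.Agent.D0H10.Q5
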