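import Pool.Agent.D0H10.Q5.AvF
import Pool.Agent.D0H10.Q5.FinS

/-!
Project Q5, averages: the average of the dimension, transport to unions of classes, and ranks.
-/

set_option autoImplicit false

open NumberField IsDedekindDomain WeierstrassCurve Filter
open scoped Topology

namespace Pool.Agent.D0H10.Q5

open H385 (ZI RQ im1 nrm)
open Pool.Agent.Y699 (SB mem_SB PS pi1 pi1_prime)
open Pool.Agent.D0H10.Q4 hiding S1

/-- the logarithm of the order -/
def rk2 (n : ℕ) : ℕ := Nat.log 2 n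

lemma rk2_pow (r : ℕ) : rk2 (2 ^ r) = r := Nat.log_pow (by norm_num) r

lemma lin_aux (M : ℕ) (hM : 1 ≤ M) : ∀ r : ℕ, M ≤ r → r * 2 ^ M ≤ M * 2 ^ r := by
  intro r hr
  induction r, hr using Nat.le_induction with
  | base => exact le_rfl
  | succ r hr ih =>
    have h1 : 2 ^ M ≤ 2 ^ r := Nat.pow_le_pow_right (by norm_num) hr
    have h2 : 1 * 2 ^ r ≤ M * 2 ^ r := Nat.mul_le_mul_right _ hM
    have h3 : M * 2 ^ (r + 1) = 2 * (M * 2 ^ r) := by ring
    have h4 : (r + 1) * 2 ^ M = r * 2 ^ M + 2 ^ M := by ring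
    rw [h3, h4]
    linarith

/-- the pointwise bounds -/
lemma pt2 (M : ℕ) (hM : 1 ≤ M) (r : ℕ) :
    ∑ k ∈ Finset.range M, (k : ℝ) * (if r = k then 1 else 0) ≤ r ∧
    (r : ℝ) ≤ ∑ k ∈ Finset.range M, (k : ℝ) * (if r = k then 1 else 0) + M / 2 ^ M * 2 ^ r := by
  have h0 : (0 : ℝ) ≤ M / 2 ^ M * 2 ^ r := by positivity
  by_cases h : r < M
  · have h1 : ∑ k ∈ Finset.range M, (k : ℝ) * (if r = k then 1 else 0) = r := by
      rw [Finset.sum_eq_single r]
      · rw [if_pos rfl, mul_one]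
      · intro k _ hk
        rw [if_neg (fun h => hk h.symm), mul_zero]
      · intro h2
        exact absurd (Finset.mem_range.2 h) h2
    rw [h1]
    exact ⟨le_rfl, by linarith⟩
  · have h1 : ∑ k ∈ Finset.range M, (k : ℝ) * (if r = k then 1 else 0) = 0 := by
      refine Finset.sum_eq_zero fun k hk => ?_
      rw [Finset.mem_range] at hk
      rw [if_neg (by omega), mul_zero]
    rw [h1, zero_add]
    refine ⟨Nat.cast_nonneg _, ?_⟩
    have h2 := lin_aux M hM r (by omega)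
    rw [div_mul_eq_mul_div, le_div_iff₀ (by positivity)]
    exact_mod_cast h2

open Classical in
/-- the average of the dimension over a sequence of finite sets -/
theorem avg_dim {ι : Type} (F : ℕ → Finset ι) (R : ι → ℕ) (p : ℕ → ℝ) (C : ℝ)
    (hpos : ∀ᶠ X in atTop, 0 < ((F X).card : ℝ))
    (hd : ∀ r : ℕ, Tendsto (fun X => (((F X).filter fun D => R D = r).card : ℝ) / ((F X).card : ℝ)) atTop
      (𝓝 (p r)))
    (hC : ∀ᶠ X in atTop, (∑ D ∈ F X, (2 : ℝ) ^ R D) / ((F X).card : ℝ) ≤ C)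
    (hs : Summable fun r : ℕ => (r : ℝ) * p r) :
    Tendsto (fun X => (∑ D ∈ F X, (R D : ℝ)) / ((F X).card : ℝ)) atTop (𝓝 (∑' r : ℕ, (r : ℝ) * p r)) := by
  have hlow : ∀ M : ℕ, Tendsto (fun X => ∑ k ∈ Finset.range M, (k : ℝ) *
      ((((F X).filter fun D => R D = k).card : ℝ) / ((F X).card : ℝ))) atTop
      (𝓝 (∑ k ∈ Finset.range M, (k : ℝ) * p k)) := fun M =>
    tendsto_finsetSum _ fun k _ => (hd k).const_mul _
  have hM : ∀ M : ℕ, 1 ≤ M → ∀ X, 0 < ((F X).card : ℝ) →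
      ∑ k ∈ Finset.range M, (k : ℝ) *
        ((((F X).filter fun D => R D = k).card : ℝ) / ((F X).card : ℝ)) ≤
        (∑ D ∈ F X, (R D : ℝ)) / ((F X).card : ℝ) ∧
      (∑ D ∈ F X, (R D : ℝ)) / ((F X).card : ℝ) ≤
      ∑ k ∈ Finset.range M, (k : ℝ) *
        ((((F X).filter fun D => R D = k).card : ℝ) / ((F X).card : ℝ)) +
        M / 2 ^ M * ((∑ D ∈ F X, (2 : ℝ) ^ R D) / ((F X).card : ℝ)) := by
    intro M hM X hX
    have e1 : ∑ k ∈ Finset.range M, (k : ℝ) *
        ((((F X).filter fun D => R D = k).card : ℝ) / ((F X).card : ℝ)) =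
        (∑ D ∈ F X, ∑ k ∈ Finset.range M, (k : ℝ) * (if R D = k then 1 else 0)) /
          ((F X).card : ℝ) := by
      rw [Finset.sum_comm, Finset.sum_div]
      refine Finset.sum_congr rfl fun k _ => ?_
      rw [← Finset.mul_sum, Finset.sum_boole, mul_div_assoc]
    rw [e1]
    constructor
    · apply div_le_div_of_nonneg_right _ hX.le
      exact Finset.sum_le_sum fun D _ => (pt2 M hM (R D)).1
    · have h1 : (∑ D ∈ F X, (R D : ℝ)) ≤
          ∑ D ∈ F X, (∑ k ∈ Finset.range M, (k : ℝ) * (if R D = k then 1 else 0) +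
            M / 2 ^ M * 2 ^ R D) := Finset.sum_le_sum fun D _ => (pt2 M hM (R D)).2
      rw [Finset.sum_add_distrib, ← Finset.mul_sum] at h1
      have h2 := div_le_div_of_nonneg_right h1 hX.le
      rw [add_div, mul_div_assoc] at h2
      exact h2
  have hsum := hs.hasSum.tendsto_sum_nat
  have hz : Tendsto (fun M : ℕ => (M : ℝ) / 2 ^ M * C) atTop (𝓝 0) := by
    have h1 := tendsto_pow_const_div_const_pow_of_one_lt 1 (show (1 : ℝ) < 2 by norm_num)
    have h2 := h1.mul_const C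
    simpa using h2
  rw [Metric.tendsto_nhds]
  intro ε hε
  have g1 := (Metric.tendsto_nhds.1 hsum) (ε / 4) (by positivity)
  have g2 := (Metric.tendsto_nhds.1 hz) (ε / 4) (by positivity)
  obtain ⟨M, h1, h2, h3⟩ := (g1.and (g2.and (eventually_ge_atTop 1))).exists
  have h4 := (Metric.tendsto_nhds.1 (hlow M)) (ε / 4) (by positivity)
  filter_upwards [hpos, hC, h4] with X hX hCX h5
  obtain ⟨h6, h7⟩ := hM M h3 X hX
  rw [Real.dist_eq, abs_lt] at h1 h2 h5 ⊢
  have h8 : (M : ℝ) / 2 ^ M * ((∑ D ∈ F X, (2 : ℝ) ^ R D) / ((F X).card : ℝ)) ≤ M / 2 ^ M * C :=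
    mul_le_mul_of_nonneg_left hCX (by positivity)
  constructor
  · linarith [h1.1, h5.1]
  · linarith [h1.2, h5.2, h2.2]

/-- the kernel has order a power of two -/
lemma ker_pow {Δ : ZI} (h : PS Δ) : (Ker Δ).ncard = 2 ^ rk2 (Ker Δ).ncard := by
  obtain ⟨⟨r, hr⟩, -⟩ := ker Δ h
  rw [hr, rk2_pow]

/-! ### the limits -/

/-- the reciprocal products -/
noncomputable def Pr (r : ℕ) : ℝ := 1 / ∏ i ∈ Finset.range r, ((2 : ℝ) ^ (i + 1) - 1)

/-- the constant -/
noncomputable def cc : ℝ := ∏' i : ℕ, (1 - (1 / 2 : ℝ) ^ (2 * i + 1))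

lemma prob_eq (r : ℕ) : prob r = cc * Pr r := by
  unfold prob cc Pr
  rw [mul_one_div]

lemma prodp (r : ℕ) : 0 < ∏ i ∈ Finset.range r, ((2 : ℝ) ^ (i + 1) - 1) := by
  refine Finset.prod_pos fun i _ => ?_
  have : (1 : ℝ) < 2 ^ (i + 1) := one_lt_pow₀ (by norm_num) (by omega)
  linarith

lemma Pr_pos (r : ℕ) : 0 < Pr r := by
  unfold Pr
  have := prodp r
  positivity

lemma Pr_succ (r : ℕ) : Pr (r + 1) * ((2 : ℝ) ^ (r + 1) - 1) = Pr r := by
  unfold Pr
  rw [Finset.prod_range_succ]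
  have h1 := prodp r
  have h2 : (0 : ℝ) < 2 ^ (r + 1) - 1 := by
    have : (1 : ℝ) < 2 ^ (r + 1) := one_lt_pow₀ (by norm_num) (by omega)
    linarith
  field_simp

lemma cc_ge : (0.4194 : ℝ) ≤ cc := Pool.Agent.D0H10.Q4.Num.c2_ge

lemma cc_pos : 0 < cc := lt_of_lt_of_le (by norm_num) cc_ge

/-- a third at each step -/
lemma Pr_third {r : ℕ} (hr : 1 ≤ r) : Pr (r + 1) * 3 ≤ Pr r := by
  rw [← Pr_succ r]
  apply mul_le_mul_of_nonneg_left _ (Pr_pos _).le
  have : (2 : ℝ) ^ 2 ≤ 2 ^ (r + 1) := pow_le_pow_right₀ (by norm_num) (by omega)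
  linarith

lemma Pr_le (r : ℕ) : Pr r ≤ 3 * (1 / 3 : ℝ) ^ r := by
  rcases Nat.eq_zero_or_pos r with rfl | hr
  · unfold Pr
    norm_num
  · induction r, hr using Nat.le_induction with
    | base =>
      unfold Pr
      norm_num
    | succ r hr ih =>
      have h1 := Pr_third hr
      rw [pow_succ]
      linarith

lemma summ_r : Summable fun r : ℕ => (r : ℝ) * prob r := by
  have h1 : Summable fun r : ℕ => (r : ℝ) ^ 1 * (1 / 3 : ℝ) ^ r :=
    summable_pow_mul_geometric_of_norm_lt_one 1 (by norm_num)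
  have h2 := h1.mul_left (cc * 3)
  refine Summable.of_nonneg_of_le (fun r => mul_nonneg (Nat.cast_nonneg _) (prob_nonneg r)) (fun r => ?_) h2
  rw [prob_eq, pow_one]
  have h3 := Pr_le r
  have h4 := cc_pos
  have h5 : (0 : ℝ) ≤ r := Nat.cast_nonneg _
  calc (r : ℝ) * (cc * Pr r) ≤ r * (cc * (3 * (1 / 3 : ℝ) ^ r)) := by gcongr
    _ = cc * 3 * (r * (1 / 3 : ℝ) ^ r) := by ring

lemma cc_le (hs : S_SUM) : cc ≤ 0.41945 := by
  have h1 : ∑ r ∈ Finset.range 5, prob r ≤ 1 := by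
    have h2 := hs.summable.sum_le_tsum (Finset.range 5) (fun r _ => prob_nonneg r)
    rw [hs.tsum_eq] at h2
    exact h2
  have h2 : ∑ r ∈ Finset.range 5, prob r = cc * (1 + 1 + 1 / 3 + 1 / 21 + 1 / 315) := by
    simp only [prob_eq, Finset.sum_range_succ, Finset.sum_range_zero, Pr, Finset.prod_range_succ,
      Finset.prod_range_zero]
    norm_num
    ring
  rw [h2] at h1
  have h3 := cc_pos
  norm_num at h1 ⊢
  linarith

/-- the mean dimension -/
noncomputable def rho : ℝ := ∑' r : ℕ, (r : ℝ) * prob r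

lemma part_le (n : ℕ) (hn : 7 ≤ n) :
    ∑ r ∈ Finset.range n, (r : ℝ) * Pr r + 2 * (n * Pr n) ≤ 1.82275 := by
  induction n, hn using Nat.le_induction with
  | base =>
    simp only [Finset.sum_range_succ, Finset.sum_range_zero, Pr, Finset.prod_range_succ,
      Finset.prod_range_zero]
    norm_num
  | succ n hn ih =>
    rw [Finset.sum_range_succ]
    have h1 := Pr_succ n
    have h2 := Pr_pos (n + 1)
    have h3 : (2 : ℝ) * (n + 1) ≤ n * (2 ^ (n + 1) - 1) := by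
      have h4 : (2 : ℝ) ^ 3 ≤ 2 ^ (n + 1) := pow_le_pow_right₀ (by norm_num) (by omega)
      have h5 : (7 : ℝ) ≤ n := by exact_mod_cast hn
      nlinarith
    have h4 : 2 * (((n + 1 : ℕ) : ℝ) * Pr (n + 1)) ≤ n * Pr n := by
      rw [← h1]
      push_cast
      calc 2 * (((n : ℝ) + 1) * Pr (n + 1)) = (2 * (n + 1)) * Pr (n + 1) := by ring
        _ ≤ (n * (2 ^ (n + 1) - 1)) * Pr (n + 1) := mul_le_mul_of_nonneg_right h3 h2.le
        _ = _ := by ring
    linarith

theorem rho_lt (hs : S_SUM) : rho < 0.765 := by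
  have h1 : ∀ n : ℕ, ∑ r ∈ Finset.range n, (r : ℝ) * prob r ≤ 0.7647 := by
    intro n
    have h2 : ∑ r ∈ Finset.range n, (r : ℝ) * prob r ≤ ∑ r ∈ Finset.range (max n 7), (r : ℝ) * prob r := by
      refine Finset.sum_le_sum_of_subset_of_nonneg ?_ fun r _ _ =>
        mul_nonneg (Nat.cast_nonneg _) (prob_nonneg r)
      exact Finset.range_subset_range.2 (le_max_left _ _)
    refine h2.trans ?_
    have h3 := part_le (max n 7) (le_max_right _ _)
    have h4 : ∑ r ∈ Finset.range (max n 7), (r : ℝ) * prob r =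
        cc * ∑ r ∈ Finset.range (max n 7), (r : ℝ) * Pr r := by
      rw [Finset.mul_sum]
      refine Finset.sum_congr rfl fun r _ => ?_
      rw [prob_eq]
      ring
    rw [h4]
    have h5 := cc_le hs
    have h6 := cc_pos
    have h7 : 0 ≤ 2 * (((max n 7 : ℕ) : ℝ) * Pr (max n 7)) := by
      have := Pr_pos (max n 7)
      positivity
    have h8 : ∑ r ∈ Finset.range (max n 7), (r : ℝ) * Pr r ≤ 1.82275 := by linarith
    calc cc * ∑ r ∈ Finset.range (max n 7), (r : ℝ) * Pr r ≤ cc * 1.82275 :=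
          mul_le_mul_of_nonneg_left h8 h6.le
      _ ≤ 0.41945 * 1.82275 := mul_le_mul_of_nonneg_right h5 (by norm_num)
      _ ≤ _ := by norm_num
  have h2 : rho ≤ 0.7647 := Real.tsum_le_of_sum_range_le
    (fun r => mul_nonneg (Nat.cast_nonneg _) (prob_nonneg r)) h1
  exact lt_of_le_of_lt h2 (by norm_num)

/-- the finite product is at least a quarter -/
lemma Pr_up (r : ℕ) (hr : 1 ≤ r) :
    (1 / 4 + (1 / 2 : ℝ) ^ (r + 1)) * (2 : ℝ) ^ (r * (r + 1) / 2) * Pr r ≤ 1 := by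
  induction r, hr using Nat.le_induction with
  | base =>
    unfold Pr
    norm_num
  | succ r hr ih =>
    have h1 := Pr_succ r
    have h2 := Pr_pos (r + 1)
    have e1 : (r + 1) * (r + 1 + 1) / 2 = r * (r + 1) / 2 + (r + 1) := by
      have : (r + 1) * (r + 1 + 1) = r * (r + 1) + (r + 1) * 2 := by ring
      rw [this, Nat.add_mul_div_right _ _ (by norm_num)]
    rw [e1, pow_add (2 : ℝ) (r * (r + 1) / 2) (r + 1)]
    rw [← h1] at ih
    refine le_trans ?_ ih
    have h3 : (0 : ℝ) < 2 ^ (r * (r + 1) / 2) := by positivity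
    set u : ℝ := (1 / 2 : ℝ) ^ (r + 1) with hu
    have hu0 : 0 < u := by positivity
    have hu1 : u * 2 ^ (r + 1) = 1 := by
      rw [hu, ← mul_pow]
      norm_num
    have hu2 : u ≤ 1 / 4 := by
      rw [hu]
      calc (1 / 2 : ℝ) ^ (r + 1) ≤ (1 / 2 : ℝ) ^ 2 :=
            pow_le_pow_of_le_one (by norm_num) (by norm_num) (by omega)
        _ = 1 / 4 := by norm_num
    have e2 : (1 / 2 : ℝ) ^ (r + 1 + 1) = u / 2 := by
      rw [pow_succ, ← hu]
      ring
    rw [e2]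
    have key : (1 / 4 + u / 2) * 2 ^ (r + 1) ≤ (1 / 4 + u) * (2 ^ (r + 1) - 1) := by
      have h4 : (1 / 4 + u / 2) * 2 ^ (r + 1) = 2 ^ (r + 1) / 4 + 1 / 2 := by
        rw [add_mul]
        have : u / 2 * 2 ^ (r + 1) = 1 / 2 * (u * 2 ^ (r + 1)) := by ring
        rw [this, hu1]
        ring
      have h5 : (1 / 4 + u) * (2 ^ (r + 1) - 1) = 2 ^ (r + 1) / 4 - 1 / 4 + 1 - u := by
        have : (1 / 4 + u) * (2 ^ (r + 1) - 1) = 2 ^ (r + 1) / 4 - 1 / 4 + u * 2 ^ (r + 1) - u := by ring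
        rw [this, hu1]
      rw [h4, h5]
      linarith
    calc (1 / 4 + u / 2) * (2 ^ (r * (r + 1) / 2) * 2 ^ (r + 1)) * Pr (r + 1)
        = ((1 / 4 + u / 2) * 2 ^ (r + 1)) * (2 ^ (r * (r + 1) / 2) * Pr (r + 1)) := by ring
      _ ≤ ((1 / 4 + u) * (2 ^ (r + 1) - 1)) * (2 ^ (r * (r + 1) / 2) * Pr (r + 1)) := by
          apply mul_le_mul_of_nonneg_right key (by positivity)
      _ = _ := by ring

/-- the tail of the law -/
theorem tail_le (hs : S_SUM) (R : ℕ) :
    1 - ∑ r ∈ Finset.range R, prob r ≤ 3 / 2 ^ (R * (R + 1) / 2) := by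
  rcases Nat.eq_zero_or_pos R with rfl | hR
  · norm_num
  have h1 : ∀ n : ℕ, R ≤ n → ∑ r ∈ Finset.range n, prob r + 3 / 2 * prob n ≤
      ∑ r ∈ Finset.range R, prob r + 3 / 2 * prob R := by
    intro n hn
    induction n, hn using Nat.le_induction with
    | base => exact le_rfl
    | succ n hn ih =>
      rw [Finset.sum_range_succ]
      have h2 : prob (n + 1) * 3 ≤ prob n := by
        rw [prob_eq, prob_eq, mul_assoc]
        exact mul_le_mul_of_nonneg_left (Pr_third (by omega)) cc_pos.le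
      linarith
  have h2 : 1 ≤ ∑ r ∈ Finset.range R, prob r + 3 / 2 * prob R := by
    refine le_of_tendsto hs.tendsto_sum_nat ?_
    filter_upwards [eventually_ge_atTop R] with n hn
    have h3 := h1 n hn
    have h4 := prob_nonneg n
    linarith
  have h3 := Pr_up R hR
  have h4 : prob R ≤ 2 / 2 ^ (R * (R + 1) / 2) := by
    rw [le_div_iff₀ (by positivity), prob_eq]
    have h5 := cc_le hs
    have h6 := Pr_pos R
    have h7 : (0 : ℝ) < 2 ^ (R * (R + 1) / 2) := by positivity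
    have h8 : (0 : ℝ) < (1 / 2 : ℝ) ^ (R + 1) := by positivity
    have h9 : 1 / 4 * (2 ^ (R * (R + 1) / 2) * Pr R) ≤ 1 := by
      refine le_trans ?_ h3
      have : (1 / 4 + (1 / 2 : ℝ) ^ (R + 1)) * 2 ^ (R * (R + 1) / 2) * Pr R =
          1 / 4 * (2 ^ (R * (R + 1) / 2) * Pr R) +
          (1 / 2 : ℝ) ^ (R + 1) * (2 ^ (R * (R + 1) / 2) * Pr R) := by ring
      rw [this]
      have : 0 ≤ (1 / 2 : ℝ) ^ (R + 1) * (2 ^ (R * (R + 1) / 2) * Pr R) := by positivity
      linarith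
    calc cc * Pr R * 2 ^ (R * (R + 1) / 2) = cc * (2 ^ (R * (R + 1) / 2) * Pr R) := by ring
      _ ≤ 0.41945 * (2 ^ (R * (R + 1) / 2) * Pr R) := mul_le_mul_of_nonneg_right h5 (by positivity)
      _ ≤ 0.41945 * 4 := by
          apply mul_le_mul_of_nonneg_left _ (by norm_num)
          linarith
      _ ≤ 2 := by norm_num
  have h5 : (3 : ℝ) / 2 ^ (R * (R + 1) / 2) = 3 / 2 * (2 / 2 ^ (R * (R + 1) / 2)) := by ring
  rw [h5]
  linarith

lemma sum_vals : (∑ r ∈ Finset.range 1, prob r = cc) ∧ (∑ r ∈ Finset.range 2, prob r = 2 * cc) ∧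
    (∑ r ∈ Finset.range 3, prob r = 7 / 3 * cc) ∧ (∑ r ∈ Finset.range 4, prob r = 50 / 21 * cc) := by
  simp only [prob_eq, Finset.sum_range_succ, Finset.sum_range_zero, Pr, Finset.prod_range_succ,
      Finset.prod_range_zero]
  refine ⟨?_, ?_, ?_, ?_⟩ <;> norm_num <;> ring

/-! ### the averages over the primary elements -/

theorem avg_ker2 : Tendsto (fun X : ℕ => (∑ Δ ∈ SB X, ((Ker Δ).ncard : ℝ)) / ((SB X).card : ℝ)) atTop
    (𝓝 2) := Av.avg_ker

theorem avg_rk (hD : S_DIS) :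
    Tendsto (fun X : ℕ => (∑ Δ ∈ SB X, (rk2 (Ker Δ).ncard : ℝ)) / ((SB X).card : ℝ)) atTop (𝓝 rho) := by
  classical
  refine avg_dim (fun X => SB X) (fun Δ => rk2 (Ker Δ).ncard) prob 3 ?_ ?_ ?_ summ_r
  · filter_upwards [eventually_ge_atTop 1] with X hX
    exact_mod_cast SB_pos hX
  · intro r
    refine (hD r).congr fun X => ?_
    congr 3
    ext Δ
    rw [Finset.mem_filter, Finset.mem_filter]
    refine and_congr_right fun hΔ => ?_
    have h1 := ker_pow (mem_SB.1 hΔ).2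
    constructor
    · intro h
      rw [h, rk2_pow]
    · intro h
      rw [h1, h]
  · filter_upwards [avg_ker2.eventually (ge_mem_nhds (show (2 : ℝ) < 3 by norm_num))] with X hX
    refine le_trans (le_of_eq ?_) hX
    congr 1
    refine Finset.sum_congr rfl fun Δ hΔ => ?_
    have h1 := ker_pow (mem_SB.1 hΔ).2
    have h2 : (((Ker Δ).ncard : ℕ) : ℝ) = ((2 ^ rk2 (Ker Δ).ncard : ℕ) : ℝ) := by rw [← h1]
    rw [h2]
    push_cast
    rfl

end Pool.Agent.D0H10.Q5
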