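import Pool.Agent.D0H10.Q5.AvG
import Pool.Agent.D0H10.Q4.AllK

/-!
Project Q5, averages: transport to the ring of integers, and the ranks.
-/

set_option autoImplicit false

open NumberField IsDedekindDomain WeierstrassCurve Filter
open scoped Topology Classical

namespace Pool.Agent.D0H10.Q5

open H385 (ZI RQ im1 nrm)
open Pool.Agent.TH841.NF.D (Sha)
open Pool.Agent.Y699 (SB ZB mem_ZB mem_SB PS pi1 pi1_prime)
open Pool.Agent.D0H10.Q4 hiding S1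
open Pool.Agent.Y682 (LL1 Sq MP S1)
open Pool.Agent.D0H10.Q5.Inf (killed SelInf E1)
open Pool.Agent.Y715.Z (em0 em0_ne)

/-- sums over classes -/
theorem sum_cls (S : Finset (ℕ × ℕ)) (hS : ∀ p ∈ S, p.1 < 4) (F : ZI → ℝ) (X : ℕ) :
    ∑ᶠ D ∈ {D : ZI | nrm D ≤ X ∧ InS S D}, F D =
      ∑ p ∈ S, ∑ Δ ∈ SB (X / 2 ^ p.2), F (cl p.1 p.2 Δ) := by
  set f : (_ : ℕ × ℕ) × ZI → ZI := fun q => cl q.1.1 q.1.2 q.2 with hf
  set U : Finset ((_ : ℕ × ℕ) × ZI) := S.sigma fun p => SB (X / 2 ^ p.2) with hU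
  have hinj : Set.InjOn f (U : Set ((_ : ℕ × ℕ) × ZI)) := by
    rintro ⟨⟨a, b⟩, Δ⟩ h1 ⟨⟨a', b'⟩, Δ'⟩ h2 h
    rw [Finset.mem_coe, hU, Finset.mem_sigma] at h1 h2
    obtain ⟨h3, h4, h5⟩ := cl_inj (hS _ h1.1) (hS _ h2.1) (mem_SB.1 h1.2).2.prm
      (mem_SB.1 h2.2).2.prm h
    have h3' : a = a' := h3
    have h4' : b = b' := h4
    have h5' : Δ = Δ' := h5
    subst h3' h4' h5'
    rfl
  have himg : {D : ZI | nrm D ≤ X ∧ InS S D} = ((U.image f : Finset ZI) : Set ZI) := by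
    ext D
    rw [Finset.mem_coe, Finset.mem_image]
    constructor
    · rintro ⟨h1, p, hp, Δ, hΔ, rfl⟩
      refine ⟨⟨p, Δ⟩, ?_, rfl⟩
      rw [hU, Finset.mem_sigma, mem_SB]
      refine ⟨hp, ?_, hΔ⟩
      rw [nrm_cl] at h1
      show nrm Δ ≤ X / 2 ^ p.2
      rw [Nat.le_div_iff_mul_le (by positivity), mul_comm]
      exact h1
    · rintro ⟨⟨p, Δ⟩, h1, rfl⟩
      rw [hU, Finset.mem_sigma, mem_SB] at h1
      obtain ⟨hp, h2, h3⟩ := h1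
      refine ⟨?_, ⟨p, hp, Δ, h3, rfl⟩⟩
      have h2' : nrm Δ ≤ X / 2 ^ p.2 := h2
      show nrm (cl p.1 p.2 Δ) ≤ X
      rw [nrm_cl]
      rw [Nat.le_div_iff_mul_le (by positivity), mul_comm] at h2'
      exact h2'
  rw [himg, finsum_mem_coe_finset, Finset.sum_image hinj, hU, Finset.sum_sigma]

section
variable {K : Type} [Field K] [NumberField K]

omit [NumberField K] in
lemma set_img (e : ZI ≃+* 𝓞 K) (he : ∀ z, Algebra.norm ℤ (e z) = z.norm) (X : ℕ)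
    (P : ZI → Prop) (Q : 𝓞 K → Prop) (h : ∀ D, Q (e D) ↔ P D) :
    {D : 𝓞 K | Algebra.norm ℤ D ≤ X ∧ Q D} = e '' {D : ZI | nrm D ≤ X ∧ P D} := by
  ext D
  constructor
  · rintro ⟨h2, h3⟩
    obtain ⟨D, rfl⟩ := e.surjective D
    refine ⟨D, ⟨?_, (h D).1 h3⟩, rfl⟩
    rw [he, ← nrm_eq] at h2
    exact_mod_cast h2
  · rintro ⟨D, ⟨h2, h3⟩, rfl⟩
    refine ⟨?_, (h D).2 h3⟩
    rw [he, ← nrm_eq]
    exact_mod_cast h2

omit [NumberField K] in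
lemma fin_K (e : ZI ≃+* 𝓞 K) (he : ∀ z, Algebra.norm ℤ (e z) = z.norm) (X : ℕ) (Q : 𝓞 K → Prop) :
    {D : 𝓞 K | Algebra.norm ℤ D ≤ X ∧ Q D}.Finite := by
  rw [set_img e he X (fun D => Q (e D)) Q fun D => Iff.rfl]
  apply Set.Finite.image
  refine Set.Finite.subset (ZB X).finite_toSet ?_
  intro D hD
  rw [Finset.mem_coe, mem_ZB]
  exact hD.1

/-- averages over unions of classes -/
theorem avgK (e : ZI ≃+* 𝓞 K) (he : ∀ z, Algebra.norm ℤ (e z) = z.norm)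
    (S : Finset (ℕ × ℕ)) (hS : S.Nonempty) (h4 : ∀ p ∈ S, p.1 < 4) (Q : 𝓞 K → Prop)
    (hQ : ∀ D : ZI, Q (e D) ↔ InS S D) (F : 𝓞 K → ℝ) (g : ZI → ℝ) (c : ℝ)
    (hFg : ∀ p ∈ S, ∀ Δ, PS Δ → F (e (cl p.1 p.2 Δ)) = g Δ)
    (h : Tendsto (fun X : ℕ => (∑ Δ ∈ SB X, g Δ) / ((SB X).card : ℝ)) atTop (𝓝 c)) :
    Tendsto (fun X : ℕ => (∑ᶠ D ∈ {D : 𝓞 K | Algebra.norm ℤ D ≤ X ∧ Q D}, F D) /
      ({D : 𝓞 K | Algebra.norm ℤ D ≤ X ∧ Q D}.ncard : ℝ)) atTop (𝓝 c) := by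
  have e1 : ∀ X : ℕ, ∑ᶠ D ∈ {D : 𝓞 K | Algebra.norm ℤ D ≤ X ∧ Q D}, F D =
      ∑ p ∈ S, ∑ Δ ∈ SB (X / 2 ^ p.2), g Δ := by
    intro X
    rw [set_img e he X (InS S) Q hQ, finsum_mem_image e.injective.injOn, sum_cls S h4]
    refine Finset.sum_congr rfl fun p hp => Finset.sum_congr rfl fun Δ hΔ => ?_
    exact hFg p hp Δ (mem_SB.1 hΔ).2
  have e2 : ∀ X : ℕ, ({D : 𝓞 K | Algebra.norm ℤ D ≤ X ∧ Q D}.ncard : ℝ) =
      ∑ p ∈ S, ((SB (X / 2 ^ p.2)).card : ℝ) := by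
    intro X
    rw [img_ncard e he X (InS S) Q hQ]
    have h1 := count_cls S h4 (fun _ => True) X
    have h2 : {D : ZI | nrm D ≤ X ∧ InS S D} =
        {D : ZI | nrm D ≤ X ∧ (∃ p ∈ S, ∃ Δ, PS Δ ∧ D = cl p.1 p.2 Δ) ∧ True} := by
      ext D
      simp [InS]
    rw [h2, h1]
    push_cast
    refine Finset.sum_congr rfl fun p hp => ?_
    rw [Finset.filter_true]
  simp_rw [e1, e2]
  refine ratio_sum S hS _ _ _ (fun p hp => ?_) fun p hp => ?_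
  · filter_upwards [(div_atTop p.2).eventually_ge_atTop 1] with X hX
    exact_mod_cast SB_pos hX
  · exact h.comp (div_atTop p.2)

end

/-- **The averages.** -/
theorem finA (hD : S_DIS) (K : Type) [Field K] [NumberField K] [IsCyclotomicExtension {4} ℚ K]
    (i : K) (hi : i ^ 2 = -1) (Q : 𝓞 K → Prop)
    (hQ : Q = FamQ ∨ Q = (fun D => Squarefree D ∧ OddI D) ∨ Q = TwP) :
    Tendsto (fun X : ℕ => (∑ᶠ D ∈ {D : 𝓞 K | Algebra.norm ℤ D ≤ X ∧ Q D},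
      ((killed i (D : K)).ncard : ℝ)) /
      ({D : 𝓞 K | Algebra.norm ℤ D ≤ X ∧ Q D}.ncard : ℝ)) atTop (𝓝 2) ∧
    Tendsto (fun X : ℕ => (∑ᶠ D ∈ {D : 𝓞 K | Algebra.norm ℤ D ≤ X ∧ Q D},
      (rk2 (killed i (D : K)).ncard : ℝ)) /
      ({D : 𝓞 K | Algebra.norm ℤ D ≤ X ∧ Q D}.ncard : ℝ)) atTop (𝓝 rho) ∧
    (∀ᶠ X : ℕ in atTop, 0 < ({D : 𝓞 K | Algebra.norm ℤ D ≤ X ∧ Q D}.ncard : ℝ)) ∧
    (∀ X : ℕ, {D : 𝓞 K | Algebra.norm ℤ D ≤ X ∧ Q D}.Finite) := by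
  obtain ⟨e, he⟩ := Rng.exists_e K
  have h4 : ∀ p ∈ S3, p.1 < 4 := by decide
  have hf := facts_s (K := K) e hi
  have key : ∃ S : Finset (ℕ × ℕ), S ⊆ S3 ∧ S.Nonempty ∧ ∀ D : ZI, Q (e D) ↔ InS S D := by
    rcases hQ with rfl | rfl | rfl
    · exact ⟨S3, Finset.Subset.refl _, ⟨(1, 0), by decide⟩, fun D => threeK e D⟩
    · exact ⟨Q4.S1, by decide, ⟨(1, 0), by decide⟩, fun D => oneK e D⟩
    · exact ⟨S2, by decide, ⟨(3, 2), by decide⟩, fun D => twoK e D⟩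
  obtain ⟨S, hS, hne, hQS⟩ := key
  have hk : ∀ p ∈ S, ∀ Δ, PS Δ →
      (killed i ((e (cl p.1 p.2 Δ) : 𝓞 K) : K)).ncard = (Ker Δ).ncard := by
    intro p hp Δ hΔ
    obtain ⟨⟨r, hr⟩, -⟩ := ker Δ hΔ
    rw [hr]
    exact ((hf p (hS hp) Δ hΔ).2 r).2 hr
  refine ⟨?_, ?_, ?_, fun X => fin_K e he X Q⟩
  · exact avgK e he S hne (fun p hp => h4 p (hS hp)) Q hQS _ (fun Δ => ((Ker Δ).ncard : ℝ)) 2
      (fun p hp Δ hΔ => by rw [hk p hp Δ hΔ]) avg_ker2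
  · exact avgK e he S hne (fun p hp => h4 p (hS hp)) Q hQS _ (fun Δ => (rk2 (Ker Δ).ncard : ℝ)) rho
      (fun p hp Δ hΔ => by rw [hk p hp Δ hΔ]) (avg_rk hD)
  · obtain ⟨p, hp⟩ := hne
    have h5 := count_cls S (fun p hp => h4 p (hS hp)) (fun _ => True)
    filter_upwards [(div_atTop p.2).eventually_ge_atTop 1] with X hX
    rw [img_ncard e he X (InS S) Q hQS]
    have h2 : {D : ZI | nrm D ≤ X ∧ InS S D} =
        {D : ZI | nrm D ≤ X ∧ (∃ p ∈ S, ∃ Δ, PS Δ ∧ D = cl p.1 p.2 Δ) ∧ True} := by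
      ext D
      simp [InS]
    have h9 : {D : ZI | nrm D ≤ X ∧ (∃ p ∈ S, ∃ Δ, PS Δ ∧ D = cl p.1 p.2 Δ) ∧ True}.ncard =
        ∑ p ∈ S, (SB (X / 2 ^ p.2)).card := by
      rw [h5 X]
      refine Finset.sum_congr rfl fun p hp => ?_
      rw [Finset.filter_true]
    rw [h2, h9]
    have h6 : 0 < (SB (X / 2 ^ p.2)).card := SB_pos hX
    have h7 : (SB (X / 2 ^ p.2)).card ≤ ∑ p ∈ S, (SB (X / 2 ^ p.2)).card :=
      Finset.single_le_sum (f := fun p : ℕ × ℕ => (SB (X / 2 ^ p.2)).card)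
        (fun _ _ => Nat.zero_le _) hp
    exact_mod_cast lt_of_lt_of_le h6 h7

end Pool.Agent.D0H10.Q5
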