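import Pool.Agent.D0H10.Q5.AvH

/-!
Project Q5: ranks in the family of quartic twists over `ℚ(i)`.
-/

set_option autoImplicit false

open NumberField IsDedekindDomain WeierstrassCurve Filter
open scoped Topology Classical

namespace Pool.Agent.D0H10.Q5

open H385 (ZI RQ im1 nrm)
open Pool.Agent.TH841.NF.D (Sha)
open Pool.Agent.Y699 (SB ZB mem_ZB mem_SB PS pi1 pi1_prime)
open Pool.Agent.D0H10.Q4 hiding S1
open Pool.Agent.Y682 (LL1 Sq MP S1)
open Pool.Agent.D0H10.Q5.Inf (killed SelInf E1)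
open Pool.Agent.Y715.Z (em0 em0_ne)

/-- lower bounds from the law -/
theorem low_of {α : Type} (A : ℕ → Set α) (hfin : ∀ X, (A X).Finite) (k : α → ℕ)
    (M : ℕ → ℝ) (hM : ∀ᶠ X in atTop, 0 < M X) (c : ℕ → ℝ)
    (ht : ∀ r : ℕ, Tendsto (fun X => ({D | D ∈ A X ∧ k D = 2 ^ r}.ncard : ℝ) / M X) atTop (𝓝 (c r)))
    (P : α → Prop) (R : ℕ) (hP : ∀ X, ∀ D ∈ A X, ∀ r ≤ R, k D = 2 ^ r → P D) :
    ∀ a : ℝ, a < ∑ r ∈ Finset.range (R + 1), c r →
      ∀ᶠ X in atTop, a < ({D | D ∈ A X ∧ P D}.ncard : ℝ) / M X := by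
  intro a ha
  have h1 : Tendsto (fun X => ∑ r ∈ Finset.range (R + 1),
      ({D | D ∈ A X ∧ k D = 2 ^ r}.ncard : ℝ) / M X) atTop (𝓝 (∑ r ∈ Finset.range (R + 1), c r)) :=
    tendsto_finsetSum _ fun r _ => ht r
  have hcard : ∀ (X : ℕ) (T : α → Prop) [DecidablePred T], {D | D ∈ A X ∧ T D}.ncard =
      ((hfin X).toFinset.filter T).card := by
    intro X T _
    rw [← Set.ncard_coe_finset]
    congr 1
    ext D
    simp
  filter_upwards [h1.eventually (lt_mem_nhds ha), hM] with X hX hMX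
  refine lt_of_lt_of_le hX ?_
  rw [← Finset.sum_div]
  apply div_le_div_of_nonneg_right _ hMX.le
  have h2 : ∑ r ∈ Finset.range (R + 1), ((hfin X).toFinset.filter fun D => k D = 2 ^ r).card ≤
      ((hfin X).toFinset.filter P).card := by
    simp only [Finset.card_filter]
    rw [Finset.sum_comm]
    refine Finset.sum_le_sum fun D hD => ?_
    have hDA : D ∈ A X := (hfin X).mem_toFinset.1 hD
    by_cases h : ∃ r, r ≤ R ∧ k D = 2 ^ r
    · obtain ⟨r, hr, hk⟩ := h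
      rw [if_pos (hP X D hDA r hr hk), Finset.sum_eq_single r]
      · rw [if_pos hk]
      · intro s _ hs
        rw [if_neg]
        intro h3
        rw [hk] at h3
        exact hs (Nat.pow_right_injective le_rfl h3).symm
      · intro h3
        exact absurd (Finset.mem_range.2 (by omega)) h3
    · rw [Finset.sum_eq_zero]
      · exact Nat.zero_le _
      · intro r hr
        rw [if_neg]
        intro h3
        exact h ⟨r, by rw [Finset.mem_range] at hr; omega, h3⟩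
  have h3 : ∑ r ∈ Finset.range (R + 1), ({D | D ∈ A X ∧ k D = 2 ^ r}.ncard : ℝ) =
      ((∑ r ∈ Finset.range (R + 1), ((hfin X).toFinset.filter fun D => k D = 2 ^ r).card : ℕ) : ℝ) := by
    push_cast
    exact Finset.sum_congr rfl fun r _ => by rw [hcard]
  rw [h3, hcard]
  exact_mod_cast h2

/-- the rank bound for one curve -/
lemma rank_le {K : Type} [Field K] [NumberField K] {i : K} {D : 𝓞 K} (h : FactS i D) {r : ℕ}
    (hr : (killed i (D : K)).ncard = 2 ^ r) :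
    Module.finrank ℤ (Cv (D : K)).toAffine.Point ≤ 2 * r := by
  obtain ⟨⟨s, hs, hfin, hle⟩, -, -⟩ := h
  have h1 : s = r := Nat.pow_right_injective le_rfl (hs.symm.trans hr)
  subst h1
  have h2 : 1 ≤ Nat.card {x : Sha (E1 (D : K)) // 2 • x = 0} := by
    have := hfin
    have : Nonempty {x : Sha (E1 (D : K)) // 2 • x = 0} := ⟨⟨0, smul_zero _⟩⟩
    exact Nat.card_pos
  have h3 : 2 ^ (Module.finrank ℤ (E1 (D : K)).toAffine.Point) ≤ 2 ^ (2 * s) := by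
    rw [pow_mul]
    refine le_trans ?_ hle
    exact Nat.le_mul_of_pos_right _ (by omega)
  exact (Nat.pow_le_pow_iff_right (by norm_num)).1 h3

section
variable {K : Type} [Field K] [NumberField K]

omit [NumberField K] in
lemma fam_of {Q : 𝓞 K → Prop} (hQ : Q = FamQ ∨ Q = (fun D => Squarefree D ∧ OddI D) ∨ Q = TwP)
    {D : 𝓞 K} (h : Q D) : FamQ D := by
  rcases hQ with rfl | rfl | rfl
  · exact h
  · exact Or.inl h
  · exact Or.inr h

omit [NumberField K] in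
lemma set_and (X : ℕ) (Q P : 𝓞 K → Prop) :
    {D : 𝓞 K | Algebra.norm ℤ D ≤ X ∧ Q D ∧ P D} =
      {D | D ∈ {D : 𝓞 K | Algebra.norm ℤ D ≤ X ∧ Q D} ∧ P D} := by
  ext D
  exact (and_assoc).symm

end

/-- **The ranks.** -/
theorem finRank (hLA : S_LA2) (hs : S_SUM) (K : Type) [Field K] [NumberField K]
    [IsCyclotomicExtension {4} ℚ K] :
    (∀ Q : 𝓞 K → Prop, (Q = FamQ ∨ Q = (fun D => Squarefree D ∧ OddI D) ∨ Q = TwP) →
      (∀ R : ℕ, ∀ a : ℝ, a < ∑ r ∈ Finset.range (R + 1), prob r → ∀ᶠ X : ℕ in atTop,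
        a < ({D : 𝓞 K | Algebra.norm ℤ D ≤ X ∧ Q D ∧
          Module.finrank ℤ (Cv (D : K)).toAffine.Point ≤ 2 * R}.ncard : ℝ) /
          ({D : 𝓞 K | Algebra.norm ℤ D ≤ X ∧ Q D}.ncard : ℝ)) ∧
      (∀ a : ℝ, a < prob 0 → ∀ᶠ X : ℕ in atTop,
        a < ({D : 𝓞 K | Algebra.norm ℤ D ≤ X ∧ Q D ∧ RkZ (Cv (D : K))}.ncard : ℝ) /
          ({D : 𝓞 K | Algebra.norm ℤ D ≤ X ∧ Q D}.ncard : ℝ)) ∧
      (∀ᶠ X : ℕ in atTop, (∑ᶠ D ∈ {D : 𝓞 K | Algebra.norm ℤ D ≤ X ∧ Q D},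
          (Module.finrank ℤ (Cv (D : K)).toAffine.Point : ℝ)) /
          ({D : 𝓞 K | Algebra.norm ℤ D ≤ X ∧ Q D}.ncard : ℝ) < 1.53)) ∧
    (∀ R : ℕ, ∀ a : ℝ, a < 1 / 3 * ∑ r ∈ Finset.range (R + 1), prob r → ∀ᶠ X : ℕ in atTop,
        a < ({D : 𝓞 K | Algebra.norm ℤ D ≤ X ∧ (Squarefree D ∧ OddI D) ∧
          Module.finrank ℤ (Cv (D : K)).toAffine.Point ≤ 2 * R}.ncard : ℝ) /
          ({D : 𝓞 K | Algebra.norm ℤ D ≤ X ∧ Squarefree D}.ncard : ℝ)) ∧
    (∀ a : ℝ, a < 1 / 3 * prob 0 → ∀ᶠ X : ℕ in atTop,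
        a < ({D : 𝓞 K | Algebra.norm ℤ D ≤ X ∧ (Squarefree D ∧ OddI D) ∧
          RkZ (Cv (D : K))}.ncard : ℝ) /
          ({D : 𝓞 K | Algebra.norm ℤ D ≤ X ∧ Squarefree D}.ncard : ℝ)) := by
  obtain ⟨i, hi⟩ : ∃ i : K, i ^ 2 = -1 := by
    obtain ⟨e, -⟩ := Rng.exists_e K
    refine ⟨((e im1 : 𝓞 K) : K), ?_⟩
    have h1 : (e im1) ^ 2 = -1 := by
      rw [← map_pow, show (im1 : ZI) ^ 2 = -1 by decide, map_neg, map_one]
    have h2 := congrArg (fun x : 𝓞 K => (x : K)) h1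
    simpa using h2
  obtain ⟨f1, f2, f3, f4, f5⟩ := finS hLA K i hi
  obtain ⟨g1, -, -, -, -⟩ := finalQi bk bd denK sqfK K
  have hFz : ∀ D : 𝓞 K, FamQ D → (killed i (D : K)).ncard = 1 → RkZ (Cv (D : K)) := by
    intro D hD h
    obtain ⟨-, h2, h3⟩ := f1 D hD
    exact (g1 D hD).2 (h3.1 (h2.1 h))
  have hlaw : ∀ Q : 𝓞 K → Prop, (Q = FamQ ∨ Q = (fun D => Squarefree D ∧ OddI D) ∨ Q = TwP) →
      ∀ r : ℕ, Tendsto (fun X : ℕ =>
      ({D | D ∈ {D : 𝓞 K | Algebra.norm ℤ D ≤ X ∧ Q D} ∧ (killed i (D : K)).ncard = 2 ^ r}.ncard : ℝ) /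
        ({D : 𝓞 K | Algebra.norm ℤ D ≤ X ∧ Q D}.ncard : ℝ)) atTop (𝓝 (prob r)) := by
    intro Q hQ r
    simp_rw [← set_and]
    rcases hQ with rfl | rfl | rfl
    · exact f2 r
    · exact f3 r
    · exact f4 r
  have e0 : ∑ r ∈ Finset.range (0 + 1), prob r = prob 0 := by simp
  refine ⟨fun Q hQ => ?_, ?_, ?_⟩
  · obtain ⟨-, h2, h3, h4⟩ := finA (dis hLA) K i hi Q hQ
    have hQF : ∀ D : 𝓞 K, Q D → FamQ D := fun D h => fam_of hQ h
    refine ⟨fun R a ha => ?_, fun a ha => ?_, ?_⟩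
    · have h5 := low_of (fun X : ℕ => {D : 𝓞 K | Algebra.norm ℤ D ≤ X ∧ Q D}) h4
        (fun D => (killed i (D : K)).ncard) _ h3 prob (hlaw Q hQ)
        (fun D => Module.finrank ℤ (Cv (D : K)).toAffine.Point ≤ 2 * R) R
        (fun X D hD r hr hk => (rank_le (f1 D (hQF D hD.2)) hk).trans (by omega)) a ha
      filter_upwards [h5] with X hX
      rw [set_and]
      exact hX
    · rw [← e0] at ha
      have h5 := low_of (fun X : ℕ => {D : 𝓞 K | Algebra.norm ℤ D ≤ X ∧ Q D}) h4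
        (fun D => (killed i (D : K)).ncard) _ h3 prob (hlaw Q hQ)
        (fun D => RkZ (Cv (D : K))) 0
        (fun X D hD r hr hk => hFz D (hQF D hD.2) (by
          rw [hk, Nat.le_zero.1 hr, pow_zero])) a ha
      filter_upwards [h5] with X hX
      rw [set_and]
      exact hX
    · have h5 : ∀ᶠ X : ℕ in atTop, (∑ᶠ D ∈ {D : 𝓞 K | Algebra.norm ℤ D ≤ X ∧ Q D},
          (rk2 (killed i (D : K)).ncard : ℝ)) /
          ({D : 𝓞 K | Algebra.norm ℤ D ≤ X ∧ Q D}.ncard : ℝ) < 0.765 :=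
        h2.eventually (gt_mem_nhds (rho_lt hs))
      filter_upwards [h5, h3] with X hX0 hpos
      have hX : (∑ᶠ D ∈ {D : 𝓞 K | Algebra.norm ℤ D ≤ X ∧ Q D},
          (rk2 (killed i (D : K)).ncard : ℝ)) /
          ({D : 𝓞 K | Algebra.norm ℤ D ≤ X ∧ Q D}.ncard : ℝ) < 0.765 := hX0
      show (∑ᶠ D ∈ {D : 𝓞 K | Algebra.norm ℤ D ≤ X ∧ Q D},
          (Module.finrank ℤ (Cv (D : K)).toAffine.Point : ℝ)) /
          ({D : 𝓞 K | Algebra.norm ℤ D ≤ X ∧ Q D}.ncard : ℝ) < 1.53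
      rw [div_lt_iff₀ hpos] at hX ⊢
      have h6 : ∀ F : 𝓞 K → ℝ, ∑ᶠ D ∈ {D : 𝓞 K | Algebra.norm ℤ D ≤ X ∧ Q D}, F D =
          ∑ D ∈ (h4 X).toFinset, F D := fun F => finsum_mem_eq_finite_toFinset_sum F (h4 X)
      rw [h6] at hX ⊢
      have h7 : ∑ D ∈ (h4 X).toFinset, (Module.finrank ℤ (Cv (D : K)).toAffine.Point : ℝ) ≤
          ∑ D ∈ (h4 X).toFinset, 2 * (rk2 (killed i (D : K)).ncard : ℝ) := by
        refine Finset.sum_le_sum fun D hD => ?_
        have hD' := (h4 X).mem_toFinset.1 hD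
        obtain ⟨⟨r, hr, -, -⟩, -, -⟩ := f1 D (hQF D hD'.2)
        have h8 := rank_le (f1 D (hQF D hD'.2)) hr
        rw [hr, rk2_pow]
        exact_mod_cast h8
      rw [← Finset.mul_sum] at h7
      linarith
  · intro R a ha
    have hpos : ∀ᶠ X : ℕ in atTop, (0 : ℝ) <
        ({D : 𝓞 K | Algebra.norm ℤ D ≤ X ∧ Squarefree D}.ncard : ℝ) := by
      obtain ⟨-, -, h3, -⟩ := finA (dis hLA) K i hi _ (Or.inr (Or.inl rfl))
      obtain ⟨e, he⟩ := Rng.exists_e K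
      filter_upwards [h3] with X hX
      refine lt_of_lt_of_le hX ?_
      have h9 := Set.ncard_le_ncard (s := {D : 𝓞 K | Algebra.norm ℤ D ≤ X ∧ (Squarefree D ∧ OddI D)})
        (t := {D : 𝓞 K | Algebra.norm ℤ D ≤ X ∧ Squarefree D}) (fun D hD => ⟨hD.1, hD.2.1⟩)
        (fin_K e he X _)
      exact_mod_cast h9
    obtain ⟨-, -, -, h4⟩ := finA (dis hLA) K i hi _ (Or.inr (Or.inl rfl))
    have h5 := low_of (fun X : ℕ => {D : 𝓞 K | Algebra.norm ℤ D ≤ X ∧ (Squarefree D ∧ OddI D)}) h4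
        (fun D => (killed i (D : K)).ncard) _ hpos (fun r => 1 / 3 * prob r) (fun r => by
          simp_rw [← set_and]
          exact f5 r)
        (fun D => Module.finrank ℤ (Cv (D : K)).toAffine.Point ≤ 2 * R) R
        (fun X D hD r hr hk => (rank_le (f1 D (Or.inl hD.2)) hk).trans (by omega)) a
        (by rw [← Finset.mul_sum]; exact ha)
    filter_upwards [h5] with X hX
    rw [set_and]
    exact hX
  · intro a ha
    have hpos : ∀ᶠ X : ℕ in atTop, (0 : ℝ) <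
        ({D : 𝓞 K | Algebra.norm ℤ D ≤ X ∧ Squarefree D}.ncard : ℝ) := by
      obtain ⟨-, -, h3, -⟩ := finA (dis hLA) K i hi _ (Or.inr (Or.inl rfl))
      obtain ⟨e, he⟩ := Rng.exists_e K
      filter_upwards [h3] with X hX
      refine lt_of_lt_of_le hX ?_
      have h9 := Set.ncard_le_ncard (s := {D : 𝓞 K | Algebra.norm ℤ D ≤ X ∧ (Squarefree D ∧ OddI D)})
        (t := {D : 𝓞 K | Algebra.norm ℤ D ≤ X ∧ Squarefree D}) (fun D hD => ⟨hD.1, hD.2.1⟩)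
        (fin_K e he X _)
      exact_mod_cast h9
    obtain ⟨-, -, -, h4⟩ := finA (dis hLA) K i hi _ (Or.inr (Or.inl rfl))
    have h5 := low_of (fun X : ℕ => {D : 𝓞 K | Algebra.norm ℤ D ≤ X ∧ (Squarefree D ∧ OddI D)}) h4
        (fun D => (killed i (D : K)).ncard) _ hpos (fun r => 1 / 3 * prob r) (fun r => by
          simp_rw [← set_and]
          exact f5 r)
        (fun D => RkZ (Cv (D : K))) 0
        (fun X D hD r hr hk => hFz D (Or.inl hD.2) (by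
          rw [hk, Nat.le_zero.1 hr, pow_zero])) a
        (by rw [← Finset.mul_sum, e0]; exact ha)
    filter_upwards [h5] with X hX
    rw [set_and]
    exact hX

/-- **The first kind is one third of all squarefree elements.** -/
theorem third (hLA : S_LA2) (K : Type) [Field K] [NumberField K] [IsCyclotomicExtension {4} ℚ K] :
    Tendsto (fun X : ℕ => ({D : 𝓞 K | Algebra.norm ℤ D ≤ X ∧ (Squarefree D ∧ OddI D)}.ncard : ℝ) /
      ({D : 𝓞 K | Algebra.norm ℤ D ≤ X ∧ Squarefree D}.ncard : ℝ)) atTop (𝓝 (1 / 3)) := by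
  obtain ⟨i, hi⟩ : ∃ i : K, i ^ 2 = -1 := by
    obtain ⟨e, -⟩ := Rng.exists_e K
    refine ⟨((e im1 : 𝓞 K) : K), ?_⟩
    have h1 : (e im1) ^ 2 = -1 := by
      rw [← map_pow, show (im1 : ZI) ^ 2 = -1 by decide, map_neg, map_one]
    have h2 := congrArg (fun x : 𝓞 K => (x : K)) h1
    simpa using h2
  obtain ⟨-, -, f3, -, f5⟩ := finS hLA K i hi
  have hp : 0 < prob 0 := by
    rw [prob_eq]
    exact mul_pos cc_pos (Pr_pos 0)
  have h1 := (f5 0).div (f3 0) hp.ne'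
  have e1 : 1 / 3 * prob 0 / prob 0 = 1 / 3 := by field_simp
  rw [e1] at h1
  refine h1.congr' ?_
  filter_upwards [(f3 0).eventually (lt_mem_nhds hp)] with X hX
  simp only [Pi.div_apply]
  have h2 : ({D : 𝓞 K | Algebra.norm ℤ D ≤ X ∧ (Squarefree D ∧ OddI D) ∧
      (killed i (D : K)).ncard = 2 ^ 0}.ncard : ℝ) ≠ 0 := by
    intro h
    rw [h, zero_div] at hX
    exact lt_irrefl _ hX
  have h3 : ({D : 𝓞 K | Algebra.norm ℤ D ≤ X ∧ (Squarefree D ∧ OddI D)}.ncard : ℝ) ≠ 0 := by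
    intro h
    rw [h, div_zero] at hX
    exact lt_irrefl _ hX
  rw [div_div_div_cancel_left' _ _ h2]

end Pool.Agent.D0H10.Q5
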