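import Pool.Agent.D0H10.Q5.StmL

/-!
Project Q5, U5b: the count in a box for the number of the solutions (after `D0H45/QK/Box.lean` of helper45).
-/

open scoped Classical

set_option autoImplicit false
set_option linter.unusedSectionVars false
set_option linter.unusedVariables false

namespace Pool.Agent.D0H10.Q5

open Finset
open Pool.Agent.Y703.CQ (sg prs)
open Pool.Agent.D0H45.QK.EQ (HB)
open Pool.Agent.D0H45.QK

/-- the linear algebra for one `r` -/
def LAr (r : ℕ) (K : ℝ) : Prop := ∀ (U J : Type) [Fintype U] [Fintype J] [LinearOrder J]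
  (U1 : Finset U) (J1 : Finset J), (∃ l, l ∉ J1) → ∀ (A : U → U → ZMod 2) (B : U → J → ZMod 2)
  (C : J → U → ZMod 2) (f : U → ZMod 2) (g : J → ZMod 2),
  (∀ u ∈ U1, ∀ v ∈ U1, A u v = A v u) → (∀ u ∈ U1, ∀ k ∈ J1, B u k = C k u) →
  (∀ w : U → ZMod 2, (∀ u, u ∉ U1 → w u = 0) → (∃ u, w u ≠ 0) → ∃ k ∈ J1, ∑ u, w u * C k u ≠ 0) →
  |((univ.filter fun α : prs J1 → ZMod 2 =>
      nA U1 J1 A B C (Pool.Agent.Y703.CQ.ext α) f g = 2 ^ r).card : ℝ) /
      2 ^ (prs J1).card - prob r| ≤ K * (4 ^ U1.card / 2 ^ J1.card)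

/-- the solution spaces of dimension `r`, as a property of the completion -/
def QQ {U J : Type} [Fintype U] [Fintype J] [LinearOrder J] (U1 : Finset U) (J1 : Finset J)
    (A : U → U → ZMod 2) (B : U → J → ZMod 2) (C : J → U → ZMod 2) (f : U → ZMod 2) (g : J → ZMod 2)
    (r : ℕ) (α : prs J1 → ZMod 2) : Prop := nA U1 J1 A B C (Pool.Agent.Y703.CQ.ext α) f g = 2 ^ r

lemma filter_inst {β : Type} (s : Finset β) (p : β → Prop) (h1 h2 : DecidablePred p) :
    @Finset.filter β p h1 s = @Finset.filter β p h2 s := by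
  ext x
  simp only [Finset.mem_filter]

variable {α : Type} {s : α → α → ZMod 2} {t : α → ZMod 2}

/-- the number of the solutions of a set -/
noncomputable def nS (s : α → α → ZMod 2) (t : α → ZMod 2) (S : Finset α) : ℕ :=
  Nat.card {v : S → ZMod 2 // ∀ p : S, ∑ q : S, s p q * (v q + v p) + t p * v p = 0}

/-- the sets whose solution space has dimension `r` -/
def Gr (s : α → α → ZMod 2) (t : α → ZMod 2) (r : ℕ) (S : Finset α) : Prop := nS s t S = 2 ^ r

section
variable {ι : Type} [Fintype ι] [LinearOrder ι] {S₀ : Finset α} {p : ι → α}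

lemma lh_coe {S : Finset α} (v : S → ZMod 2) (q : S) :
    lh s t S (ez0 v) q = ∑ q' : S, s q q' * (v q' + v q) + t q * v q := by
  unfold lh
  rw [← Finset.sum_coe_sort S, ez0_coe]
  congr 1
  exact Finset.sum_congr rfl fun q' _ => by rw [ez0_coe]

/-- the solutions of the two systems -/
theorem ns_eq {P : α → Prop} (hs : ∀ p q, P p → P q → s p q = s q p)
    (hs0 : ∀ p, P p → s p p = 0) (hp : Function.Injective p) (hpr : ∀ i, P (p i))
    (h₀ : ∀ u ∈ S₀, P u) (hd : ∀ i, p i ∉ S₀) (i₀ : ι) :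
    nS s t (S₀ ∪ univ.image p) = nA (univ : Finset (Option S₀)) (univ.erase i₀)
      (mA s t) (mB fun i => lb s t S₀ (p i)) (mC fun i => lb s t S₀ (p i))
      (Pool.Agent.Y703.CQ.ext fun e : prs (univ.erase i₀) => s (p e.1.1) (p e.1.2))
      (fun _ => 0) (fun _ => 0) := by
  have hS : ∀ q ∈ S₀ ∪ univ.image p, P q := by
    intro q hq
    rw [Finset.mem_union, Finset.mem_image] at hq
    rcases hq with hq | ⟨k, -, rfl⟩
    · exact h₀ q hq
    · exact hpr k
  have hsum := sum_lh (t := t) hs _ hS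
  have hm0 : ∀ u : S₀, (u : α) ∈ S₀ ∪ univ.image p := fun u => Finset.mem_union_left _ u.2
  have hm1 : ∀ l, p l ∈ S₀ ∪ univ.image p := fun l =>
    Finset.mem_union_right _ (Finset.mem_image_of_mem _ (Finset.mem_univ _))
  -- the map
  let F : (↥(S₀ ∪ univ.image p) → ZMod 2) → (Option S₀ → ZMod 2) × (ι → ZMod 2) := fun v =>
    (fun o => match o with
      | some u => ez0 v u + ez0 v (p i₀)
      | none => ez0 v (p i₀), fun l => ez0 v (p l) + ez0 v (p i₀))
  have hF : ∀ v : ↥(S₀ ∪ univ.image p) → ZMod 2,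
      (∀ q : ↥(S₀ ∪ univ.image p), ∑ q' : ↥(S₀ ∪ univ.image p), s q q' * (v q' + v q) + t q * v q = 0) ↔
      ((∀ u, u ∉ (univ : Finset (Option S₀)) → (F v).1 u = 0) ∧
      (∀ k, k ∉ (univ.erase i₀ : Finset ι) → (F v).2 k = 0) ∧
      (∀ u ∈ (univ : Finset (Option S₀)), ∑ w, mA s t u w * ((F v).1 w + (F v).1 u) +
        ∑ l, mB (fun i => lb s t S₀ (p i)) u l * ((F v).2 l + (F v).1 u) + 0 * (F v).1 u = 0) ∧
      ∀ k ∈ (univ.erase i₀ : Finset ι), ∑ u, mC (fun i => lb s t S₀ (p i)) k u *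
        ((F v).1 u + (F v).2 k) + ∑ l, Pool.Agent.Y703.CQ.ext
          (fun e : prs (univ.erase i₀) => s (p e.1.1) (p e.1.2)) k l * ((F v).2 l + (F v).2 k) +
          0 * (F v).2 k = 0) := by
    intro v
    set x := ez0 v with hx
    set r := x (p i₀) with hr
    have eX : ∀ u : S₀, (F v).1 (some u) = x u + r := fun u => rfl
    have eX0 : (F v).1 none = r := rfl
    have eY : ∀ l, (F v).2 l = x (p l) + r := fun l => rfl
    have hlh : ∀ q : ↥(S₀ ∪ univ.image p), lh s t (S₀ ∪ univ.image p) x q =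
        ∑ q' : ↥(S₀ ∪ univ.image p), s q q' * (v q' + v q) + t q * v q := fun q => lh_coe v q
    constructor
    · intro hv
      have hv' : ∀ q ∈ S₀ ∪ univ.image p, lh s t (S₀ ∪ univ.image p) x q = 0 := fun q hq =>
        (hlh ⟨q, hq⟩).trans (hv ⟨q, hq⟩)
      refine ⟨fun u hu => absurd (Finset.mem_univ _) hu, fun k hk => ?_, fun u _ => ?_, fun k hk => ?_⟩
      · have hk' : k = i₀ := by
          by_contra hne
          exact hk (Finset.mem_erase.2 ⟨hne, Finset.mem_univ _⟩)
        rw [hk', eY, ← hr]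
        exact two_add r
      · rcases u with _ | u
        · rw [eq_0 hp hd x r (F v).1 (F v).2 eX eX0 eY, ← hsum x]
          exact Finset.sum_eq_zero hv'
        · rw [eq_u hp hd x r (F v).1 (F v).2 eX eX0 eY u]
          exact hv' _ (hm0 u)
      · rw [eq_k hp hs hs0 hpr hd x r (F v).1 (F v).2 eX eX0 eY k hk]
        exact hv' _ (hm1 k)
    · rintro ⟨-, -, h1, h2⟩
      have g1 : ∀ u : S₀, lh s t (S₀ ∪ univ.image p) x u = 0 := by
        intro u
        rw [← eq_u hp hd x r (F v).1 (F v).2 eX eX0 eY u]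
        exact h1 (some u) (Finset.mem_univ _)
      have g2 : ∀ k, k ≠ i₀ → lh s t (S₀ ∪ univ.image p) x (p k) = 0 := by
        intro k hk
        have hk' : k ∈ (univ.erase i₀ : Finset ι) := Finset.mem_erase.2 ⟨hk, Finset.mem_univ _⟩
        rw [← eq_k hp hs hs0 hpr hd x r (F v).1 (F v).2 eX eX0 eY k hk']
        exact h2 k hk'
      have g0 : ∑ q ∈ S₀ ∪ univ.image p, t q * x q = 0 := by
        rw [← eq_0 hp hd x r (F v).1 (F v).2 eX eX0 eY]
        exact h1 none (Finset.mem_univ _)
      have g3 : lh s t (S₀ ∪ univ.image p) x (p i₀) = 0 := by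
        have h3 := hsum x
        rw [g0, sum_un hp hd] at h3
        rw [Finset.sum_eq_zero fun u _ => g1 u, zero_add,
          Finset.sum_eq_single i₀ (fun k _ hk => g2 k hk)
            (fun h => absurd (Finset.mem_univ _) h)] at h3
        exact h3
      intro q
      rw [← hlh q]
      have hq := q.2
      rw [Finset.mem_union, Finset.mem_image] at hq
      rcases hq with hq | ⟨k, -, hk⟩
      · exact g1 ⟨q.1, hq⟩
      · rw [← hk]
        by_cases hki : k = i₀
        · rw [hki]
          exact g3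
        · exact g2 k hki
  let T : (Option S₀ → ZMod 2) × (ι → ZMod 2) → Prop := fun z =>
      ((∀ u, u ∉ (univ : Finset (Option S₀)) → z.1 u = 0) ∧
      (∀ k, k ∉ (univ.erase i₀ : Finset ι) → z.2 k = 0) ∧
      (∀ u ∈ (univ : Finset (Option S₀)), ∑ w, mA s t u w * (z.1 w + z.1 u) +
        ∑ l, mB (fun i => lb s t S₀ (p i)) u l * (z.2 l + z.1 u) + 0 * z.1 u = 0) ∧
      ∀ k ∈ (univ.erase i₀ : Finset ι), ∑ u, mC (fun i => lb s t S₀ (p i)) k u *
        (z.1 u + z.2 k) + ∑ l, Pool.Agent.Y703.CQ.ext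
          (fun e : prs (univ.erase i₀) => s (p e.1.1) (p e.1.2)) k l * (z.2 l + z.2 k) +
          0 * z.2 k = 0)
  show Nat.card {v : ↥(S₀ ∪ univ.image p) → ZMod 2 // ∀ q : ↥(S₀ ∪ univ.image p),
    ∑ q' : ↥(S₀ ∪ univ.image p), s q q' * (v q' + v q) + t q * v q = 0} = Nat.card {z // T z}
  refine Nat.card_congr (Equiv.ofBijective
    (fun v => (⟨F v.1, (hF v.1).1 v.2⟩ : {z // T z})) ⟨?_, ?_⟩)
  · rintro ⟨v, hv⟩ ⟨v', hv'⟩ h
    have h1 : F v = F v' := congrArg Subtype.val h
    have h2 : ez0 v (p i₀) = ez0 v' (p i₀) := congrFun (congrArg Prod.fst h1) none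
    have h3 : ∀ u : S₀, ez0 v u + ez0 v (p i₀) = ez0 v' u + ez0 v' (p i₀) := fun u =>
      congrFun (congrArg Prod.fst h1) (some u)
    have h4 : ∀ l, ez0 v (p l) + ez0 v (p i₀) = ez0 v' (p l) + ez0 v' (p i₀) := fun l =>
      congrFun (congrArg Prod.snd h1) l
    apply Subtype.ext
    funext q
    have hq := q.2
    rw [Finset.mem_union, Finset.mem_image] at hq
    show v q = v' q
    rw [← ez0_coe v q, ← ez0_coe v' q]
    rcases hq with hq | ⟨k, -, hk⟩
    · have h5 := h3 ⟨q.1, hq⟩
      rw [h2] at h5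
      exact add_right_cancel h5
    · rw [← hk]
      have h5 := h4 k
      rw [h2] at h5
      exact add_right_cancel h5
  · rintro ⟨⟨X, Y⟩, hq⟩
    let v : ↥(S₀ ∪ univ.image p) → ZMod 2 := fun q =>
      if h : q.1 ∈ S₀ then X (some ⟨q.1, h⟩) + X none else
      if h : ∃ l, p l = q.1 then Y h.choose + X none else 0
    have hY0 : Y i₀ = 0 := hq.2.1 i₀ (Finset.notMem_erase _ _)
    have e1 : ∀ u : S₀, ez0 v u = X (some u) + X none := by
      intro u
      have h1 : ez0 v u = v ⟨u, hm0 u⟩ := ez0_coe v ⟨u, hm0 u⟩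
      rw [h1]
      simp only [v]
      rw [dif_pos u.2]
    have e2 : ∀ l, ez0 v (p l) = Y l + X none := by
      intro l
      have h1 : ez0 v (p l) = v ⟨p l, hm1 l⟩ := ez0_coe v ⟨p l, hm1 l⟩
      have hex : ∃ l', p l' = p l := ⟨l, rfl⟩
      rw [h1]
      simp only [v]
      rw [dif_neg (hd l), dif_pos hex]
      congr 2
      exact hp hex.choose_spec
    have e3 : ez0 v (p i₀) = X none := by rw [e2, hY0, zero_add]
    have hFv : F v = (X, Y) := by
      apply Prod.ext
      · funext o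
        rcases o with _ | u
        · exact e3
        · show ez0 v u + ez0 v (p i₀) = X (some u)
          rw [e1, e3, add_assoc, two_add, add_zero]
      · funext l
        show ez0 v (p l) + ez0 v (p i₀) = Y l
        rw [e2, e3, add_assoc, two_add, add_zero]
    refine ⟨⟨v, (hF v).2 ?_⟩, ?_⟩
    · rw [hFv]
      exact hq
    · exact Subtype.ext hFv

end

/-- **The count in a box.** -/
theorem t_BOXr {P : α → Prop} (hs : ∀ p q, P p → P q → s p q = s q p)
    (hs0 : ∀ p, P p → s p p = 0) {r : ℕ} {KK : ℝ} (hK : 0 ≤ KK) (hLA : LAr r KK) (ι : Type) [Fintype ι] [LinearOrder ι]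
    (C : ι → Finset α) (X : ι → ℕ) (κ : ℝ) (S₀ : Finset α) (hκ : 0 ≤ κ)
    (hCX : ∀ i, (C i).card ≤ X i) (hHB : HB s univ C X κ) (hS₀ : ∀ u ∈ S₀, P u)
    (hC : ∀ i, ∀ p ∈ C i, P p ∧ p ∉ S₀) (hdis : ∀ i l, i ≠ l → Disjoint (C i) (C l))
    (hcard : S₀.card + 1 < Fintype.card ι) :
    |(((Fintype.piFinset C).filter fun p => Nd s t S₀ (univ.image p) ∧
        Gr s t r (S₀ ∪ univ.image p)).card : ℝ) -
      prob r * (((Fintype.piFinset C).filter fun p => Nd s t S₀ (univ.image p)).card : ℝ)| ≤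
    KK * (4 ^ (S₀.card + 1) / 2 ^ (Fintype.card ι - 1)) *
      (((Fintype.piFinset C).filter fun p => Nd s t S₀ (univ.image p)).card : ℝ) +
    2 ^ ((2 * S₀.card + 1) * Fintype.card ι + Fintype.card ι * Fintype.card ι) *
      (κ * ∏ j, (X j : ℝ)) := by
  set cc : ℝ := KK * (4 ^ (S₀.card + 1) / 2 ^ (Fintype.card ι - 1)) with hcc
  set R : ℝ := 2 ^ (Fintype.card ι * Fintype.card ι) * (κ * ∏ j, (X j : ℝ)) with hR
  have hcc0 : 0 ≤ cc := by positivity
  have hX0 : 0 ≤ κ * ∏ j, (X j : ℝ) :=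
    mul_nonneg hκ (Finset.prod_nonneg fun j _ => by positivity)
  have hR0 : 0 ≤ R := mul_nonneg (by positivity) hX0
  have hRp : ∀ J1 : Finset ι, (2 : ℝ) ^ (prs J1).card * (κ * ∏ j, (X j : ℝ)) ≤ R := by
    intro J1
    rw [hR]
    exact mul_le_mul_of_nonneg_right (pow_le_pow_right₀ (by norm_num) (prs_card J1)) hX0
  -- facts on tuples
  have hinj : ∀ p ∈ Fintype.piFinset C, Function.Injective p := by
    intro p hp i j hij
    rw [Fintype.mem_piFinset] at hp
    by_contra hne
    have h1 := Finset.disjoint_left.1 (hdis i j hne) (hp i)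
    rw [hij] at h1
    exact h1 (hp j)
  have hd : ∀ p ∈ Fintype.piFinset C, ∀ i, p i ∉ S₀ := by
    intro p hp i
    rw [Fintype.mem_piFinset] at hp
    exact (hC i _ (hp i)).2
  have hpr : ∀ p ∈ Fintype.piFinset C, ∀ i, P (p i) := by
    intro p hp i
    rw [Fintype.mem_piFinset] at hp
    exact (hC i _ (hp i)).1
  have hU1 : (univ : Finset (Option S₀)).card = S₀.card + 1 := by
    rw [Finset.card_univ, Fintype.card_option, Fintype.card_coe]
  -- the part with given labels
  have h1 : ∀ β : ι → Lb S₀, LN S₀ β →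
      |(((Fintype.piFinset C).filter fun p => (fun i => lb s t S₀ (p i)) = β ∧
          Gr s t r (S₀ ∪ univ.image p)).card : ℝ) -
        prob r * (((Fintype.piFinset C).filter fun p => (fun i => lb s t S₀ (p i)) = β).card : ℝ)| ≤
      cc * (((Fintype.piFinset C).filter fun p => (fun i => lb s t S₀ (p i)) = β).card : ℝ) + R := by
    intro β hβ
    by_cases hemp : ((Fintype.piFinset C).filter fun p => (fun i => lb s t S₀ (p i)) = β) = ∅
    · have he2 : ((Fintype.piFinset C).filter fun p => (fun i => lb s t S₀ (p i)) = β ∧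
          Gr s t r (S₀ ∪ univ.image p)) = ∅ := by
        rw [← Finset.filter_filter, hemp, Finset.filter_empty]
      rw [he2, hemp]
      simpa using hR0
    obtain ⟨p₀, hp₀⟩ := Finset.nonempty_iff_ne_empty.2 hemp
    rw [Finset.mem_filter] at hp₀
    obtain ⟨hp₀, hp₀β⟩ := hp₀
    set C' : ι → Finset α := fun i => (C i).filter fun q => lb s t S₀ q = β i with hC'
    have hpi : (Fintype.piFinset C).filter (fun p => (fun i => lb s t S₀ (p i)) = β) =
        Fintype.piFinset C' := by
      ext p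
      simp only [Finset.mem_filter, Fintype.mem_piFinset, hC']
      constructor
      · rintro ⟨h2, h3⟩ i
        exact ⟨h2 i, congrFun h3 i⟩
      · intro h2
        exact ⟨fun i => (h2 i).1, funext fun i => (h2 i).2⟩
    obtain ⟨i₀, hi₀⟩ := drop_one β hβ hcard
    set J1 : Finset ι := univ.erase i₀ with hJ1
    have hJc : J1.card = Fintype.card ι - 1 := by
      rw [hJ1, Finset.card_erase_of_mem (Finset.mem_univ _), Finset.card_univ]
    have hHB1 : HB s J1 C X κ := HB_mono hHB (Finset.subset_univ _)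
    have h2 := hLA (Option S₀) ι (univ : Finset (Option S₀)) J1
      ⟨i₀, Finset.notMem_erase _ _⟩ (mA s t) (mB β) (mC β) (fun _ => 0) (fun _ => 0)
      (by
        intro u _ v _
        rcases u with _ | u <;> rcases v with _ | v
        · rfl
        · rfl
        · rfl
        · exact hs _ _ (hS₀ u u.2) (hS₀ v v.2))
      (by
        intro u _ k _
        rcases u with _ | u
        · rfl
        · show (β k).1 u = (β k).2.1 u
          have h3 := congrFun hp₀β k
          rw [← h3]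
          exact hs _ _ (hS₀ u u.2) (hpr p₀ hp₀ k))
      (by
        rintro w - ⟨u, hu⟩
        obtain ⟨k, hk, hk2⟩ := hi₀ (fun u => w (some u)) (w none) (by
          rcases u with _ | u
          · exact Or.inr hu
          · exact Or.inl ⟨u, hu⟩)
        refine ⟨k, Finset.mem_erase.2 ⟨hk, Finset.mem_univ _⟩, ?_⟩
        rw [Fintype.sum_option, add_comm]
        exact hk2)
    set Q : (prs J1 → ZMod 2) → Prop := QQ (univ : Finset (Option S₀))
      J1 (mA s t) (mB β) (mC β) (fun _ => 0) (fun _ => 0) r with hQ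
    have h3 := EQ.t_EQ s ι J1 C' X κ hκ
      (fun i => (Finset.card_le_card (Finset.filter_subset _ _)).trans (hCX i))
      (HB_sub hHB1 fun i q => lb s t S₀ q = β i) Q
    have h4 : ((Fintype.piFinset C).filter fun p => (fun i => lb s t S₀ (p i)) = β ∧
        Gr s t r (S₀ ∪ univ.image p)) = ((Fintype.piFinset C').filter fun p =>
          Q fun e => s (p e.1.1) (p e.1.2)) := by
      rw [← hpi, Finset.filter_filter]
      refine Finset.filter_congr fun p hp => ?_
      refine and_congr_right fun hl => ?_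
      unfold Gr
      rw [ns_eq hs hs0 (hinj p hp) (hpr p hp) hS₀ (hd p hp) i₀]
      subst hl
      exact Iff.rfl
    have h5 : (((Fintype.piFinset C').card : ℕ) : ℝ) = ∏ j, ((C' j).card : ℝ) := by
      rw [Fintype.card_piFinset]
      push_cast
      rfl
    rw [h4, hpi, h5]
    have h2' : |((univ.filter Q).card : ℝ) / 2 ^ (prs J1).card - prob r| ≤ cc := by
      have e1 : ((univ.filter Q).card : ℝ) = ((univ.filter fun α : prs J1 → ZMod 2 =>
          nA (univ : Finset (Option S₀)) J1 (mA s t) (mB β) (mC β)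
            (Pool.Agent.Y703.CQ.ext α) (fun _ => 0) (fun _ => 0) = 2 ^ r).card : ℝ) := by
        congr 2
        exact filter_inst _ _ _ _
      rw [e1]
      refine h2.trans (le_of_eq ?_)
      rw [hcc, hU1, hJc]
    set n : ℝ := (((Fintype.piFinset C').filter fun p =>
          Q fun e => s (p e.1.1) (p e.1.2)).card : ℝ) with hn
    set q : ℝ := ((univ.filter Q).card : ℝ) / 2 ^ (prs J1).card with hq
    set P : ℝ := ∏ j, ((C' j).card : ℝ) with hP
    have hP0 : 0 ≤ P := Finset.prod_nonneg fun j _ => by positivity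
    have h6 : |n - prob r * P| ≤ |n - q * P| + |q - prob r| * P := by
      have h7 : n - prob r * P = (n - q * P) + (q - prob r) * P := by ring
      have h8 : |(q - prob r) * P| = |q - prob r| * P := by rw [abs_mul, abs_of_nonneg hP0]
      rw [h7, ← h8]
      exact abs_add_le _ _
    have h7 : |q - prob r| * P ≤ cc * P := mul_le_mul_of_nonneg_right h2' hP0
    have h8 : |n - q * P| ≤ R := le_trans h3 (hRp J1)
    linarith
  -- sum over the labels
  set LL := univ.filter (fun β : ι → Lb S₀ => LN S₀ β) with hLL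
  have hfib : ∀ W : (ι → α) → Prop,
      (((Fintype.piFinset C).filter fun p => Nd s t S₀ (univ.image p) ∧ W p).card : ℝ) =
      ∑ β ∈ LL, (((Fintype.piFinset C).filter fun p =>
        (fun i => lb s t S₀ (p i)) = β ∧ W p).card : ℝ) := by
    intro W
    rw [Finset.card_eq_sum_card_fiberwise (f := fun (p : ι → α) (i : ι) => lb s t S₀ (p i))
      (t := LL) (by
        intro p hp
        rw [Finset.mem_coe, Finset.mem_filter] at hp
        rw [Finset.mem_coe, hLL, Finset.mem_filter]
        exact ⟨Finset.mem_univ _, nd_iff.1 hp.2.1⟩)]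
    push_cast
    refine Finset.sum_congr rfl fun β hβ => ?_
    rw [hLL, Finset.mem_filter] at hβ
    congr 2
    ext p
    simp only [Finset.mem_filter]
    constructor
    · rintro ⟨⟨h3, h4, h4'⟩, h5⟩
      exact ⟨h3, h5, h4'⟩
    · rintro ⟨h3, h4, h5⟩
      refine ⟨⟨h3, ?_, h5⟩, h4⟩
      rw [nd_iff, h4]
      exact hβ.2
  have hf1 := hfib fun p => Gr s t r (S₀ ∪ univ.image p)
  have hf2 := hfib fun _ => True
  simp only [and_true] at hf2
  rw [hf1, hf2, Finset.mul_sum, ← Finset.sum_sub_distrib]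
  refine (Finset.abs_sum_le_sum_abs _ _).trans ?_
  refine (Finset.sum_le_sum fun β hβ => h1 β (Finset.mem_filter.1 hβ).2).trans ?_
  rw [Finset.sum_add_distrib, ← Finset.mul_sum, Finset.sum_const, nsmul_eq_mul]
  have h5 : ((LL.card : ℕ) : ℝ) ≤ 2 ^ ((2 * S₀.card + 1) * Fintype.card ι) := by
    have h6 : LL.card ≤ Fintype.card (ι → Lb S₀) := Finset.card_le_univ _
    rw [Fintype.card_fun, Fintype.card_prod, Fintype.card_prod, Fintype.card_fun, ZMod.card,
      Fintype.card_coe, ← pow_succ, ← pow_add, ← pow_mul] at h6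
    have h7 : (S₀.card + (S₀.card + 1)) * Fintype.card ι = (2 * S₀.card + 1) * Fintype.card ι := by
      ring
    rw [h7] at h6
    exact_mod_cast h6
  have h6 := mul_le_mul_of_nonneg_right h5 hR0
  rw [pow_add, mul_assoc]
  linarith


end Pool.Agent.D0H10.Q5
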