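import Pool.Agent.D0H10.Q5.Low

/-!
Project Q5, U3: the order of the Selmer group.
-/

set_option autoImplicit false
set_option linter.unusedSectionVars false
set_option linter.unusedVariables false

open NumberField IsDedekindDomain

namespace Pool.Agent.D0H10.Q5

open Pool.Agent.Y682 (S1 S2 vv vv_coe IsT Zc Zc_card Zc_lower LL1 LL2 Sq quot_eq MP)
open Pool.Agent.Y699
open Pool.Agent.Y715.Z
open Pool.Agent.D0H10.Q4
open Pool.Agent.D0H92.Q4 (im_not_sq em0_im)
open Pool.Agent.D0H76.Q4 (not_sq_of_dvd)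
open Pool.Agent.D0H49.Q4
open H385 (ZI RQ im1 nrm)

section

variable {K : Type} [Field K] [NumberField K] (e : ZI ≃+* 𝓞 K)

/-- the classes are different -/
theorem cz_inj {Δ : ZI} (hΔ : PS Δ) {z z' : {π : ZI // π ∈ PD Δ} → ZMod 2} {a a' : ZMod 2} {c : K}
    (hc : c ≠ 0) (h : em0 e (cz Δ z' a') = em0 e (cz Δ z a) * c ^ 2) : z = z' ∧ a = a' := by
  classical
  have hp : PF (fam Δ) := fam_PF hΔ.ne
  have h01 : ∀ a : ZMod 2, a = 0 ∨ a = 1 := by decide
  have hiu : ∀ (a : ZMod 2) (j : {π : ZI // π ∈ PD Δ}), ¬ fam Δ j ∣ (im1 : ZI) ^ a.val := by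
    intro a j hj
    have h1 := (hp.pp j).pr.dvd_of_dvd_pow hj
    exact (hp.pp j).pr.not_isUnit (isUnit_of_dvd_unit h1 (IsUnit.of_mul_eq_one (-im1) (by decide)))
  have hnd : ∀ (T : Finset {π : ZI // π ∈ PD Δ}) (j : {π : ZI // π ∈ PD Δ}), j ∉ T →
      ¬ fam Δ j ∣ DD (fam Δ) T := by
    intro T j hT h
    unfold DD at h
    obtain ⟨i, hi, hji⟩ := ((hp.pp j).pr.dvd_finsetProd_iff _).1 h
    exact not_dvd_of_ne hp (fun h' => hT (by rw [h']; exact hi)) hji
  have key : ∀ (T T' : Finset {π : ZI // π ∈ PD Δ}) (b b' : ZMod 2),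
      IsSquare (em0 e (im1 ^ b.val * DD (fam Δ) T * (im1 ^ b'.val * DD (fam Δ) T')) : K) → T ⊆ T' := by
    intro T T' b b' hsq j hj
    by_contra hj'
    refine not_sq_of_dvd e (hp.pp j).pr (π := fam Δ j) ?_ ?_ hsq
    · refine Dvd.dvd.mul_right (Dvd.dvd.mul_left ?_ _) _
      unfold DD
      exact Finset.dvd_prod_of_mem _ hj
    · intro hd
      have h1 : DD (fam Δ) T = fam Δ j * DD (fam Δ) (T.erase j) := by
        unfold DD
        exact (Finset.mul_prod_erase T _ hj).symm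
      have h2 : im1 ^ b.val * DD (fam Δ) T * (im1 ^ b'.val * DD (fam Δ) T') =
          fam Δ j * (im1 ^ b.val * DD (fam Δ) (T.erase j) * (im1 ^ b'.val * DD (fam Δ) T')) := by
        rw [h1]; ring
      rw [h2, sq] at hd
      have h3 := (mul_dvd_mul_iff_left (hp.pp j).pr.ne_zero).1 hd
      rcases (hp.pp j).pr.dvd_or_dvd h3 with h4 | h4
      · rcases (hp.pp j).pr.dvd_or_dvd h4 with h5 | h5
        · exact hiu b j h5
        · exact hnd _ j (Finset.notMem_erase j T) h5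
      · rcases (hp.pp j).pr.dvd_or_dvd h4 with h5 | h5
        · exact hiu b' j h5
        · exact hnd _ j hj' h5
  have hs1 : IsSquare (em0 e (cz Δ z a * cz Δ z' a') : K) := by
    refine ⟨em0 e (cz Δ z a) * c, ?_⟩
    rw [map_mul, h]
    ring
  have hs2 : IsSquare (em0 e (cz Δ z' a' * cz Δ z a) : K) := by rwa [mul_comm]
  have hT : (Finset.univ.filter fun i => z i + a = 1) = Finset.univ.filter fun i => z' i + a' = 1 :=
    Finset.Subset.antisymm (key _ _ _ _ hs1) (key _ _ _ _ hs2)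
  have haa : a = a' := by
    by_contra hne
    have h4 : IsSquare (em0 e im1 : K) := by
      have hD0 : (em0 e (DD (fam Δ) (Finset.univ.filter fun i => z i + a = 1)) : K) ≠ 0 :=
        em0_ne e (DD_ne hp _)
      obtain ⟨r, hr⟩ := hs1
      refine ⟨r / em0 e (DD (fam Δ) (Finset.univ.filter fun i => z i + a = 1)), ?_⟩
      unfold cz at hr
      rw [← hT] at hr
      have h5 : (im1 : ZI) ^ a.val * im1 ^ a'.val = im1 := by
        rcases h01 a with rfl | rfl <;> rcases h01 a' with rfl | rfl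
        · exact absurd rfl hne
        · have e0 : (0 : ZMod 2).val = 0 := by decide
          have e1 : (1 : ZMod 2).val = 1 := by decide
          rw [e0, e1, pow_zero, pow_one, one_mul]
        · have e0 : (0 : ZMod 2).val = 0 := by decide
          have e1 : (1 : ZMod 2).val = 1 := by decide
          rw [e0, e1, pow_zero, pow_one, mul_one]
        · exact absurd rfl hne
      have h6 : (em0 e im1 : K) = em0 e (im1 ^ a.val) * em0 e (im1 ^ a'.val) := by
        rw [← map_mul, h5]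
      rw [div_mul_div_comm, ← hr, eq_div_iff (mul_ne_zero hD0 hD0), h6]
      simp only [map_mul]
      ring
    exact im_not_sq e h4
  subst haa
  refine ⟨?_, rfl⟩
  funext i
  have h6 : z i + a = 1 ↔ z' i + a = 1 := by
    have h7 : i ∈ (Finset.univ.filter fun i => z i + a = 1) ↔
        i ∈ Finset.univ.filter fun i => z' i + a = 1 := by rw [hT]
    simpa using h7
  have h8 : ∀ x y b : ZMod 2, (x + b = 1 ↔ y + b = 1) → x = y := by decide
  exact h8 _ _ _ h6

lemma kd_ne {Δ D : ZI} (hΔ : PS Δ) (hD : Kd Δ D) : D ≠ 0 := by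
  rcases hD with rfl | rfl | rfl
  · exact mul_ne_zero (by decide) hΔ.ne
  · exact mul_ne_zero (by decide) hΔ.ne
  · exact mul_ne_zero two_ne_zero hΔ.ne

lemma cz_ne {Δ : ZI} (hΔ : PS Δ) (z : {π : ZI // π ∈ PD Δ} → ZMod 2) (a : ZMod 2) :
    cz Δ z a ≠ 0 :=
  mul_ne_zero (pow_ne_zero _ (by decide)) (DD_ne (fam_PF hΔ.ne) _)

/-- the class of a kernel vector -/
noncomputable def Phi {Δ : ZI} (hΔ : PS Δ) (p : ({π : ZI // π ∈ PD Δ} → ZMod 2) × ZMod 2) :
    Kˣ ⧸ Sq K :=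
  ((Units.mk0 (em0 e (cz Δ p.1 p.2)) (em0_ne e (cz_ne hΔ p.1 p.2)) : Kˣ) : Kˣ ⧸ Sq K)

lemma Phi_inj {Δ : ZI} (hΔ : PS Δ) : Function.Injective (Phi (K := K) e hΔ) := by
  rintro ⟨z, a⟩ ⟨z', a'⟩ h
  unfold Phi at h
  rw [quot_eq] at h
  obtain ⟨c, hc⟩ := h
  have h1 := congrArg Units.val hc
  rw [Units.val_mul, Units.val_pow_eq_pow_val, Units.val_mk0, Units.val_mk0] at h1
  obtain ⟨h2, h3⟩ := cz_inj e hΔ c.ne_zero h1
  exact Prod.ext h2 h3

lemma Sel_eq {Δ D : ZI} (hΔ : PS Δ) (hD : Kd Δ D) :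
    Sel (em0 e D : K) = Phi (K := K) e hΔ '' (Ker Δ ×ˢ Set.univ) := by
  ext q
  constructor
  · rintro ⟨b, rfl, hb⟩
    have h1 : LF (em0 e D : K) (b : K) := by
      intro v
      have h2 := hb.1 v
      rwa [map_zero] at h2
    obtain ⟨z, hz, a, c, hc⟩ := up K e Δ D hΔ hD b b.ne_zero h1
    have hc0 : c ≠ 0 := by
      rintro rfl
      rw [zero_pow two_ne_zero, mul_zero] at hc
      exact b.ne_zero hc
    refine ⟨(z, a), ⟨hz, Set.mem_univ _⟩, ?_⟩
    unfold Phi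
    rw [quot_eq]
    refine ⟨Units.mk0 c hc0, Units.ext ?_⟩
    rw [Units.val_mul, Units.val_pow_eq_pow_val, Units.val_mk0, Units.val_mk0, hc]
  · rintro ⟨⟨z, a⟩, ⟨hz, -⟩, rfl⟩
    exact ⟨_, rfl, low K e Δ D hΔ hD z hz a⟩

lemma Sel_card {Δ D : ZI} (hΔ : PS Δ) (hD : Kd Δ D) :
    (Sel (em0 e D : K)).ncard = 2 * (Ker Δ).ncard := by
  rw [Sel_eq e hΔ hD, Set.ncard_image_of_injective _ (Phi_inj e hΔ), Set.ncard_prod,
    Set.ncard_univ, Nat.card_zmod, mul_comm]

/-- **U3.** -/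
theorem cnt : S_CNT := by
  classical
  intro K _ _ e Δ D hΔ hD
  have hcard := Sel_card (K := K) e hΔ hD
  refine ⟨hcard, ?_⟩
  have hDK : (em0 e D : K) ≠ 0 := em0_ne e (kd_ne hΔ hD)
  have hT : IsT (q4 (em0 e D : K)) 0 (em0 e D) :=
    ⟨rfl, rfl, rfl, rfl, rfl, hDK, by
      rw [zero_pow two_ne_zero, zero_sub]
      exact neg_ne_zero.2 (mul_ne_zero (by norm_num) hDK)⟩
  have hfin : (Sel (em0 e D : K)).Finite := by
    rw [Sel_eq e hΔ hD]
    exact Set.toFinite _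
  have : Finite (Sel (em0 e D : K)) := hfin.to_subtype
  have hone : (1 : Kˣ ⧸ Sq K) ∈ Sel (em0 e D : K) := by
    refine ⟨1, rfl, ?_⟩
    constructor
    · intro v
      exact ⟨1, 1, one_ne_zero, by rw [Units.val_one, map_one, one_pow, one_mul], Or.inl rfl⟩
    · intro v
      exact ⟨1, 1, one_ne_zero, by rw [Units.val_one, map_one, one_pow, one_mul], Or.inl rfl⟩
  obtain ⟨hf, hc⟩ := Zc_card hT (U := Sel (em0 e D : K)) (V := Sel (em0 e D : K)) hone
    (fun b hb => ⟨b, rfl, hb⟩) (fun b hb => by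
      have h1 : LF (em0 e D : K) (b : K) := by
        intro v
        have := Pool.Agent.Y682.charZero_adic v
        have h1 := hb.1 v
        rw [map_zero] at h1
        refine S2_S1 (i := algebraMap K (v.adicCompletion K) (em0 e im1)) ?_ h1
        rw [← map_pow, Pool.Agent.Y715.Z.im1_sq, map_neg, map_one]
      obtain ⟨z, hz, a, c, hc⟩ := up K e Δ D hΔ hD b b.ne_zero h1
      have hc0 : c ≠ 0 := by
        rintro rfl
        rw [zero_pow two_ne_zero, mul_zero] at hc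
        exact b.ne_zero hc
      rw [Sel_eq e hΔ hD]
      refine ⟨(z, a), ⟨hz, Set.mem_univ _⟩, ?_⟩
      unfold Phi
      rw [quot_eq]
      refine ⟨Units.mk0 c hc0, Units.ext ?_⟩
      rw [Units.val_mul, Units.val_pow_eq_pow_val, Units.val_mk0, Units.val_mk0, hc])
  obtain ⟨h3, h4⟩ := Zc_lower hT
  refine ⟨h3, ?_⟩
  have h5 : Nat.card (Sel (em0 e D : K)) = 2 * (Ker Δ).ncard := hcard
  rw [h5] at hc
  nlinarith

end

end Pool.Agent.D0H10.Q5
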