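import Pool.Agent.D0H10.Q5.KeyR

/-!
Project Q5, U5b: the asymptotics (after `D0H45/QK/{Asy,Fin}.lean` of helper45).
-/

set_option autoImplicit false
set_option linter.unusedVariables false

open scoped Classical Topology
open Finset Filter

namespace Pool.Agent.D0H10.Q5

open H385 (ZI im1 nrm)
open Pool.Agent.Y699 hiding XX kk CC
open Pool.Agent.Y703.CX (jj XX eL zz kk eL_tendsto logX_eq rpow_eL HH NN ev_eL one_le_exp
  HH_ge HH_le HH_pos kk_ge kk_le X_pos one_add_log lin_le zz_ge zz_pos)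
open Pool.Agent.D0H45.QK
open Pool.Agent.D0H45.Q4 (Sml sml_of sml_add)

variable {L : Cls} {t : ZI → ZMod 2}

theorem prob_nonneg (r : ℕ) : 0 ≤ prob r := by
  unfold prob
  refine div_nonneg ?_ (Finset.prod_nonneg fun i _ => ?_)
  · have h := Pool.Agent.Y948.CQ.t_C2
    exact h.2.1.le
  · have h1 : (1 : ℝ) ≤ 2 ^ (i + 1) := one_le_pow₀ (by norm_num)
    linarith

theorem prob_le (r : ℕ) : prob r ≤ 1 := by
  have h : HasSum prob 1 := Pool.Agent.D0H34.Q5.sum1
  exact le_hasSum h r fun j _ => prob_nonneg j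

/-- **The proportion of the sets whose solution space has dimension `r`, in a class.** -/
theorem t_DQr {r : ℕ} {KK : ℝ} (hK : 0 ≤ KK) (hLA : LAr r KK) {ψ : ZI → ℝ} {q : ZI}
    (hψ : Psi ψ q) (L : Cls) (hLo : Low L) : Tendsto
    (fun X : ℕ => (((SS L X).filter (Gr nq (tq ψ) r)).card : ℝ) / ((SS L X).card : ℝ)) atTop
    (nhds (prob r)) := by
  set t := tq ψ with ht
  obtain ⟨C, hC1, hkey⟩ := t_KEYr hK hLA
  obtain ⟨D, hD⟩ := t_CNT L
  obtain ⟨c, X₀, hc, hlow⟩ := hLo
  rw [Metric.tendsto_nhds]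
  intro ε hε
  obtain ⟨V', hV'⟩ := exists_pow_lt_of_lt_one (show (0 : ℝ) < ε / (8 * (KK + 1)) by positivity)
    (show (1 / 2 : ℝ) < 1 by norm_num)
  set V := V' + 1 with hVdef
  have hV : (1 / 2 : ℝ) ^ V < ε / (8 * (KK + 1)) := by
    refine lt_of_le_of_lt ?_ hV'
    exact pow_le_pow_of_le_one (by norm_num) (by norm_num) (by omega)
  have hV1 : 1 ≤ V := by omega
  have s1 := sml_many hD
  have s2 := sml_cut hD
  have s3 := sml_coll hD
  have s4 := sml_eps (t_FEW L V)
  have s5 := sml_eps (t_BAD L hψ)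
  have s6 := sml_main hC1 (Fintype.card L.M)
  have s := sml_add (sml_add (sml_add (sml_add (sml_add s1 s2) s3) s4) s5) s6
  have hδ : (0 : ℝ) < c * ε / 4 := by positivity
  filter_upwards [s (c * ε / 4) hδ, ev_eL 1, eventually_ge_atTop X₀] with X hX hl hX0
  rw [neg_zero, zero_mul, Real.exp_zero, mul_one] at hX
  have hl0 : 0 < eL X := by linarith
  have hlo := hlow X hX0
  have hXp := X_pos hl0
  have hXp' : (0 : ℝ) < X := by exact_mod_cast hXp
  have hSpos : (0 : ℝ) < ((SS L X).card : ℝ) := by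
    refine lt_of_lt_of_le ?_ hlo
    positivity
  have hN : (HH X : ℝ) * Real.log X < NN X := by
    unfold NN
    push_cast
    exact Nat.lt_floor_add_one _
  have hmain := hkey L t X (zz X) (HH X) (kk X) V (NN X) (kap C X) hXp (HH_pos hl0) (zz_pos hl) hV1
    (kap_nonneg hC1 X) (kap_pow hC1 hl) hN
  set T := (RR L X (zz X) (HH X) (kk X) V).filter fun S => Nd nq t (sm (zz X) S) (la (zz X) S) with hT
  have hTG : (RR L X (zz X) (HH X) (kk X) V).filter
      (fun S => Nd nq t (sm (zz X) S) (la (zz X) S) ∧ Gr nq t r S) = T.filter (Gr nq t r) := by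
    rw [hT, filter_filter]
  rw [hTG] at hmain
  have hTS : T ⊆ SS L X := (filter_subset _ _).trans (filter_subset _ _)
  have hRS : ((RR L X (zz X) (HH X) (kk X) V).card : ℝ) ≤ ((SS L X).card : ℝ) := by
    exact_mod_cast card_le_card (filter_subset _ _)
  have hcmp := cmp (Gr nq t r) T (SS L X) hTS (prob r) (prob_nonneg r) (prob_le r)
  have hout : ((SS L X \ T).card : ℝ) ≤
      ((((SS L X).filter fun S => kk X < S.card).card : ℝ) +
      (((SS L X).filter fun S => S.card ≤ kk X ∧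
        X < (∏ π ∈ sm (zz X) S, nrm π) * ∏ π ∈ la (zz X) S, XX (HH X) (bl (HH X) π)).card : ℝ) +
      (((SS L X).filter fun S => ¬ Set.InjOn (bl (HH X)) (la (zz X) S : Set ZI)).card : ℝ) +
      (((SS L X).filter fun S => S.card ≤ kk X ∧
        (la (zz X) S).card ≤ 2 * (sm (zz X) S).card + V).card : ℝ)) +
      (((SS L X).filter fun S => S.card ≤ kk X ∧ ¬ Nd nq t (sm (zz X) S) (la (zz X) S)).card : ℝ) := by
    have g := card_le_card (out_sub L t X (zz X) (HH X) (kk X) V)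
    rw [← hT] at g
    have g2 := (g.trans (card_union_le _ _)).trans (Nat.add_le_add_right ((card_union_le _ _).trans
      (Nat.add_le_add_right ((card_union_le _ _).trans
      (Nat.add_le_add_right (card_union_le _ _) _)) _)) _)
    exact_mod_cast g2
  have htot : |(((SS L X).filter (Gr nq t r)).card : ℝ) - prob r * ((SS L X).card : ℝ)| ≤
      4 * KK * (1 / 2 : ℝ) ^ V * ((SS L X).card : ℝ) + c * ε / 4 * X := by
    have g1 : 4 * KK * (1 / 2 : ℝ) ^ V * ((RR L X (zz X) (HH X) (kk X) V).card : ℝ) ≤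
        4 * KK * (1 / 2 : ℝ) ^ V * ((SS L X).card : ℝ) := mul_le_mul_of_nonneg_left hRS (by positivity)
    linarith
  rw [Real.dist_eq]
  have e3 : (((SS L X).filter (Gr nq t r)).card : ℝ) / ((SS L X).card : ℝ) - prob r =
      ((((SS L X).filter (Gr nq t r)).card : ℝ) - prob r * ((SS L X).card : ℝ)) /
        ((SS L X).card : ℝ) := by
    field_simp
  rw [e3, abs_div, abs_of_pos hSpos, div_lt_iff₀ hSpos]
  refine lt_of_le_of_lt htot ?_
  have g2 : c * ε / 4 * X ≤ ε / 4 * ((SS L X).card : ℝ) := by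
    calc c * ε / 4 * X = ε / 4 * (c * X) := by ring
      _ ≤ _ := mul_le_mul_of_nonneg_left hlo (by linarith)
  have g5 : 4 * KK * (1 / 2 : ℝ) ^ V ≤ ε / 2 := by
    have g6 : 4 * KK * (1 / 2 : ℝ) ^ V ≤ 4 * (KK + 1) * (ε / (8 * (KK + 1))) := by
      have h7 : (0 : ℝ) ≤ (1 / 2 : ℝ) ^ V := by positivity
      calc 4 * KK * (1 / 2 : ℝ) ^ V ≤ 4 * (KK + 1) * (1 / 2 : ℝ) ^ V := by nlinarith
        _ ≤ _ := mul_le_mul_of_nonneg_left hV.le (by positivity)
    have g7 : 4 * (KK + 1) * (ε / (8 * (KK + 1))) = ε / 2 := by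
      have h8 : KK + 1 ≠ 0 := by positivity
      field_simp
      ring
    linarith
  have g3 : 4 * KK * (1 / 2 : ℝ) ^ V * ((SS L X).card : ℝ) ≤ ε / 2 * ((SS L X).card : ℝ) :=
    mul_le_mul_of_nonneg_right g5 hSpos.le
  have g4 : 0 < ε * ((SS L X).card : ℝ) := by positivity
  linarith


/-- **The proportion, in terms of the elements.** -/
theorem denr {r : ℕ} {KK : ℝ} (hK : 0 ≤ KK) (hLA : LAr r KK) {ψ : ZI → ℝ} {q : ZI} (hψ : Psi ψ q) (L : Cls) (hLo : Low L) : Tendsto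
    (fun X : ℕ => (((SB X).filter fun Δ => ClD L Δ ∧ Gr nq (tq ψ) r (PD Δ)).card : ℝ) /
      (((SB X).filter (ClD L)).card : ℝ)) atTop (𝓝 (prob r)) := by
  refine (t_DQr hK hLA hψ L hLo).congr fun X => ?_
  rw [← card_eq L X (Gr nq (tq ψ) r)]
  have h := card_eq L X fun _ => True
  rw [filter_true] at h
  simp only [and_true] at h
  rw [← h]


theorem tq8 (Δ : ZI) (π : {π : ZI // π ∈ PD Δ}) : tq ψ8 (fam Δ π) = wt (fam Δ) π := by
  unfold tq ψ8 wt
  split_ifs with h1 h2 h2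
  · rfl
  · norm_num at h2
  · norm_num at h2
  · rfl

/-- the kernel and the solutions -/
theorem ker_nS (Δ : ZI) (h : PS Δ) : (Ker Δ).ncard = nS nq (tq ψ8) (PD Δ) := by
  rw [← Nat.card_coe_set_eq]
  refine Nat.card_congr (Equiv.subtypeEquivRight fun z => ?_)
  refine forall_congr' fun v => ?_
  have h1 : ∑ q : {π : ZI // π ∈ PD Δ}, nq v.1 q.1 * (z q + z v) =
      ∑ u, em (fam Δ) u v * (z u + z v) := Finset.sum_congr rfl fun u _ => rfl
  rw [add_comm, ← h1, ← tq8]
  exact Iff.rfl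

/-- **U5.** -/
theorem dis (h : S_LA2) : S_DIS := by
  intro r
  obtain ⟨KK, hK, hLA⟩ := h r
  refine (denr hK hLA psi8 LT lowT).congr fun X => ?_
  have h1 : ((SB X).filter fun Δ => ClD LT Δ ∧ Gr nq (tq ψ8) r (PD Δ)).card =
      ((SB X).filter fun Δ => (Ker Δ).ncard = 2 ^ r).card := by
    congr 1
    ext Δ
    rw [mem_filter, mem_filter]
    refine and_congr_right fun hΔ => ?_
    rw [ker_nS Δ (mem_SB.1 hΔ).2]
    exact and_iff_right (clT Δ)
  have h2 : (SB X).filter (ClD LT) = SB X := filter_true_of_mem fun Δ _ => clT Δ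
  rw [h1, h2]

end Pool.Agent.D0H10.Q5
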