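import Pool.Agent.D0H10.Q5.Stm
import Pool.Agent.D0H76.Q4.Ker
import Pool.Agent.D0H49.Q4.Sel
import Pool.Agent.D0H10.Q4.FinK

/-!
Project Q5, U4: the kernel.
-/

set_option autoImplicit false

namespace Pool.Agent.D0H10.Q5

open H385 (ZI RQ im1 nrm)
open Pool.Agent.Y699
open Pool.Agent.D0H10.Q4 (dD MQ)

/-- the kernel as a subspace -/
noncomputable def KerS (Δ : ZI) : Submodule (ZMod 2) ({π : ZI // π ∈ PD Δ} → ZMod 2) where
  carrier := Ker Δ
  add_mem' := by
    intro a b ha hb v
    have h1 := ha v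
    have h2 := hb v
    have h3 : wt (fam Δ) v * (a v + b v) + ∑ u, em (fam Δ) u v * ((a u + b u) + (a v + b v)) =
        (wt (fam Δ) v * a v + ∑ u, em (fam Δ) u v * (a u + a v)) +
        (wt (fam Δ) v * b v + ∑ u, em (fam Δ) u v * (b u + b v)) := by
      rw [show ∑ u, em (fam Δ) u v * ((a u + b u) + (a v + b v)) =
        ∑ u, em (fam Δ) u v * (a u + a v) + ∑ u, em (fam Δ) u v * (b u + b v) by
          rw [← Finset.sum_add_distrib]
          exact Finset.sum_congr rfl fun u _ => by ring]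
      ring
    show wt (fam Δ) v * (a v + b v) + ∑ u, em (fam Δ) u v * ((a u + b u) + (a v + b v)) = 0
    rw [h3, h1, h2, add_zero]
  zero_mem' := by
    intro v
    show wt (fam Δ) v * 0 + ∑ u, em (fam Δ) u v * (0 + 0) = 0
    simp
  smul_mem' := by
    intro c a ha v
    have h1 := ha v
    show wt (fam Δ) v * (c * a v) + ∑ u, em (fam Δ) u v * (c * a u + c * a v) = 0
    have h3 : wt (fam Δ) v * (c * a v) + ∑ u, em (fam Δ) u v * (c * a u + c * a v) =
        c * (wt (fam Δ) v * a v + ∑ u, em (fam Δ) u v * (a u + a v)) := by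
      rw [mul_add, Finset.mul_sum]
      congr 1
      · ring
      · exact Finset.sum_congr rfl fun u _ => by ring
    rw [h3, h1, mul_zero]

lemma coe_KerS (Δ : ZI) : ((KerS Δ : Submodule (ZMod 2) _) : Set _) = Ker Δ := rfl

theorem ker : S_KER := by
  intro Δ hΔ
  classical
  constructor
  · refine ⟨Module.finrank (ZMod 2) (KerS Δ), ?_⟩
    have h1 : Nat.card (KerS Δ) = Nat.card (ZMod 2) ^ Module.finrank (ZMod 2) (KerS Δ) :=
      Module.natCard_eq_pow_finrank
    have h2 : (Ker Δ).ncard = Nat.card (KerS Δ) := rfl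
    rw [h2, h1, Nat.card_zmod]
  · have h0 : (0 : {π : ZI // π ∈ PD Δ} → ZMod 2) ∈ Ker Δ := (KerS Δ).zero_mem
    constructor
    · intro h
      rcases Pool.Agent.D0H10.Q4.dD_cases Δ with h1 | h1
      · exfalso
        obtain ⟨x, hx0, hx⟩ := Matrix.exists_mulVec_eq_zero_iff.2 h1
        obtain ⟨y, hy⟩ := Set.ncard_eq_one.1 h
        let z : {π : ZI // π ∈ PD Δ} → ZMod 2 := fun v => x ⟨v, Finset.mem_univ v⟩
        have hz : z ∈ Ker Δ := by
          intro v
          rw [← Pool.Agent.D0H76.Q4.mq_row]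
          exact congrFun hx ⟨v, Finset.mem_univ v⟩
        rw [hy] at hz h0
        have h2 : z = 0 := (Set.mem_singleton_iff.1 hz).trans (Set.mem_singleton_iff.1 h0).symm
        apply hx0
        funext v
        exact congrFun h2 v.1
      · exact h1
    · intro h
      rw [Set.ncard_eq_one]
      refine ⟨0, Set.eq_singleton_iff_unique_mem.2 ⟨h0, fun z hz => ?_⟩⟩
      funext v
      exact Pool.Agent.D0H49.Q4.ker_of_det h hz v

end Pool.Agent.D0H10.Q5
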