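import Pool.Agent.D0H10.Q5.Ker
import Pool.Agent.D0H49.Q4.Sel1

/-!
Project Q5, U1: a locally soluble class comes from a kernel vector.
-/

set_option autoImplicit false
set_option linter.unusedSectionVars false
set_option linter.unusedVariables false

open NumberField IsDedekindDomain

namespace Pool.Agent.D0H10.Q5

open Pool.Agent.Y682 (S1 S2 vv vv_coe IsT Zc Zc_card Zc_lower LL1 LL2 Sq quot_eq)
open Pool.Agent.Y699
open Pool.Agent.Y715.Z
open Pool.Agent.D0H10.Q4
open Pool.Agent.D0H49.Q4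
open H385 (ZI RQ im1 nrm)
open Pool.Agent.W164.RC (two2 prim_iff_dvd unit_norm unit_cases)
open Pool.Agent.H304R2.EC.A1 (prim prim_mul prim_cancel prim_one prim_norm_odd prim_star eq_one_of_prim
  norm_def' re_mul' im_mul' eq_of_dvd prim_ne_zero exists_prim)

section comb

variable {ι : Type} [DecidableEq ι] [Fintype ι] {pr : ι → ZI}

theorem endg (hp : PF pr) {u : ZI} {S : Finset ι} (hu : u.norm = 1)
    (hloc0 : ∀ j, (j ∉ S → qr (pr j) u * qr (pr j) (DD pr S) = 1) ∧
      (j ∈ S → qr (pr j) u * (qr (pr j) 2 * qr (pr j) (DD pr Sᶜ)) = 1)) :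
    ∃ z : ι → ZMod 2, (∀ i, z i = (if i ∈ S then 1 else 0) + ue u) ∧
      ∀ v, wt pr v * z v + ∑ i, em pr i v * (z i + z v) = 0 := by
  classical
  set z : ι → ZMod 2 := fun i => (if i ∈ S then 1 else 0) + ue u with hz
  have e2 : ∀ a : ZMod 2, a + a = 0 := by decide
  have hz0 : ∀ i ∉ S, z i = ue u := fun i hi => by rw [hz]; simp only [if_neg hi, zero_add]
  have hz1 : ∀ i ∈ S, z i = 1 + ue u := fun i hi => by rw [hz]; simp only [if_pos hi]
  have hloc : ∀ v, wt pr v * z v + ∑ i, em pr i v * (z i + z v) = 0 := by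
    intro v
    obtain ⟨h1, h2⟩ := hloc0 v
    by_cases hvS : v ∈ S
    · have h3 := h2 hvS
      rw [qr_unit_sg hp v hu, qr_DD_sg hp Sᶜ (fun h => (Finset.mem_compl.1 h) hvS), qr_two_sg hp,
        ← sg_add, ← sg_add] at h3
      have h4 := sg_eq_one h3
      rw [hz1 v hvS, ← h4, ← Finset.sum_add_sum_compl S]
      have h5 : ∑ i ∈ S, em pr i v * (z i + (1 + ue u)) = 0 :=
        Finset.sum_eq_zero fun i hi => by rw [hz1 i hi, e2, mul_zero]
      have h6 : ∑ i ∈ Sᶜ, em pr i v * (z i + (1 + ue u)) = ∑ i ∈ Sᶜ, em pr i v :=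
        Finset.sum_congr rfl fun i hi => by
          rw [hz0 i (Finset.mem_compl.1 hi)]
          have : ∀ a : ZMod 2, a + (1 + a) = 1 := by decide
          rw [this, mul_one]
      rw [h5, h6]
      ring
    · have h3 := h1 hvS
      rw [qr_unit_sg hp v hu, qr_DD_sg hp S hvS, ← sg_add] at h3
      have h4 := sg_eq_one h3
      rw [hz0 v hvS, ← h4, ← Finset.sum_add_sum_compl S]
      have h5 : ∑ i ∈ Sᶜ, em pr i v * (z i + ue u) = 0 :=
        Finset.sum_eq_zero fun i hi => by rw [hz0 i (Finset.mem_compl.1 hi), e2, mul_zero]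
      have h6 : ∑ i ∈ S, em pr i v * (z i + ue u) = ∑ i ∈ S, em pr i v :=
        Finset.sum_congr rfl fun i hi => by
          rw [hz1 i hi]
          have : ∀ a : ZMod 2, 1 + a + a = 1 := by decide
          rw [this, mul_one]
      rw [h5, h6]
      ring
  exact ⟨z, fun i => rfl, hloc⟩

end comb

section

variable {K : Type} [Field K] [NumberField K] (e : ZI ≃+* 𝓞 K) {κ : ZI}

/-- the class of a unit -/
lemma unit_class {u : ZI} (hun : u.norm = 1) : ∃ u0 : ZI, u = im1 ^ (ue u).val * u0 ^ 2 := by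
  rcases unit_cases hun with h | h | h | h
  · refine ⟨1, ?_⟩
    have h1 : ue u = 0 := by unfold ue; rw [h, if_pos (by decide)]
    rw [h1, h]
    decide
  · refine ⟨1, ?_⟩
    have h1 : ue u = 1 := by unfold ue; rw [h, if_neg (by decide)]
    rw [h1, h]
    decide
  · refine ⟨im1, ?_⟩
    have h1 : ue u = 0 := by unfold ue; rw [h, if_pos (by decide)]
    rw [h1, h]
    decide
  · refine ⟨im1, ?_⟩
    have h1 : ue u = 1 := by unfold ue; rw [h, if_neg (by decide)]
    rw [h1, h]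
    decide

theorem up1 (hκ : κ = im1 ∨ κ = -im1) {Δ : ZI} (hg : PS Δ) {b : K} (hb : b ≠ 0)
    (h : ∀ v : HeightOneSpectrum (𝓞 K), ∃ y m : v.adicCompletion K, y ≠ 0 ∧
      algebraMap K (v.adicCompletion K) b * y ^ 2 = m ∧
        S1 0 (algebraMap K (v.adicCompletion K) (em0 e (κ * Δ))) m) :
    ∃ z ∈ Ker Δ, ∃ (a : ZMod 2) (c : K), b = em0 e (cz Δ z a) * c ^ 2 := by
  classical
  obtain ⟨d, w, hd, hw, hbd⟩ := exists_sqf e hb
  have hD0 := hg.ne
  have hp := fam_PF hD0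
  have hκn : κ.norm = 1 := by rcases hκ with rfl | rfl <;> decide
  have hκu : IsUnit κ := Zsqrtd.norm_eq_one_iff.1 (by rw [hκn]; rfl)
  -- the primes of `d`
  have hprime : ∀ ρ : ZI, Prime ρ → ρ ∣ d → ρ ∣ Δ := by
    intro ρ hρ hρd
    by_contra hρD
    have h1 : ¬ ρ ∣ κ * Δ := by
      intro h2
      rcases hρ.dvd_or_dvd h2 with h3 | h3
      · exact hρ.not_isUnit (isUnit_of_dvd_unit h3 hκu)
      · exact hρD h3
    exact not_dvd_of_loc e hρ h1 hd hw hbd (h (plc e hρ)) hρd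
  set S := Finset.univ.filter (fun i => fam Δ i ∣ d) with hS
  have hDV : DD (fam Δ) Finset.univ = Δ := hg.DD
  have hSd : DD (fam Δ) S ∣ d := by
    unfold DD
    refine Finset.prod_dvd_of_coprime ?_ ?_
    · intro i _ j _ hij
      exact (hp.pp i).cop (hp.pp j) fun h => hij (hp.inj h)
    · intro i hi
      exact (Finset.mem_filter.1 hi).2
  obtain ⟨u, hu⟩ := hSd
  have huu : IsUnit u := by
    by_contra hnu
    have hu0 : u ≠ 0 := by
      rintro rfl
      exact hd.ne_zero (by rw [hu, mul_zero])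
    obtain ⟨ρ, hρ, hρu⟩ := WfDvdMonoid.exists_irreducible_factor hnu hu0
    have hρ' : Prime ρ := irreducible_iff_prime.1 hρ
    have h1 : ρ ∣ d := by rw [hu]; exact hρu.mul_left _
    have h2 := hprime ρ hρ' h1
    rw [← hDV] at h2
    unfold DD at h2
    obtain ⟨i, hi, hρi⟩ := (hρ'.dvd_finsetProd_iff _).1 h2
    have h3 : fam Δ i ∣ ρ := by
      obtain ⟨c, hc⟩ := hρi
      rcases (hp.pp i).pr.irreducible.isUnit_or_isUnit hc with h4 | h4
      · exact absurd h4 hρ'.not_isUnit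
      · obtain ⟨c', hc'⟩ := h4.exists_right_inv
        exact ⟨c', by rw [hc, mul_assoc, hc', mul_one]⟩
    have h4 : i ∈ S := Finset.mem_filter.2 ⟨hi, h3.trans h1⟩
    have h5 : fam Δ i * fam Δ i ∣ d := by
      rw [hu]
      refine mul_dvd_mul ?_ (h3.trans hρu)
      unfold DD
      exact Finset.dvd_prod_of_mem _ h4
    exact (hp.pp i).pr.not_isUnit (hd _ h5)
  have hun : u.norm = 1 := by
    obtain ⟨e', rfl⟩ := huu
    exact unit_norm e'
  have hDS : Δ = DD (fam Δ) S * DD (fam Δ) Sᶜ := by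
    conv_lhs => rw [← hDV]
    unfold DD
    exact (Finset.prod_mul_prod_compl _ _).symm
  have hnd : ∀ (T : Finset {π : ZI // π ∈ PD Δ}) (j : {π : ZI // π ∈ PD Δ}), j ∉ T →
      ¬ fam Δ j ∣ DD (fam Δ) T := by
    intro T j hT h
    unfold DD at h
    obtain ⟨i, hi, hji⟩ := ((hp.pp j).pr.dvd_finsetProd_iff _).1 h
    exact not_dvd_of_ne hp (fun h' => hT (by rw [h']; exact hi)) hji
  -- the local conditions
  have hloc : ∀ j, (j ∉ S → qr (fam Δ j) u * qr (fam Δ j) (DD (fam Δ) S) = 1) ∧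
      (j ∈ S → qr (fam Δ j) u * (qr (fam Δ j) 2 * qr (fam Δ j) (DD (fam Δ) Sᶜ)) = 1) := by
    intro j
    have hP := hp.pp j
    have hjD : fam Δ j ∣ Δ := (Finset.dvd_prod_of_mem (fam Δ) (Finset.mem_univ j)).trans (dvd_of_eq hDV)
    have h2 := not_dvd_two hP
    have hq : qr (fam Δ j) 2 = qr (fam Δ j) κ := by
      rw [qr_two_sg hp, qr_unit_sg hp j hκn]
      congr 1
      unfold ue
      rw [if_neg (by rcases hκ with rfl | rfl <;> decide), one_mul]
    have hval : (plc e hP.pr).valuation K (em0 e (κ * Δ)) = WithZero.exp (-1 : ℤ) := by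
      rw [map_mul, map_mul, val_one e hP.pr (not_dvd_unit hP hκn), one_mul,
        val_sqf e hP.pr hg.sqf hjD]
    have h20 : (κ * Δ : ZI) ≠ 0 := mul_ne_zero hκu.ne_zero hD0
    obtain ⟨h1, h3⟩ := loc_bad' (d := d) (d' := u * (κ * DD (fam Δ) Sᶜ)) (D' := u) e hP.pr hP
      h2 h20 hval hw hbd (h (plc e hP.pr))
    constructor
    · intro hjS
      have h4 := h1 (fun h' => hjS (Finset.mem_filter.2 ⟨Finset.mem_univ _, h'⟩))
      rw [hu, qr_mul hP] at h4
      rw [mul_comm]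
      exact h4
    · intro hjS
      have h4 := h3 hd (Finset.mem_filter.1 hjS).2 (by
        have h6 : d * (u * (κ * DD (fam Δ) Sᶜ)) =
            (κ * (DD (fam Δ) S * DD (fam Δ) Sᶜ)) * u ^ 2 := by rw [hu]; ring
        exact h6.trans (congrArg (fun t => (κ * t) * u ^ 2) hDS.symm)) (by
        intro h'
        rcases hP.pr.dvd_or_dvd h' with h4 | h4
        · exact not_dvd_unit hP hun h4
        · rcases hP.pr.dvd_or_dvd h4 with h5 | h5
          · exact not_dvd_unit hP hκn h5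
          · exact hnd _ _ (fun h6 => (Finset.mem_compl.1 h6) hjS) h5)
      rw [qr_mul hP, qr_mul hP] at h4
      rw [hq]
      exact h4
  obtain ⟨z, hz, hker⟩ := endg hp hun hloc
  obtain ⟨u0, hu0⟩ : ∃ u0 : ZI, u = im1 ^ (ue u).val * u0 ^ 2 := unit_class hun
  refine ⟨z, hker, ue u, em0 e u0 * w, ?_⟩
  have hS' : (Finset.univ.filter fun i => z i + ue u = 1) = S := by
    ext i
    rw [Finset.mem_filter, hz i]
    by_cases hi : i ∈ S
    · rw [if_pos hi]
      have h9 : ∀ a : ZMod 2, 1 + a + a = 1 := by decide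
      exact ⟨fun _ => hi, fun _ => ⟨Finset.mem_univ _, h9 _⟩⟩
    · rw [if_neg hi]
      have h9 : ∀ a : ZMod 2, 0 + a + a ≠ 1 := by decide
      exact ⟨fun h => absurd h.2 (h9 _), fun h => absurd h hi⟩
  unfold cz
  rw [hS', hbd, hu]
  conv_lhs => rw [hu0]
  simp only [map_mul, map_pow]
  ring

theorem up2 {Δ : ZI} (hg : PS Δ) {b : K} (hb : b ≠ 0)
    (h : ∀ v : HeightOneSpectrum (𝓞 K), ∃ y m : v.adicCompletion K, y ≠ 0 ∧
      algebraMap K (v.adicCompletion K) b * y ^ 2 = m ∧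
        S1 0 (algebraMap K (v.adicCompletion K) (em0 e (2 * Δ))) m) :
    ∃ z ∈ Ker Δ, ∃ (a : ZMod 2) (c : K), b = em0 e (cz Δ z a) * c ^ 2 := by
  classical
  obtain ⟨d, w, hd, hw, hbd⟩ := exists_sqf e hb
  have hD0 := hg.ne
  have hp := fam_PF hD0
  have hpi : ¬ pi1 ∣ d := not_pi1 e hg.prm hd hw hbd (h (plc e pi1_prime))
  -- the primes of `d`
  have hprime : ∀ ρ : ZI, Prime ρ → ρ ∣ d → ρ ∣ Δ := by
    intro ρ hρ hρd
    by_contra hρD
    have h1 : ¬ ρ ∣ 2 * Δ := by
      intro h2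
      rcases hρ.dvd_or_dvd h2 with h3 | h3
      · rw [two_eq_pi] at h3
        rcases hρ.dvd_or_dvd h3 with h4 | h4
        · have h5 := hρ.dvd_of_dvd_pow h4
          have h6 := (hρ.dvd_prime_iff_associated pi1_prime).1 h5
          exact hpi (h6.symm.dvd.trans hρd)
        · refine hρ.not_isUnit (isUnit_of_dvd_unit h4 ?_)
          exact ⟨⟨⟨0, -1⟩, ⟨0, 1⟩, by decide, by decide⟩, rfl⟩
      · exact hρD h3
    exact not_dvd_of_loc e hρ h1 hd hw hbd (h (plc e hρ)) hρd
  set S := Finset.univ.filter (fun i => fam Δ i ∣ d) with hS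
  have hDV : DD (fam Δ) Finset.univ = Δ := hg.DD
  have hSd : DD (fam Δ) S ∣ d := by
    unfold DD
    refine Finset.prod_dvd_of_coprime ?_ ?_
    · intro i _ j _ hij
      exact (hp.pp i).cop (hp.pp j) fun h => hij (hp.inj h)
    · intro i hi
      exact (Finset.mem_filter.1 hi).2
  obtain ⟨u, hu⟩ := hSd
  have huu : IsUnit u := by
    by_contra hnu
    have hu0 : u ≠ 0 := by
      rintro rfl
      exact hd.ne_zero (by rw [hu, mul_zero])
    obtain ⟨ρ, hρ, hρu⟩ := WfDvdMonoid.exists_irreducible_factor hnu hu0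
    have hρ' : Prime ρ := irreducible_iff_prime.1 hρ
    have h1 : ρ ∣ d := by rw [hu]; exact hρu.mul_left _
    have h2 := hprime ρ hρ' h1
    rw [← hDV] at h2
    unfold DD at h2
    obtain ⟨i, hi, hρi⟩ := (hρ'.dvd_finsetProd_iff _).1 h2
    have h3 : fam Δ i ∣ ρ := by
      obtain ⟨c, hc⟩ := hρi
      rcases (hp.pp i).pr.irreducible.isUnit_or_isUnit hc with h4 | h4
      · exact absurd h4 hρ'.not_isUnit
      · obtain ⟨c', hc'⟩ := h4.exists_right_inv
        exact ⟨c', by rw [hc, mul_assoc, hc', mul_one]⟩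
    have h4 : i ∈ S := Finset.mem_filter.2 ⟨hi, h3.trans h1⟩
    have h5 : fam Δ i * fam Δ i ∣ d := by
      rw [hu]
      refine mul_dvd_mul ?_ (h3.trans hρu)
      unfold DD
      exact Finset.dvd_prod_of_mem _ h4
    exact (hp.pp i).pr.not_isUnit (hd _ h5)
  have hun : u.norm = 1 := by
    obtain ⟨e', rfl⟩ := huu
    exact unit_norm e'
  have hDS : Δ = DD (fam Δ) S * DD (fam Δ) Sᶜ := by
    conv_lhs => rw [← hDV]
    unfold DD
    exact (Finset.prod_mul_prod_compl _ _).symm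
  have hnd : ∀ (T : Finset {π : ZI // π ∈ PD Δ}) (j : {π : ZI // π ∈ PD Δ}), j ∉ T →
      ¬ fam Δ j ∣ DD (fam Δ) T := by
    intro T j hT h
    unfold DD at h
    obtain ⟨i, hi, hji⟩ := ((hp.pp j).pr.dvd_finsetProd_iff _).1 h
    exact not_dvd_of_ne hp (fun h' => hT (by rw [h']; exact hi)) hji
  -- the local conditions
  have hloc : ∀ j, (j ∉ S → qr (fam Δ j) u * qr (fam Δ j) (DD (fam Δ) S) = 1) ∧
      (j ∈ S → qr (fam Δ j) u * (qr (fam Δ j) 2 * qr (fam Δ j) (DD (fam Δ) Sᶜ)) = 1) := by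
    intro j
    have hP := hp.pp j
    have hjD : fam Δ j ∣ Δ := (Finset.dvd_prod_of_mem (fam Δ) (Finset.mem_univ j)).trans (dvd_of_eq hDV)
    have h2 := not_dvd_two hP
    have hval : (plc e hP.pr).valuation K (em0 e (2 * Δ)) = WithZero.exp (-1 : ℤ) := by
      rw [map_mul, map_mul, val_one e hP.pr h2, one_mul, val_sqf e hP.pr hg.sqf hjD]
    have h20 : (2 * Δ : ZI) ≠ 0 := mul_ne_zero (by decide) hD0
    obtain ⟨h1, h3⟩ := loc_bad' (d := d) (d' := u * (2 * DD (fam Δ) Sᶜ)) (D' := u) e hP.pr hP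
      h2 h20 hval hw hbd (h (plc e hP.pr))
    constructor
    · intro hjS
      have h4 := h1 (fun h' => hjS (Finset.mem_filter.2 ⟨Finset.mem_univ _, h'⟩))
      rw [hu, qr_mul hP] at h4
      rw [mul_comm]
      exact h4
    · intro hjS
      have h4 := h3 hd (Finset.mem_filter.1 hjS).2 (by
        have h6 : d * (u * (2 * DD (fam Δ) Sᶜ)) =
            (2 * (DD (fam Δ) S * DD (fam Δ) Sᶜ)) * u ^ 2 := by rw [hu]; ring
        exact h6.trans (congrArg (fun t => (2 * t) * u ^ 2) hDS.symm)) (by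
        intro h'
        rcases hP.pr.dvd_or_dvd h' with h4 | h4
        · exact not_dvd_unit hP hun h4
        · rcases hP.pr.dvd_or_dvd h4 with h5 | h5
          · exact h2 h5
          · exact hnd _ _ (fun h6 => (Finset.mem_compl.1 h6) hjS) h5)
      rw [qr_mul hP, qr_mul hP] at h4
      exact h4
  obtain ⟨z, hz, hker⟩ := endg hp hun hloc
  obtain ⟨u0, hu0⟩ : ∃ u0 : ZI, u = im1 ^ (ue u).val * u0 ^ 2 := unit_class hun
  refine ⟨z, hker, ue u, em0 e u0 * w, ?_⟩
  have hS' : (Finset.univ.filter fun i => z i + ue u = 1) = S := by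
    ext i
    rw [Finset.mem_filter, hz i]
    by_cases hi : i ∈ S
    · rw [if_pos hi]
      have h9 : ∀ a : ZMod 2, 1 + a + a = 1 := by decide
      exact ⟨fun _ => hi, fun _ => ⟨Finset.mem_univ _, h9 _⟩⟩
    · rw [if_neg hi]
      have h9 : ∀ a : ZMod 2, 0 + a + a ≠ 1 := by decide
      exact ⟨fun h => absurd h.2 (h9 _), fun h => absurd h hi⟩
  unfold cz
  rw [hS', hbd, hu]
  conv_lhs => rw [hu0]
  simp only [map_mul, map_pow]
  ring

end

/-- **U1.** -/
theorem up : S_UP := by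
  intro K _ _ e Δ D hΔ hD b hb h
  rcases hD with rfl | rfl | rfl
  · exact up1 e (Or.inl rfl) hΔ hb h
  · exact up1 e (Or.inr rfl) hΔ hb h
  · exact up2 e hΔ hb h

end Pool.Agent.D0H10.Q5
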