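import Pool.Agent.D0H10.Q5.Gen
import Pool.Agent.D0H10.Q5.Dis
import Pool.Agent.D0H10.Q5.Ker
import Pool.Agent.D0H10.Q5.Cnt
import Pool.Agent.D0H10.Q5.Up
import Pool.Agent.D0H10.Q5.Low
import Pool.Agent.D0H10.Q4.AllK

/-!
Project Q5: the final statement over the ring of integers.
-/

set_option autoImplicit false

open NumberField IsDedekindDomain WeierstrassCurve Filter
open scoped Topology Classical

namespace Pool.Agent.D0H10.Q5

open H385 (ZI RQ im1 nrm)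
open Pool.Agent.TH841.NF.D (Sha)
open Pool.Agent.Y699 (SB mem_SB PS pi1 pi1_prime)
open Pool.Agent.D0H10.Q4 hiding S1
open Pool.Agent.Y682 (LL1 Sq MP S1)

/-- the image of the points of `y² = x³ + D x` under the connecting homomorphism -/
def InIm {F : Type} [Field F] (D b : F) : Prop :=
  ∃ z m : F, z ≠ 0 ∧ b * z ^ 2 = m ∧ (m = 1 ∨ m = D ∨ (m ≠ 0 ∧ ∃ y : F, y ^ 2 = m ^ 3 + D * m))

section
variable {K : Type} [Field K] [NumberField K]

/-- the Selmer group of `1 + i` -/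
def SelK (D : K) : Set (Kˣ ⧸ (powMonoidHom 2 : Kˣ →* Kˣ).range) :=
  {q | ∃ b : Kˣ, (b : Kˣ ⧸ (powMonoidHom 2 : Kˣ →* Kˣ).range) = q ∧
    (∀ v : HeightOneSpectrum (𝓞 K), InIm (algebraMap K (v.adicCompletion K) D)
      (algebraMap K (v.adicCompletion K) b)) ∧
    ∀ v : InfinitePlace K, InIm (algebraMap K v.Completion D) (algebraMap K v.Completion b)}

lemma s1_iff {F : Type} [Field F] (A D m : F) (hA : A = 0) : S1 A D m ↔
    (m = 1 ∨ m = D ∨ (m ≠ 0 ∧ ∃ y : F, y ^ 2 = m ^ 3 + D * m)) := by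
  subst hA
  unfold S1
  have h1 : m * (m ^ 2 + 0 * m + D) = m ^ 3 + D * m := by ring
  rw [h1]

lemma ll1_iff (D b : K) : LL1 0 D b ↔
    ((∀ v : HeightOneSpectrum (𝓞 K), InIm (algebraMap K (v.adicCompletion K) D)
      (algebraMap K (v.adicCompletion K) b)) ∧
    ∀ v : InfinitePlace K, InIm (algebraMap K v.Completion D) (algebraMap K v.Completion b)) := by
  unfold LL1 InIm
  refine and_congr (forall_congr' fun v => ?_) (forall_congr' fun v => ?_)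
  · refine exists_congr fun z => exists_congr fun m => ?_
    rw [s1_iff _ _ _ (map_zero _)]
  · refine exists_congr fun z => exists_congr fun m => ?_
    rw [s1_iff _ _ _ (map_zero _)]

lemma sel_eq (D : K) : Sel D = SelK D := by
  ext q
  show (∃ b : Kˣ, (b : Kˣ ⧸ Sq K) = q ∧ LL1 0 D (b : K)) ↔ _
  refine exists_congr fun b => ?_
  exact and_congr Iff.rfl (ll1_iff D b)

omit [NumberField K] in
lemma em0_eq (e : ZI ≃+* 𝓞 K) (D : ZI) : Pool.Agent.Y715.Z.em0 e D = ((e D : 𝓞 K) : K) := rfl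

omit [NumberField K] in
lemma q4_eq (D : K) : Pool.Agent.Y715.Z.q4 D = Cv D := rfl

/-- what is proved about one curve -/
def FactR (D : 𝓞 K) : Prop := ∃ r : ℕ, (SelK (D : K)).ncard = 2 ^ (r + 1) ∧
  Finite {x : Sha (Cv (D : K)) // 2 • x = 0} ∧
  2 ^ (Module.finrank ℤ (Cv (D : K)).toAffine.Point) *
    Nat.card {x : Sha (Cv (D : K)) // 2 • x = 0} ≤ 4 ^ r ∧ (r = 0 ↔ FinT D)

lemma kd_cl {Δ : ZI} {p : ℕ × ℕ} (hp : p ∈ S3) : Kd Δ (cl p.1 p.2 Δ) := by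
  have h1 : p = (1, 0) ∨ p = (3, 0) ∨ p = (3, 2) := by simpa [S3] using hp
  rcases h1 with rfl | rfl | rfl
  · left
    unfold cl
    rw [pow_one, pow_zero, one_mul]
  · right; left
    unfold cl
    rw [pow_zero, one_mul, show (im1 : ZI) ^ 3 = -im1 by decide]
  · right; right
    exact (two_cl Δ).symm

theorem facts_r (e : ZI ≃+* 𝓞 K) : ∀ p ∈ S3, ∀ Δ, PS Δ → FactR (e (cl p.1 p.2 Δ)) ∧
    ∀ r : ℕ, ((SelK ((e (cl p.1 p.2 Δ) : 𝓞 K) : K)).ncard = 2 ^ (r + 1) ↔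
      (Ker Δ).ncard = 2 ^ r) := by
  intro p hp Δ hΔ
  obtain ⟨h1, h2, h3⟩   := cnt K e Δ (cl p.1 p.2 Δ) hΔ (kd_cl hp)
  obtain ⟨⟨r, hr⟩, h4⟩ := ker Δ hΔ
  have h5 := (facts3 bk bd e p hp Δ hΔ).2
  rw [em0_eq, sel_eq] at h1
  rw [em0_eq, q4_eq] at h2 h3
  replace h1 : (SelK ((e (cl p.1 p.2 Δ) : 𝓞 K) : K)).ncard = 2 * (Ker Δ).ncard := h1
  refine ⟨⟨r, ?_, h2, ?_, ?_⟩, fun r' => ?_⟩
  · rw [h1, hr, pow_succ, mul_comm]
  · have h6 : (Ker Δ).ncard ^ 2 = 4 ^ r := by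
      rw [hr, ← pow_mul, mul_comm, pow_mul]
      norm_num
    rw [← h6]
    exact h3
  · rw [h5, ← h4, hr]
    constructor
    · intro h
      rw [h, pow_zero]
    · intro h
      by_contra hne
      have := Nat.one_lt_two_pow hne
      omega
  · rw [h1, pow_succ, mul_comm 2]
    exact Nat.mul_left_inj (by norm_num)

end

/-- **The final statement of Q5.** -/
theorem finR (hLA : S_LA2) (K : Type) [Field K] [NumberField K] [IsCyclotomicExtension {4} ℚ K] :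
    (∀ D : 𝓞 K, FamQ D → FactR D) ∧
    (∀ r : ℕ, Tendsto (fun X : ℕ =>
      ({D : 𝓞 K | Algebra.norm ℤ D ≤ X ∧ FamQ D ∧ (SelK (D : K)).ncard = 2 ^ (r + 1)}.ncard : ℝ) /
        ({D : 𝓞 K | Algebra.norm ℤ D ≤ X ∧ FamQ D}.ncard : ℝ)) atTop (nhds (prob r))) ∧
    (∀ r : ℕ, Tendsto (fun X : ℕ =>
      ({D : 𝓞 K | Algebra.norm ℤ D ≤ X ∧ (Squarefree D ∧ OddI D) ∧
        (SelK (D : K)).ncard = 2 ^ (r + 1)}.ncard : ℝ) /
        ({D : 𝓞 K | Algebra.norm ℤ D ≤ X ∧ (Squarefree D ∧ OddI D)}.ncard : ℝ)) atTop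
          (nhds (prob r))) ∧
    (∀ r : ℕ, Tendsto (fun X : ℕ =>
      ({D : 𝓞 K | Algebra.norm ℤ D ≤ X ∧ TwP D ∧ (SelK (D : K)).ncard = 2 ^ (r + 1)}.ncard : ℝ) /
        ({D : 𝓞 K | Algebra.norm ℤ D ≤ X ∧ TwP D}.ncard : ℝ)) atTop (nhds (prob r))) := by
  obtain ⟨e, he⟩ := Rng.exists_e K
  have h4 : ∀ p ∈ S3, p.1 < 4 := by decide
  have hf := facts_r (K := K) e
  set T : ℕ → 𝓞 K → Prop := fun r D => (SelK (D : K)).ncard = 2 ^ (r + 1) with hTd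
  have hd : ∀ r : ℕ, ∀ p ∈ S3, Dn ((fun _ : ℕ × ℕ => fun Δ : ZI => (Ker Δ).ncard = 2 ^ r) p)
      (prob r) := fun r p _ => by
    refine (dis hLA r).congr fun X => ?_
    rw [filter_inst]
  have g : ∀ (S : Finset (ℕ × ℕ)) (Q : 𝓞 K → Prop), S ⊆ S3 → S.Nonempty →
      (∀ D : ZI, Q (e D) ↔ InS S D) → ∀ r : ℕ, Tendsto (fun X : ℕ =>
      ({D : 𝓞 K | Algebra.norm ℤ D ≤ X ∧ Q D ∧ T r D}.ncard : ℝ) /
        ({D : 𝓞 K | Algebra.norm ℤ D ≤ X ∧ Q D}.ncard : ℝ)) atTop (nhds (prob r)) := by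
    intro S Q hS hne hQ r
    have e3 : ∀ X : ℕ, {D : 𝓞 K | Algebra.norm ℤ D ≤ X ∧ Q D ∧ T r D}.ncard =
        {D : ZI | nrm D ≤ X ∧ InS S D ∧ T r (e D)}.ncard := fun X =>
      img_ncard e he X (fun D => InS S D ∧ T r (e D)) (fun D => Q D ∧ T r D) fun D =>
        and_congr (hQ D) Iff.rfl
    have e3' : ∀ X : ℕ, {D : 𝓞 K | Algebra.norm ℤ D ≤ X ∧ Q D}.ncard =
        {D : ZI | nrm D ≤ X ∧ InS S D}.ncard := fun X =>
      img_ncard e he X (InS S) Q fun D => hQ D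
    simp_rw [e3, e3']
    exact dens_clsG S hne (fun p hp => h4 p (hS hp)) _ (prob r) (fun p hp => hd r p (hS hp))
      (fun D => T r (e D)) fun p hp Δ hΔ => (hf p (hS hp) Δ hΔ).2 r
  refine ⟨?_, ?_, ?_, ?_⟩
  · intro D hD
    obtain ⟨D, rfl⟩ := e.surjective D
    obtain ⟨p, hp, Δ, hΔ, rfl⟩ := (threeK e D).1 hD
    exact (hf p hp Δ hΔ).1
  · exact g S3 FamQ (Finset.Subset.refl _) ⟨(1, 0), by decide⟩ fun D => threeK e D
  · exact g Q4.S1 (fun D => Squarefree D ∧ OddI D) (by decide) ⟨(1, 0), by decide⟩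
      fun D => oneK e D
  · exact g Q4.S2 TwP (by decide) ⟨(3, 2), by decide⟩ fun D => twoK e D

end Pool.Agent.D0H10.Q5
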