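import Pool.Agent.D0H10.Q4.FinJ

/-!
Densities in unions of classes of `ℤ[i]`, for a property that depends on the class (compare
`Pool/Agent/D0H10/Q4/FinH.lean`).
-/

set_option autoImplicit false

open NumberField IsDedekindDomain WeierstrassCurve Filter
open scoped Topology

namespace Pool.Agent.D0H10.Q5

open H385 (ZI RQ im1 nrm)
open Pool.Agent.Y699 (SB mem_SB PS pi1 pi1_prime)
open Pool.Agent.D0H10.Q4

open Classical in
/-- the proportion of `P` among the primary squarefree elements tends to `c` -/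
def Dn (P : ZI → Prop) (c : ℝ) : Prop :=
  Tendsto (fun X : ℕ => (((SB X).filter P).card : ℝ) / ((SB X).card : ℝ)) atTop (𝓝 c)

theorem dens_clsG (S : Finset (ℕ × ℕ)) (hS : S.Nonempty) (h4 : ∀ p ∈ S, p.1 < 4)
    (P : ℕ × ℕ → ZI → Prop) (c : ℝ) (hden : ∀ p ∈ S, Dn (P p) c)
    (T : ZI → Prop) (hT : ∀ p ∈ S, ∀ Δ, PS Δ → (T (cl p.1 p.2 Δ) ↔ P p Δ)) :
    Tendsto (fun X : ℕ => ({D : ZI | nrm D ≤ X ∧ InS S D ∧ T D}.ncard : ℝ) /
      ({D : ZI | nrm D ≤ X ∧ InS S D}.ncard : ℝ)) atTop (𝓝 c) := by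
  classical
  have e1 : ∀ X : ℕ, ({D : ZI | nrm D ≤ X ∧ InS S D ∧ T D}.ncard : ℝ) =
      ∑ p ∈ S, (((SB (X / 2 ^ p.2)).filter (P p)).card : ℝ) := by
    intro X
    have h1 := count_cls S h4 T X
    have h2 : {D : ZI | nrm D ≤ X ∧ InS S D ∧ T D}.ncard =
        {D : ZI | nrm D ≤ X ∧ (∃ p ∈ S, ∃ Δ, PS Δ ∧ D = cl p.1 p.2 Δ) ∧ T D}.ncard := rfl
    rw [h2, h1]
    push_cast
    refine Finset.sum_congr rfl fun p hp => ?_
    congr 2
    refine Finset.filter_congr fun Δ hΔ => ?_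
    exact hT p hp Δ (mem_SB.1 hΔ).2
  have e2 : ∀ X : ℕ, ({D : ZI | nrm D ≤ X ∧ InS S D}.ncard : ℝ) =
      ∑ p ∈ S, ((SB (X / 2 ^ p.2)).card : ℝ) := by
    intro X
    have h1 := count_cls S h4 (fun _ => True) X
    have h2 : {D : ZI | nrm D ≤ X ∧ InS S D} =
        {D : ZI | nrm D ≤ X ∧ (∃ p ∈ S, ∃ Δ, PS Δ ∧ D = cl p.1 p.2 Δ) ∧ True} := by
      ext D
      simp [InS]
    rw [h2, h1]
    push_cast
    refine Finset.sum_congr rfl fun p hp => ?_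
    rw [Finset.filter_true]
  simp_rw [e1, e2]
  refine ratio_sum S hS _ _ _ (fun p hp => ?_) fun p hp => ?_
  · filter_upwards [(div_atTop p.2).eventually_ge_atTop 1] with X hX
    exact_mod_cast SB_pos hX
  · have h := (hden p hp).comp (div_atTop p.2)
    refine h.congr fun X => ?_
    simp only [Function.comp]

/-- the proportion in all the squarefree elements -/
theorem prop_sqfG (hsq : S_SQF) (S : Finset (ℕ × ℕ)) (hS : S.Nonempty)
    (h4 : ∀ p ∈ S, p.1 < 4) (P : ℕ × ℕ → ZI → Prop) (c : ℝ) (hden : ∀ p ∈ S, Dn (P p) c)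
    (T : ZI → Prop) (hT : ∀ p ∈ S, ∀ Δ, PS Δ → (T (cl p.1 p.2 Δ) ↔ P p Δ)) :
    Tendsto (fun X : ℕ => ({D : ZI | nrm D ≤ X ∧ InS S D ∧ T D}.ncard : ℝ) /
      ({D : ZI | nrm D ≤ X ∧ Squarefree D}.ncard : ℝ)) atTop
        (𝓝 ((∑ p ∈ S, (1 / 2 : ℝ) ^ p.2) / 6 * c)) := by
  obtain ⟨κ, hκ, h⟩ := hsq
  have h1 := dens_clsG S hS h4 P c hden T hT
  have h2 := cnt_lim h S h4
  have h3 := cnt_lim h Ssq (fun p hp => by
    have h1 := Finset.mem_product.1 hp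
    exact Finset.mem_range.1 h1.1)
  have e3 : ∑ p ∈ Ssq, κ * (1 / 2 : ℝ) ^ p.2 = 6 * κ := by
    unfold Ssq
    rw [Finset.sum_product]
    simp [Finset.sum_range_succ]
    ring
  rw [e3] at h3
  have e4 : ∑ p ∈ S, κ * (1 / 2 : ℝ) ^ p.2 = κ * ∑ p ∈ S, (1 / 2 : ℝ) ^ p.2 := by
    rw [Finset.mul_sum]
  rw [e4] at h2
  have hpos : 0 < ∑ p ∈ S, (1 / 2 : ℝ) ^ p.2 := Finset.sum_pos (fun _ _ => by positivity) hS
  have h5 := (h1.mul h2).div h3 (by positivity)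
  have e5 : c * (κ * ∑ p ∈ S, (1 / 2 : ℝ) ^ p.2) / (6 * κ) =
      (∑ p ∈ S, (1 / 2 : ℝ) ^ p.2) / 6 * c := by
    field_simp
  rw [e5] at h5
  refine h5.congr' ?_
  have h6 : ∀ᶠ X : ℕ in atTop, (0 : ℝ) < ({D : ZI | nrm D ≤ X ∧ InS S D}.ncard : ℝ) / (X : ℝ) :=
    h2.eventually_const_lt (by positivity)
  filter_upwards [h6, eventually_gt_atTop 0] with X hX hX0
  have h7 : (X : ℝ) ≠ 0 := by positivity
  have h8 : ({D : ZI | nrm D ≤ X ∧ InS S D}.ncard : ℝ) ≠ 0 := by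
    intro h0
    rw [h0, zero_div] at hX
    exact lt_irrefl _ hX
  have e6 : {D : ZI | nrm D ≤ X ∧ InS Ssq D} = {D : ZI | nrm D ≤ X ∧ Squarefree D} := by
    ext D
    simp only [Set.mem_ofPred_eq, inS_Ssq]
  simp only [Pi.div_apply]
  rw [e6]
  rcases eq_or_ne ({D : ZI | nrm D ≤ X ∧ Squarefree D}.ncard : ℝ) 0 with h0 | h0
  · rw [h0, zero_div, div_zero, div_zero]
  · field_simp

end Pool.Agent.D0H10.Q5
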