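import Mathlib
import Pool.Agent.TH841.NF.ShaN
import Pool.Agent.D0H10.Q5.InfA

/-!
# The kernel of `1 + i` on the `2^∞`-Selmer group of `y² = x³ + D x`

Port of `Pool/Agent/Y703/XL/InfB.lean` (there: `√-3` and `y² + D y = x³`).
-/

set_option autoImplicit false
set_option linter.unusedSectionVars false
set_option linter.unusedVariables false

open scoped Classical

namespace Pool.Agent.D0H10.Q5.Inf

open WeierstrassCurve NumberField
open Pool.Agent.TH841.SH.D (Pt act Gal Coch IsCoc IsCob LocTriv coc_zero coc_add coc_neg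
  loc_zero loc_add loc_neg)
open Pool.Agent.TH841.NF.D (IsShaCoc shaCoc)

variable {K : Type} [Field K] [NumberField K] {D z : K}

/-- the continuous cocycles with values in the torsion of two-power order that are coboundaries
in the curve at all places -/
def selCoc (D : K) : AddSubgroup (Coch (E1 D)) where
  carrier := {f | IsShaCoc (E1 D) f ∧ ∀ σ, ∃ n : ℕ, 2 ^ n • f σ = 0}
  zero_mem' := ⟨(shaCoc (E1 D)).zero_mem, fun σ => ⟨0, smul_zero _⟩⟩
  add_mem' := fun {f g} hf hg => ⟨(shaCoc (E1 D)).add_mem hf.1 hg.1, fun σ => by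
    obtain ⟨n, hn⟩ := hf.2 σ
    obtain ⟨m, hm⟩ := hg.2 σ
    refine ⟨n + m, ?_⟩
    show 2 ^ (n + m) • (f σ + g σ) = 0
    rw [smul_add]
    have h1 : 2 ^ (n + m) • f σ = 0 := by rw [add_comm, pow_add, mul_smul, hn, smul_zero]
    have h2 : 2 ^ (n + m) • g σ = 0 := by rw [pow_add, mul_smul, hm, smul_zero]
    rw [h1, h2, add_zero]⟩
  neg_mem' := fun {f} hf => ⟨(shaCoc (E1 D)).neg_mem hf.1, fun σ => by
    obtain ⟨n, hn⟩ := hf.2 σ
    refine ⟨n, ?_⟩
    show 2 ^ n • -(f σ) = 0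
    rw [smul_neg, hn, neg_zero]⟩

/-- the coboundaries of the torsion points of two-power order -/
def cobInf (D : K) : AddSubgroup (Coch (E1 D)) where
  carrier := {f | ∃ P : Pt (E1 D) (AlgebraicClosure K), (∃ n : ℕ, 2 ^ n • P = 0) ∧
    ∀ σ : Gal K, f σ = act (E1 D) σ.toAlgHom P - P}
  zero_mem' := ⟨0, ⟨0, smul_zero _⟩, fun σ => by
    show (0 : Pt (E1 D) (AlgebraicClosure K)) = _
    rw [map_zero, sub_zero]⟩
  add_mem' := fun {f g} hf hg => by
    obtain ⟨P, ⟨n, hn⟩, hP⟩ := hf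
    obtain ⟨Q, ⟨m, hm⟩, hQ⟩ := hg
    refine ⟨P + Q, ⟨n + m, ?_⟩, fun σ => ?_⟩
    · rw [smul_add]
      have h1 : 2 ^ (n + m) • P = 0 := by rw [add_comm, pow_add, mul_smul, hn, smul_zero]
      have h2 : 2 ^ (n + m) • Q = 0 := by rw [pow_add, mul_smul, hm, smul_zero]
      rw [h1, h2, add_zero]
    · show f σ + g σ = _
      rw [hP, hQ, map_add]
      abel
  neg_mem' := fun {f} hf => by
    obtain ⟨P, ⟨n, hn⟩, hP⟩ := hf
    refine ⟨-P, ⟨n, by rw [smul_neg, hn, neg_zero]⟩, fun σ => ?_⟩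
    show -f σ = _
    rw [hP, map_neg]
    abel

/-- the `2^∞`-Selmer group -/
def SelInf (D : K) : Type := selCoc D ⧸ (cobInf D).addSubgroupOf (selCoc D)

/-- the group law -/
noncomputable instance SelInf.group (D : K) : AddCommGroup (SelInf D) :=
  @QuotientAddGroup.Quotient.addCommGroup (selCoc D) _ ((cobInf D).addSubgroupOf (selCoc D))

/-- the class of a cocycle -/
noncomputable def cls {D : K} (f : selCoc D) : SelInf D := QuotientAddGroup.mk f

/-- the kernel of `1 + i` -/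
def killed (z D : K) : Set (SelInf D) :=
  {x | ∃ f : selCoc D, cls f = x ∧
    (fun σ => f.1 σ + rot D z (AlgebraicClosure K) (f.1 σ) : Coch (E1 D)) ∈ cobInf D}

lemma cls_eq_zero (f : selCoc D) : cls f = 0 ↔ f.1 ∈ cobInf D := by
  unfold cls
  exact (QuotientAddGroup.eq_zero_iff f).trans AddSubgroup.mem_addSubgroupOf

/-! ### coboundaries -/

/-- a coboundary -/
noncomputable def cbf (P : Pt (E1 D) (AlgebraicClosure K)) : Coch (E1 D) :=
  fun σ => act (E1 D) σ.toAlgHom P - P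

lemma lc_apply (x : AlgebraicClosure K) : IsLocallyConstant (fun σ : Gal K => σ x) := by
  rw [IsLocallyConstant.iff_exists_open]
  intro σ
  have hx : IsIntegral K x := Algebra.IsIntegral.isIntegral x
  have : FiniteDimensional K (IntermediateField.adjoin K {x}) :=
    IntermediateField.adjoin.finiteDimensional hx
  refine ⟨(fun τ => σ⁻¹ * τ) ⁻¹'
    ((IntermediateField.adjoin K {x}).fixingSubgroup : Set (Gal K)),
    (IntermediateField.fixingSubgroup_isOpen _).preimage (continuous_const_mul _), ?_, ?_⟩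
  · show σ⁻¹ * σ ∈ (IntermediateField.adjoin K {x}).fixingSubgroup
    rw [inv_mul_cancel]
    exact one_mem _
  · intro τ hτ
    have h1 : σ⁻¹ * τ ∈ (IntermediateField.adjoin K {x}).fixingSubgroup := hτ
    rw [IntermediateField.mem_fixingSubgroup_iff] at h1
    have h2 := h1 x (IntermediateField.mem_adjoin_simple_self K x)
    rw [AlgEquiv.mul_apply] at h2
    have h3 := congrArg σ h2
    rw [← AlgEquiv.mul_apply, mul_inv_cancel, AlgEquiv.one_apply] at h3
    exact h3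

lemma lc_act (Q : Pt (E1 D) (AlgebraicClosure K)) :
    IsLocallyConstant (fun σ : Gal K => act (E1 D) σ.toAlgHom Q) := by
  rcases pp_cases Q with rfl | ⟨x, y, h, rfl⟩
  · simp only [map_zero]
    exact IsLocallyConstant.const _
  · rw [IsLocallyConstant.iff_eventually_eq]
    intro σ
    have h1 := ((IsLocallyConstant.iff_eventually_eq _).1 (lc_apply x)) σ
    have h2 := ((IsLocallyConstant.iff_eventually_eq _).1 (lc_apply y)) σ
    filter_upwards [h1, h2] with τ h3 h4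
    obtain ⟨h5, e5⟩ := act_pp (D := D) τ.toAlgHom h
    obtain ⟨h6, e6⟩ := act_pp (D := D) σ.toAlgHom h
    rw [e5, e6]
    exact pp_ext _ _ h3 h4

lemma act_mul (σ τ : Gal K) (Q : Pt (E1 D) (AlgebraicClosure K)) :
    act (E1 D) (σ * τ).toAlgHom Q = act (E1 D) σ.toAlgHom (act (E1 D) τ.toAlgHom Q) := by
  rw [act_act]
  rfl

lemma cbf_sha (P : Pt (E1 D) (AlgebraicClosure K)) : IsShaCoc (E1 D) (cbf P) := by
  have hloc : ∀ (M : Type) [Field M] [Algebra K M], LocTriv (E1 D) M (cbf P) := by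
    intro M _ _ ι
    refine ⟨act (E1 D) ι P, fun τ σ h => ?_⟩
    unfold cbf
    rw [map_sub, act_act, act_act]
    have e1 : ι.comp σ.toAlgHom = (τ.toAlgHom.restrictScalars K).comp ι :=
      AlgHom.ext fun x => (h x).symm
    rw [e1]
  refine ⟨⟨(lc_act P).sub (IsLocallyConstant.const P), fun σ τ => ?_⟩, fun v => hloc _,
    fun v => hloc _⟩
  show act (E1 D) (σ * τ).toAlgHom P - P = (act (E1 D) σ.toAlgHom P - P) +
    act (E1 D) σ.toAlgHom (act (E1 D) τ.toAlgHom P - P)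
  rw [map_sub, act_mul]
  abel

/-! ### fixed points -/

lemma fix_mem (x : AlgebraicClosure K) (h : ∀ σ : Gal K, σ x = x) :
    ∃ t : K, algebraMap K (AlgebraicClosure K) t = x :=
  (InfiniteGalois.mem_range_algebraMap_iff_fixed x).2 h

lemma ker_fix (hz : z ^ 2 = -1) {R : Pt (E1 D) (AlgebraicClosure K)}
    (h : ph hz R = 0) (σ : Gal K) : act (E1 D) σ.toAlgHom R = R := by
  rcases (ph_ker hz R).1 h with rfl | ⟨y, hn, rfl⟩
  · exact map_zero _
  · obtain ⟨h1, e1⟩ := act_pp (D := D) σ.toAlgHom hn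
    rw [e1]
    have hy := y0 hn
    subst hy
    exact pp_ext _ _ (map_zero _) (map_zero _)

lemma no_lift (hz : z ^ 2 = -1) (hc : ∀ t : K, t ^ 2 ≠ D)
    {R : Pt (E1 D) (AlgebraicClosure K)} (hf : ∀ σ : Gal K, act (E1 D) σ.toAlgHom R = R)
    (h2 : ph hz (ph hz R) = 0) : ph hz R = 0 := by
  by_contra h1
  obtain ⟨x, y, h, rfl, hx⟩ := ph_ker2 hz R h1 h2
  obtain ⟨t, ht⟩ := fix_mem x fun σ => by
    have h3 := hf σ
    obtain ⟨h4, e4⟩ := act_pp (D := D) σ.toAlgHom h
    rw [e4] at h3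
    exact (pp_inj h3).1
  rw [← ht, ← map_pow, ← map_neg] at hx
  have h3 := (algebraMap K (AlgebraicClosure K)).injective hx
  apply hc (z * t)
  rw [mul_pow, hz, h3]
  ring

lemma iter_fix (hz : z ^ 2 = -1) (hc : ∀ t : K, t ^ 2 ≠ D) (k : ℕ) :
    ∀ {R : Pt (E1 D) (AlgebraicClosure K)}, (∀ σ : Gal K, act (E1 D) σ.toAlgHom R = R) →
      (ph hz)^[k] R = 0 → ph hz R = 0 := by
  induction k with
  | zero =>
    intro R _ h
    rw [Function.iterate_zero, id_eq] at h
    rw [h, map_zero]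
  | succ k ih =>
    intro R hf h
    rw [Function.iterate_succ_apply] at h
    have h1 : ph hz (ph hz R) = 0 := ih (fun σ => by rw [act_ph, hf]) h
    exact no_lift hz hc hf h1

lemma iter_pow (hz : z ^ 2 = -1) (n : ℕ) :
    ∀ {R : Pt (E1 D) (AlgebraicClosure K)}, 2 ^ n • R = 0 → (ph hz)^[2 * n] R = 0 := by
  induction n with
  | zero =>
    intro R h
    rw [pow_zero, one_smul] at h
    rw [h]
    rfl
  | succ n ih =>
    intro R h
    have e : 2 * (n + 1) = 2 * n + 1 + 1 := by ring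
    rw [e, Function.iterate_succ_apply, Function.iterate_succ_apply, ph_ph hz]
    apply ih
    rw [← mul_smul, ← pow_succ, ← map_nsmul, h, map_zero]

/-- fixed torsion points of two-power order are in the kernel -/
lemma fix_tor (hz : z ^ 2 = -1) (hc : ∀ t : K, t ^ 2 ≠ D)
    {R : Pt (E1 D) (AlgebraicClosure K)} (hf : ∀ σ : Gal K, act (E1 D) σ.toAlgHom R = R) {n : ℕ}
    (h : 2 ^ n • R = 0) : ph hz R = 0 :=
  iter_fix hz hc (2 * n) hf (iter_pow hz n h)

/-- lifts of torsion points -/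
lemma lift_tor (hz : z ^ 2 = -1) {Q : Pt (E1 D) (AlgebraicClosure K)} {n : ℕ}
    (h : 2 ^ n • ph hz Q = 0) : 2 ^ (n + 1) • Q = 0 := by
  have h1 := congrArg (ph hz) h
  rw [map_nsmul, ph_ph hz, map_zero, ← mul_smul, ← pow_succ, ← map_nsmul] at h1
  exact rh_inj hz h1

/-! ### the kernel -/

/-- the Selmer group of `1 + i` -/
noncomputable def Sg (hz : z ^ 2 = -1) : AddSubgroup (Coch (E1 D)) where
  carrier := {f | IsShaCoc (E1 D) f ∧ ∀ σ, ph hz (f σ) = 0}
  zero_mem' := ⟨(shaCoc (E1 D)).zero_mem, fun σ => map_zero _⟩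
  add_mem' := fun {f g} hf hg => ⟨(shaCoc (E1 D)).add_mem hf.1 hg.1, fun σ => by
    show ph hz (f σ + g σ) = 0
    rw [map_add, hf.2, hg.2, add_zero]⟩
  neg_mem' := fun {f} hf => ⟨(shaCoc (E1 D)).neg_mem hf.1, fun σ => by
    show ph hz (-f σ) = 0
    rw [map_neg, hf.2, neg_zero]⟩

lemma two_zero (hz : z ^ 2 = -1) {P : Pt (E1 D) (AlgebraicClosure K)} (h : ph hz P = 0) :
    2 • P = 0 := by
  have h1 := congrArg (ph hz) h
  rw [ph_ph hz, map_zero, ← map_nsmul] at h1
  exact rh_inj hz h1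

lemma Sg_le (hz : z ^ 2 = -1) : Sg (D := D) hz ≤ selCoc D := by
  intro f hf
  refine ⟨hf.1, fun σ => ⟨1, ?_⟩⟩
  rw [pow_one]
  exact two_zero hz (hf.2 σ)

/-- the map to the `2^∞`-Selmer group -/
noncomputable def th (hz : z ^ 2 = -1) : Sg (D := D) hz →+ SelInf D :=
  (QuotientAddGroup.mk' ((cobInf D).addSubgroupOf (selCoc D))).comp
    (AddSubgroup.inclusion (Sg_le hz))

lemma th_apply (hz : z ^ 2 = -1) (f : Sg (D := D) hz) :
    th hz f = cls (AddSubgroup.inclusion (Sg_le hz) f) := rfl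

lemma th_ker (hz : z ^ 2 = -1) (f : Sg (D := D) hz) :
    f ∈ (th hz).ker ↔ f.1 ∈ cobInf D := by
  rw [AddMonoidHom.mem_ker, th_apply, cls_eq_zero]
  rfl

lemma rot_ph (hz : z ^ 2 = -1) (P : Pt (E1 D) (AlgebraicClosure K)) :
    P + rot D z (AlgebraicClosure K) P = ph hz P := by
  rw [rot_eq hz, ph_apply]

lemma rot_coch (hz : z ^ 2 = -1) (f : Coch (E1 D)) :
    (fun σ => f σ + rot D z (AlgebraicClosure K) (f σ) : Coch (E1 D)) =
      (fun σ => ph hz (f σ) : Coch (E1 D)) := funext fun σ => rot_ph hz (f σ)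

lemma th_range (hD : D ≠ 0) (hz : z ^ 2 = -1) :
    ((th (D := D) hz).range : Set (SelInf D)) = killed z D := by
  ext x
  constructor
  · rintro ⟨f, rfl⟩
    refine ⟨AddSubgroup.inclusion (Sg_le hz) f, rfl, ?_⟩
    rw [rot_coch hz]
    have h1 : (fun σ => ph hz ((AddSubgroup.inclusion (Sg_le hz) f).1 σ) : Coch (E1 D)) = 0 :=
      funext fun σ => f.2.2 σ
    rw [h1]
    exact (cobInf D).zero_mem
  · rintro ⟨f, rfl, h⟩
    rw [rot_coch hz] at h
    obtain ⟨P, ⟨n, hn⟩, hP⟩ := h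
    obtain ⟨Q, rfl⟩ := ph_surj hD hz P
    have hQ := lift_tor hz hn
    have hm : f.1 - cbf Q ∈ Sg (D := D) hz := by
      refine ⟨(shaCoc (E1 D)).sub_mem f.2.1 (cbf_sha Q), fun σ => ?_⟩
      show ph hz (f.1 σ - (act (E1 D) σ.toAlgHom Q - Q)) = 0
      have hP' : ph hz (f.1 σ) = act (E1 D) σ.toAlgHom (ph hz Q) - ph hz Q := hP σ
      rw [map_sub, hP', map_sub, act_ph, sub_self]
    refine ⟨⟨f.1 - cbf Q, hm⟩, ?_⟩
    rw [th_apply, ← sub_eq_zero]
    have h2 : cls (AddSubgroup.inclusion (Sg_le hz) ⟨f.1 - cbf Q, hm⟩) - cls f =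
        cls (AddSubgroup.inclusion (Sg_le hz) ⟨f.1 - cbf Q, hm⟩ - f) := rfl
    rw [h2, cls_eq_zero]
    have h3 : (AddSubgroup.inclusion (Sg_le hz) ⟨f.1 - cbf Q, hm⟩ - f).1 = -cbf Q := by
      show f.1 - cbf Q - f.1 = -cbf Q
      abel
    rw [h3]
    exact (cobInf D).neg_mem ⟨Q, ⟨_, hQ⟩, fun σ => rfl⟩

/-- the kernel has two elements -/
lemma ker_card (hD : D ≠ 0) (hz : z ^ 2 = -1) (hc : ∀ t : K, t ^ 2 ≠ D) :
    Nat.card (th (D := D) hz).ker = 2 := by
  -- the kernel as a set of functions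
  have h0 : ((E1 D).baseChange (AlgebraicClosure K)).toAffine.Nonsingular 0 0 :=
    ns_of hD (by ring)
  obtain ⟨P₁, hP₁⟩ := ph_surj hD hz (pp 0 0 h0 : Pt (E1 D) (AlgebraicClosure K))
  have hT0 : ph hz (pp 0 0 h0 : Pt (E1 D) (AlgebraicClosure K)) = 0 := ph_0 hz h0
  have hT : ∀ R : Pt (E1 D) (AlgebraicClosure K), ph hz R = 0 →
      R = 0 ∨ R = pp 0 0 h0 := by
    intro R hR
    rcases (ph_ker hz R).1 hR with h | ⟨y, hn, rfl⟩
    · exact Or.inl h
    · right
      exact pp_ext _ _ rfl (y0 hn)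
  have hadd : ∀ P Q : Pt (E1 D) (AlgebraicClosure K), cbf (P + Q) = cbf P + cbf Q := by
    intro P Q
    funext σ
    show act (E1 D) σ.toAlgHom (P + Q) - (P + Q) =
      (act (E1 D) σ.toAlgHom P - P) + (act (E1 D) σ.toAlgHom Q - Q)
    rw [map_add]
    abel
  have hk0 : ∀ P : Pt (E1 D) (AlgebraicClosure K), ph hz P = 0 → cbf P = 0 := by
    intro P hP
    funext σ
    show act (E1 D) σ.toAlgHom P - P = 0
    rw [ker_fix hz hP, sub_self]
  have hP3 : 2 ^ 2 • P₁ = 0 := by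
    apply lift_tor (n := 1) hz
    rw [hP₁, pow_one]
    exact two_zero hz hT0
  have hne : cbf P₁ ≠ 0 := by
    intro h
    have h1 : ∀ σ : Gal K, act (E1 D) σ.toAlgHom P₁ = P₁ := fun σ => sub_eq_zero.1 (congrFun h σ)
    have h2 := fix_tor hz hc h1 hP3
    rw [hP₁] at h2
    exact pp_ne _ h2
  have hset : (Subtype.val '' ((th (D := D) hz).ker : Set (Sg (D := D) hz))) =
      {0, cbf P₁} := by
    ext f
    constructor
    · rintro ⟨f, hf, rfl⟩
      obtain ⟨P, ⟨n, hn⟩, hP⟩ := (th_ker hz f).1 hf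
      have e1 : f.1 = cbf P := funext hP
      have h5 : ∀ σ : Gal K, act (E1 D) σ.toAlgHom (ph hz P) = ph hz P := by
        intro σ
        have h6 := f.2.2 σ
        rw [hP, map_sub, ← act_ph] at h6
        exact sub_eq_zero.1 h6
      have h7 : ph hz (ph hz P) = 0 := by
        apply fix_tor hz hc h5 (n := n)
        rw [← map_nsmul, hn, map_zero]
      rcases hT _ h7 with h8 | h8
      · left
        rw [e1]
        exact hk0 P h8
      · right
        have h9 : cbf (P - P₁) = 0 := hk0 _ (by rw [map_sub, h8, hP₁, sub_self])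
        rw [Set.mem_singleton_iff, e1]
        have e2 : P = (P - P₁) + P₁ := by abel
        rw [e2, hadd, h9, zero_add]
    · have hm : cbf P₁ ∈ Sg (D := D) hz := by
        refine ⟨cbf_sha P₁, fun σ => ?_⟩
        show ph hz (act (E1 D) σ.toAlgHom P₁ - P₁) = 0
        rw [map_sub, ← act_ph, hP₁, ker_fix hz hT0, sub_self]
      have hk : (⟨cbf P₁, hm⟩ : Sg (D := D) hz) ∈ (th (D := D) hz).ker :=
        (th_ker hz _).2 ⟨P₁, ⟨2, hP3⟩, fun σ => rfl⟩
      rintro (rfl | h)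
      · exact ⟨0, (th (D := D) hz).ker.zero_mem, rfl⟩
      · rw [Set.mem_singleton_iff.1 h]
        exact ⟨_, hk, rfl⟩
  have e1 : Nat.card (th (D := D) hz).ker =
      (Subtype.val '' ((th (D := D) hz).ker : Set (Sg (D := D) hz))).ncard := by
    rw [Set.ncard_image_of_injective _ Subtype.val_injective]
    exact Nat.card_coe_set_eq _
  rw [e1, hset]
  exact Set.ncard_pair hne.symm

/-- **The kernel of `1 + i` on the `2^∞`-Selmer group.** -/
theorem sel_card (hD : D ≠ 0) (hz : z ^ 2 = -1) (hc : ∀ t : K, t ^ 2 ≠ D) :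
    {f : Coch (E1 D) | IsShaCoc (E1 D) f ∧
      ∀ σ, f σ = 0 ∨ ∃ y h, f σ = Affine.Point.some 0 y h}.ncard = 2 * (killed z D).ncard := by
  have e1 : {f : Coch (E1 D) | IsShaCoc (E1 D) f ∧
      ∀ σ, f σ = 0 ∨ ∃ y h, f σ = Affine.Point.some 0 y h} = (Sg (D := D) hz : Set _) := by
    ext f
    refine and_congr_right fun _ => forall_congr' fun σ => ?_
    exact (ph_ker hz (f σ)).symm
  rw [e1, ← th_range hD hz, ← ker_card hD hz hc]
  have h1 : Nat.card (th (D := D) hz).ker * (th (D := D) hz).ker.index =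
      Nat.card (Sg (D := D) hz) := AddSubgroup.card_mul_index _
  rw [AddSubgroup.index_ker] at h1
  exact h1.symm

lemma ph_sel (hz : z ^ 2 = -1) {f : Coch (E1 D)} (hf : f ∈ selCoc D) :
    (fun σ => ph hz (f σ) : Coch (E1 D)) ∈ selCoc D := by
  have hloc : ∀ (M : Type) [Field M] [Algebra K M], LocTriv (E1 D) M f →
      LocTriv (E1 D) M (fun σ => ph hz (f σ)) := by
    intro M _ _ h ι
    obtain ⟨P, hP⟩ := h ι
    refine ⟨ph hz P, fun τ σ hτ => ?_⟩
    rw [act_ph, hP τ σ hτ, map_sub, act_ph]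
  obtain ⟨⟨⟨h1, h2⟩, h3, h4⟩, h5⟩ := hf
  refine ⟨⟨⟨h1.comp _, fun σ τ => ?_⟩, fun v => hloc _ (h3 v), fun v => hloc _ (h4 v)⟩,
    fun σ => ?_⟩
  · show ph hz (f (σ * τ)) = ph hz (f σ) + act (E1 D) σ.toAlgHom (ph hz (f τ))
    rw [h2, map_add, act_ph]
  · obtain ⟨n, hn⟩ := h5 σ
    refine ⟨n, ?_⟩
    show 2 ^ n • ph hz (f σ) = 0
    rw [← map_nsmul, hn, map_zero]

/-- the `2^∞`-Selmer group is trivial if and only if the kernel of `1 + i` is trivial -/
theorem sel_triv (hD : D ≠ 0) (hz : z ^ 2 = -1) :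
    (killed z D).ncard = 1 ↔ ∀ x : SelInf D, x = 0 := by
  have hz0 : (0 : SelInf D) ∈ killed z D := by
    rw [← th_range hD hz]
    exact (th (D := D) hz).range.zero_mem
  constructor
  · intro h
    obtain ⟨a, ha⟩ := Set.ncard_eq_one.1 h
    have ha0 : a = 0 := by
      rw [ha] at hz0
      exact (Set.mem_singleton_iff.1 hz0).symm
    rw [ha0] at ha
    have key : ∀ (k : ℕ) (f : Coch (E1 D)), f ∈ selCoc D →
        (fun σ => (ph hz)^[k] (f σ) : Coch (E1 D)) ∈ cobInf D → f ∈ cobInf D := by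
      intro k
      induction k with
      | zero => exact fun f _ h => h
      | succ k ih =>
        intro f hf h
        have h1 := ih (fun σ => ph hz (f σ)) (ph_sel hz hf) h
        have h2 : cls (⟨f, hf⟩ : selCoc D) ∈ killed z D := by
          refine ⟨⟨f, hf⟩, rfl, ?_⟩
          rw [rot_coch hz]
          exact h1
        rw [ha, Set.mem_singleton_iff, cls_eq_zero] at h2
        exact h2
    intro x
    obtain ⟨f, rfl⟩ : ∃ f : selCoc D, cls f = x := QuotientAddGroup.mk_surjective x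
    rw [cls_eq_zero]
    have hfin : (Set.range f.1).Finite := f.2.1.1.1.range_finite
    have hN : ∃ N : ℕ, ∀ σ, 2 ^ N • f.1 σ = 0 := by
      choose n hn using f.2.2
      have hn' : ∀ R ∈ Set.range f.1, ∃ m : ℕ, 2 ^ m • R = 0 := by
        rintro _ ⟨σ, rfl⟩
        exact ⟨_, hn σ⟩
      choose! m hm using hn'
      refine ⟨hfin.toFinset.sup m, fun σ => ?_⟩
      have h1 : m (f.1 σ) ≤ hfin.toFinset.sup m :=
        Finset.le_sup (hfin.mem_toFinset.2 (Set.mem_range_self σ))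
      obtain ⟨c, hc⟩ := Nat.exists_eq_add_of_le h1
      rw [hc, add_comm, pow_add, mul_smul, hm _ (Set.mem_range_self σ), smul_zero]
    obtain ⟨N, hN⟩ := hN
    apply key (2 * N) f.1 f.2
    have h1 : (fun σ => (ph hz)^[2 * N] (f.1 σ) : Coch (E1 D)) = 0 :=
      funext fun σ => iter_pow hz N (hN σ)
    rw [h1]
    exact (cobInf D).zero_mem
  · intro h
    rw [Set.ncard_eq_one]
    exact ⟨0, Set.eq_singleton_iff_unique_mem.2 ⟨hz0, fun x _ => h x⟩⟩

end Pool.Agent.D0H10.Q5.Inf
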