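import Pool.Agent.D0H10.Q5.Box
import Pool.Agent.D0H34.Q5.Sum

/-!
Project Q5, U5b: the sum over the boxes and the asymptotics, for the number of the solutions (after
`D0H45/QK/{Key,Key2,Asy,Fin}.lean` of helper45).
-/

set_option autoImplicit false
set_option linter.unusedVariables false

open scoped Classical
open Finset Filter

namespace Pool.Agent.D0H10.Q5

open H385 (ZI im1 nrm)
open Pool.Agent.Y699 hiding XX kk CC
open Pool.Agent.Y703.CX (jj XX eL zz kk eL_tendsto logX_eq rpow_eL HH NN ev_eL one_le_exp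
  HH_ge HH_le HH_pos kk_ge kk_le X_pos one_add_log lin_le zz_ge zz_pos)
open Pool.Agent.Y703.CQ (sg prs)
open Pool.Agent.D0H45.QK.EQ (HB)
open Pool.Agent.D0H45.QK
open Pool.Agent.D0H45.Q4 (Sml sml_of sml_add)

variable {L : Cls} {t : ZI → ZMod 2}

/-- the box theorem with the decidability of equality as a variable -/
theorem box_instr {α : Type} {s : α → α → ZMod 2} {t : α → ZMod 2} {P : α → Prop}
    (hs : ∀ p q, P p → P q → s p q = s q p)
    (hs0 : ∀ p, P p → s p p = 0) {r : ℕ} {KK : ℝ} (hK : 0 ≤ KK) (hLA : LAr r KK) (ι : Type) [Fintype ι] [inst : DecidableEq ι]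
    [insa : DecidableEq α] (lo : LinearOrder ι)
    (C : ι → Finset α) (X : ι → ℕ) (κ : ℝ) (S₀ : Finset α) (hκ : 0 ≤ κ)
    (hCX : ∀ i, (C i).card ≤ X i) (hHB : HB s univ C X κ) (hS₀ : ∀ u ∈ S₀, P u)
    (hC : ∀ i, ∀ p ∈ C i, P p ∧ p ∉ S₀) (hdis : ∀ i l, i ≠ l → Disjoint (C i) (C l))
    (hcard : S₀.card + 1 < Fintype.card ι) :
    |(((Fintype.piFinset C).filter fun p => Nd s t S₀ (univ.image p) ∧
        Gr s t r (S₀ ∪ univ.image p)).card : ℝ) -
      prob r * (((Fintype.piFinset C).filter fun p => Nd s t S₀ (univ.image p)).card : ℝ)| ≤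
    KK * (4 ^ (S₀.card + 1) / 2 ^ (Fintype.card ι - 1)) *
      (((Fintype.piFinset C).filter fun p => Nd s t S₀ (univ.image p)).card : ℝ) +
    2 ^ ((2 * S₀.card + 1) * Fintype.card ι + Fintype.card ι * Fintype.card ι) *
      (κ * ∏ j, (X j : ℝ)) := by
  have h := t_BOXr (t := t) hs hs0 hK hLA ι C X κ S₀ hκ hCX hHB hS₀ hC hdis hcard
  have e : inst = fun a b => lo.toDecidableEq a b := Subsingleton.elim _ _
  have e2 : insa = fun a b => Classical.propDecidable (a = b) := Subsingleton.elim _ _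
  subst e
  subst e2
  exact h

theorem box_decr {r : ℕ} {KK : ℝ} (hK : 0 ≤ KK) (hLA : LAr r KK) (ι : Type) [Fintype ι] [DecidableEq ι]
    (lo : LinearOrder ι) (C : ι → Finset ZI) (X : ι → ℕ) (κ : ℝ) (S₀ : Finset ZI) (hκ : 0 ≤ κ)
    (hCX : ∀ i, (C i).card ≤ X i) (hHB : HB nq univ C X κ) (hS₀ : ∀ u ∈ S₀, PP u)
    (hC : ∀ i, ∀ p ∈ C i, PP p ∧ p ∉ S₀) (hdis : ∀ i l, i ≠ l → Disjoint (C i) (C l))
    (hcard : S₀.card + 1 < Fintype.card ι) :
    |(((Fintype.piFinset C).filter fun p => Nd nq t S₀ (univ.image p) ∧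
        Gr nq t r (S₀ ∪ univ.image p)).card : ℝ) -
      prob r * (((Fintype.piFinset C).filter fun p => Nd nq t S₀ (univ.image p)).card : ℝ)| ≤
    KK * (4 ^ (S₀.card + 1) / 2 ^ (Fintype.card ι - 1)) *
      (((Fintype.piFinset C).filter fun p => Nd nq t S₀ (univ.image p)).card : ℝ) +
    2 ^ ((2 * S₀.card + 1) * Fintype.card ι + Fintype.card ι * Fintype.card ι) *
      (κ * ∏ j, (X j : ℝ)) :=
  box_instr (P := PP) nq_symm nq_self hK hLA ι lo C X κ S₀ hκ hCX hHB hS₀ hC hdis hcard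

theorem per_keyr {r : ℕ} {KK : ℝ} (hK : 0 ≤ KK) (hLA : LAr r KK) {C₁ : ℝ} (hb1 : BilB C₁)
    {X z H k V : ℕ} {κ : ℝ} (hH : 1 ≤ H) (hz : 1 ≤ z) (hV : 1 ≤ V) (hκ : 0 ≤ κ)
    (h1 : C₁ ≤ κ ^ 24 * z) {S₀ : Finset ZI} {J : Finset (ℕ × L.M)}
    (hkey : (S₀, J) ∈ (RR L X z H k V).image (ky L z H)) :
    |(((RR L X z H k V).filter fun S => ky L z H S = (S₀, J) ∧
        (Nd nq t (sm z S) (la z S) ∧ Gr nq t r S)).card : ℝ) -
      prob r * (((RR L X z H k V).filter fun S => ky L z H S = (S₀, J) ∧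
        Nd nq t (sm z S) (la z S)).card : ℝ)| ≤
    4 * KK * (1 / 2 : ℝ) ^ V *
      (((RR L X z H k V).filter fun S => ky L z H S = (S₀, J) ∧ True).card : ℝ) +
      (3 ^ (9 * k ^ 2) * κ) * (X * (1 / ((∏ p ∈ S₀, nrm p : ℕ) : ℝ))) := by
  obtain ⟨h₀O, h₀, hJi, hCd, hJf⟩ := key_facts hH hkey
  obtain ⟨c1, c4, c5, c6⟩ := hCd
  have hcJ : Fintype.card J = J.card := Fintype.card_coe J
  have hCmem : ∀ i : J, ∀ p ∈ CC L z H i, PP p ∧ z < nrm p ∧ nrm p ≤ XX H i.1.1 := by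
    intro i p hp
    obtain ⟨k1, k2, k3⟩ := (mem_CC hH).1 hp
    refine ⟨k1, k2, ?_⟩
    unfold CC at hp
    rw [Finset.mem_filter, mem_QB] at hp
    exact hp.1.1
  have hdis : ∀ i l : J, i ≠ l → Disjoint (CC L z H i.1) (CC L z H l.1) := by
    intro i l hil
    rw [Finset.disjoint_left]
    intro p hp hp'
    have h5 := ((mem_CC hH).1 hp).2.2
    have h6 := ((mem_CC hH).1 hp').2.2
    exact hil (Subtype.ext (h5.symm.trans h6))
  have hzX : ∀ i : J, z ≤ XX H i.1.1 := fun i => (hJf i i.2).1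
  have hHB : HB nq univ (fun i : J => CC L z H i) (fun i : J => 9 * XX H i.1.1) κ :=
    hb_box hb1 _ _ hz hκ h1 (fun i => by have := hzX i; omega)
      (fun i p hp => by
        obtain ⟨k1, k2, k3⟩ := hCmem i p hp
        exact ⟨k1, by omega⟩) hdis univ
  have hcard : ∀ i : J, (CC L z H i.1).card ≤ 9 * XX H i.1.1 := by
    intro i
    refine (Finset.card_filter_le _ _).trans (card_QB_le ?_)
    have := hzX i
    omega
  have hinj : Function.Injective (fun i : J => i.1.1) := by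
    intro a b hab
    exact Subtype.ext (hJi (Finset.mem_coe.2 a.2) (Finset.mem_coe.2 b.2) hab)
  let lo : LinearOrder J := LinearOrder.lift' (fun i : J => i.1.1) hinj
  have hbox := box_decr (t := t) hK hLA J lo (fun i : J => CC L z H i)
    (fun i : J => 9 * XX H i.1.1) κ S₀ hκ hcard hHB h₀O (fun i p hp => by
      obtain ⟨k1, k2, k3⟩ := hCmem i p hp
      refine ⟨k1, fun h => ?_⟩
      have := h₀ p h
      omega) hdis (by rw [hcJ]; omega)
  have e1 : (((Fintype.piFinset fun i : J => CC L z H i).filter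
      fun p => Nd nq t S₀ (univ.image p) ∧ Gr nq t r (S₀ ∪ univ.image p)).card) =
      ((RR L X z H k V).filter fun S => ky L z H S = (S₀, J) ∧
        (Nd nq t (sm z S) (la z S) ∧ Gr nq t r S)).card := by
    refine Eq.trans (fcc ?_) ((key_bij hH hkey
      (fun S => Nd nq t (sm z S) (la z S) ∧ Gr nq t r S)).trans (fcc fun _ _ => Iff.rfl))
    intro p hp
    rw [Fintype.mem_piFinset] at hp
    rw [sm_fill hH h₀ hp, la_fill hH h₀ hp]
  have e2 : (((Fintype.piFinset fun i : J => CC L z H i).filter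
      fun p => Nd nq t S₀ (univ.image p)).card) =
      ((RR L X z H k V).filter fun S => ky L z H S = (S₀, J) ∧
        Nd nq t (sm z S) (la z S)).card := by
    refine Eq.trans (fcc ?_) ((key_bij hH hkey (fun S => Nd nq t (sm z S) (la z S))).trans
      (fcc fun _ _ => Iff.rfl))
    intro p hp
    rw [Fintype.mem_piFinset] at hp
    rw [sm_fill hH h₀ hp, la_fill hH h₀ hp]
  rw [← e1, ← e2]
  have e3 : (((Fintype.piFinset fun i : J => CC L z H i).filter
      fun p => Nd nq t S₀ (univ.image p)).card : ℝ) ≤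
      (((RR L X z H k V).filter fun S => ky L z H S = (S₀, J) ∧ True).card : ℝ) := by
    rw [e2]
    have : (RR L X z H k V).filter (fun S => ky L z H S = (S₀, J) ∧
        Nd nq t (sm z S) (la z S)) ⊆
        (RR L X z H k V).filter fun S => ky L z H S = (S₀, J) ∧ True := by
      intro S hS
      rw [Finset.mem_filter] at hS ⊢
      exact ⟨hS.1, hS.2.1, trivial⟩
    exact_mod_cast Finset.card_le_card this
  refine hbox.trans ?_
  have hr : KK * ((4 : ℝ) ^ (S₀.card + 1) / 2 ^ (Fintype.card J - 1)) ≤ 4 * KK * (1 / 2 : ℝ) ^ V := by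
    have h4 : (4 : ℝ) ^ (S₀.card + 1) / 2 ^ (Fintype.card J - 1) ≤ 4 * (1 / 2 : ℝ) ^ V := by
      rw [div_le_iff₀ (by positivity), hcJ]
      have h5 : (2 : ℝ) ^ (2 * S₀.card + V) ≤ 2 ^ (J.card - 1) :=
        pow_le_pow_right₀ (by norm_num) (by omega)
      have h6 : 4 * (1 / 2 : ℝ) ^ V * 2 ^ (2 * S₀.card + V) = 4 ^ (S₀.card + 1) := by
        have h7 : (1 / 2 : ℝ) ^ V * 2 ^ V = 1 := by
          rw [← mul_pow]
          norm_num
        have h8 : ((2 : ℝ) ^ 2) ^ S₀.card = 4 ^ S₀.card := by norm_num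
        rw [pow_add 2, pow_mul, h8, pow_succ]
        calc 4 * (1 / 2 : ℝ) ^ V * (4 ^ S₀.card * 2 ^ V) =
              4 ^ S₀.card * 4 * ((1 / 2 : ℝ) ^ V * 2 ^ V) := by ring
          _ = _ := by rw [h7, mul_one]
      calc (4 : ℝ) ^ (S₀.card + 1) = 4 * (1 / 2 : ℝ) ^ V * 2 ^ (2 * S₀.card + V) := h6.symm
        _ ≤ _ := by gcongr
    have h10 := mul_le_mul_of_nonneg_left h4 hK
    calc _ ≤ KK * (4 * (1 / 2 : ℝ) ^ V) := h10
      _ = _ := by ring
  have hJK : J.card ≤ k := by omega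
  have hSK : S₀.card ≤ k := by omega
  have hN0 : (0 : ℝ) < ((∏ p ∈ S₀, nrm p : ℕ) : ℝ) := by
    exact_mod_cast Finset.prod_pos fun p hp => nrm_one_le (h₀O p hp)
  have hprod : ∏ j : J, ((9 * XX H j.1.1 : ℕ) : ℝ) ≤
      3 ^ (2 * k) * (X * (1 / ((∏ p ∈ S₀, nrm p : ℕ) : ℝ))) := by
    have h5 : ∏ j : J, ((9 * XX H j.1.1 : ℕ) : ℝ) =
        9 ^ J.card * ((∏ i ∈ J, XX H i.1 : ℕ) : ℝ) := by
      rw [← Finset.prod_coe_sort J (fun i => XX H i.1)]
      push_cast
      rw [Finset.prod_mul_distrib, Finset.prod_const, Finset.card_univ, hcJ]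
    have h6 : ((∏ i ∈ J, XX H i.1 : ℕ) : ℝ) ≤ X * (1 / ((∏ p ∈ S₀, nrm p : ℕ) : ℝ)) := by
      rw [mul_one_div, le_div_iff₀ hN0, mul_comm]
      exact_mod_cast c5
    have h7 : (9 : ℝ) ^ J.card ≤ 3 ^ (2 * k) := by
      calc (9 : ℝ) ^ J.card = 3 ^ (2 * J.card) := by rw [pow_mul]; norm_num
        _ ≤ 3 ^ (2 * k) := pow_le_pow_right₀ (by norm_num) (by omega)
    rw [h5]
    gcongr
  have hpw : (2 : ℝ) ^ ((2 * S₀.card + 1) * Fintype.card J + Fintype.card J * Fintype.card J) *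
      3 ^ (2 * k) ≤ 3 ^ (9 * k ^ 2) := by
    have h6 : k ≤ k * k := by
      rcases Nat.eq_zero_or_pos k with h | h
      · rw [h]
      · exact Nat.le_mul_of_pos_left k h
    have h7 : (2 : ℝ) ^ ((2 * S₀.card + 1) * Fintype.card J + Fintype.card J * Fintype.card J) ≤
        3 ^ (4 * (k * k)) := by
      refine (pow_le_pow_left₀ (by norm_num) (by norm_num : (2 : ℝ) ≤ 3) _).trans ?_
      apply pow_le_pow_right₀ (by norm_num)
      rw [hcJ]
      have h5 : S₀.card * J.card ≤ k * k := Nat.mul_le_mul hSK hJK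
      have h8 : J.card * J.card ≤ k * k := Nat.mul_le_mul hJK hJK
      have h9 : (2 * S₀.card + 1) * J.card = 2 * (S₀.card * J.card) + J.card := by ring
      omega
    calc (2 : ℝ) ^ ((2 * S₀.card + 1) * Fintype.card J + Fintype.card J * Fintype.card J) *
          3 ^ (2 * k) ≤ 3 ^ (4 * (k * k)) * 3 ^ (2 * k) := by gcongr
      _ = 3 ^ (4 * (k * k) + 2 * k) := (pow_add _ _ _).symm
      _ ≤ 3 ^ (9 * k ^ 2) := by
          apply pow_le_pow_right₀ (by norm_num)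
          have e : k ^ 2 = k * k := sq k
          rw [e]
          omega
  refine add_le_add ?_ ?_
  · gcongr
  · have hX1 : (0 : ℝ) ≤ X * (1 / ((∏ p ∈ S₀, nrm p : ℕ) : ℝ)) := by positivity
    set E : ℝ := (2 : ℝ) ^ ((2 * S₀.card + 1) * Fintype.card J + Fintype.card J * Fintype.card J)
      with hE
    have hE0 : 0 ≤ E := by positivity
    calc E * (κ * ∏ j : J, ((9 * XX H j.1.1 : ℕ) : ℝ)) ≤
        E * (κ * (3 ^ (2 * k) * (X * (1 / ((∏ p ∈ S₀, nrm p : ℕ) : ℝ))))) := by gcongr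
      _ = (E * 3 ^ (2 * k)) * (κ * (X * (1 / ((∏ p ∈ S₀, nrm p : ℕ) : ℝ)))) := by ring
      _ ≤ 3 ^ (9 * k ^ 2) * (κ * (X * (1 / ((∏ p ∈ S₀, nrm p : ℕ) : ℝ)))) := by gcongr
      _ = _ := by ring

/-- **The sum over the boxes.** -/
theorem t_KEYr {r : ℕ} {KK : ℝ} (hK : 0 ≤ KK) (hLA : LAr r KK) : ∃ C : ℝ, 1 ≤ C ∧ ∀ (L : Cls) (t : ZI → ZMod 2)
    (X z H k V N : ℕ) (κ : ℝ), 1 ≤ X → 1 ≤ H → 1 ≤ z → 1 ≤ V → 0 ≤ κ → C ≤ κ ^ 24 * z →
    (H : ℝ) * Real.log X < N →
    |(((RR L X z H k V).filter fun S => Nd nq t (sm z S) (la z S) ∧ Gr nq t r S).card : ℝ) -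
        prob r * (((RR L X z H k V).filter fun S => Nd nq t (sm z S) (la z S)).card : ℝ)| ≤
      4 * KK * (1 / 2 : ℝ) ^ V * ((RR L X z H k V).card : ℝ) +
      (Fintype.card L.M * N + 1 : ℝ) ^ k * (3 ^ (9 * k ^ 2 + 9) * κ) * (X * (1 + Real.log X)) := by
  obtain ⟨C₁, hC₁, hb1⟩ := t_BIL
  refine ⟨C₁, hC₁, ?_⟩
  intro L t X z H k V N κ hX hH hz hV hκ h1 hN
  set T := (RR L X z H k V).image (ky L z H) with hT
  have hfib : ∀ P : Finset ZI → Prop, (((RR L X z H k V).filter fun S => P S).card : ℝ) =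
      ∑ k' ∈ T, (((RR L X z H k V).filter fun S => ky L z H S = k' ∧ P S).card : ℝ) := by
    intro P
    rw [Finset.card_eq_sum_card_fiberwise (f := ky L z H) (t := T) (by
      intro S hS
      rw [Finset.mem_coe, Finset.mem_filter] at hS
      exact Finset.mem_coe.2 (Finset.mem_image_of_mem _ hS.1))]
    push_cast
    refine Finset.sum_congr rfl fun k' _ => ?_
    congr 2
    ext S
    simp only [Finset.mem_filter]
    tauto
  have hall : ((RR L X z H k V).card : ℝ) =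
      ∑ k' ∈ T, (((RR L X z H k V).filter fun S => ky L z H S = k' ∧ True).card : ℝ) := by
    rw [Finset.card_eq_sum_card_fiberwise (f := ky L z H) (t := T) (by
      intro S hS
      exact Finset.mem_coe.2 (Finset.mem_image_of_mem _ hS))]
    push_cast
    exact Finset.sum_congr rfl fun k' _ => congrArg _ (fcc fun _ _ => by tauto)
  have q1 : (((RR L X z H k V).filter fun S => Nd nq t (sm z S) (la z S) ∧ Gr nq t r S).card : ℝ) =
      ∑ k' ∈ T, (((RR L X z H k V).filter fun S => ky L z H S = k' ∧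
        (Nd nq t (sm z S) (la z S) ∧ Gr nq t r S)).card : ℝ) :=
    (congrArg _ (fcc fun _ _ => Iff.rfl)).trans
      ((hfib fun S => Nd nq t (sm z S) (la z S) ∧ Gr nq t r S).trans
      (Finset.sum_congr rfl fun k' _ => congrArg _ (fcc fun _ _ => Iff.rfl)))
  rw [q1, hfib, Finset.mul_sum, ← Finset.sum_sub_distrib, hall, Finset.mul_sum]
  refine (Finset.abs_sum_le_sum_abs _ _).trans ?_
  have h3 : ∑ k' ∈ T, |(((RR L X z H k V).filter fun S => ky L z H S = k' ∧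
      (Nd nq t (sm z S) (la z S) ∧ Gr nq t r S)).card : ℝ) - prob r * (((RR L X z H k V).filter fun S =>
      ky L z H S = k' ∧ Nd nq t (sm z S) (la z S)).card : ℝ)| ≤
      ∑ k' ∈ T, (4 * KK * (1 / 2 : ℝ) ^ V * (((RR L X z H k V).filter fun S =>
      ky L z H S = k' ∧ True).card : ℝ) +
      (3 ^ (9 * k ^ 2) * κ) * (X * (1 / ((∏ p ∈ k'.1, nrm p : ℕ) : ℝ)))) := by
    refine Finset.sum_le_sum fun k' hk => ?_
    obtain ⟨S₀, J⟩ := k'
    exact per_keyr hK hLA hb1 hH hz hV hκ h1 hk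
  refine h3.trans ?_
  rw [Finset.sum_add_distrib]
  refine add_le_add (le_refl _) ?_
  exact keg_err hX hH hz hκ hN fun k' hk => hk

end Pool.Agent.D0H10.Q5
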