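import Pool.Agent.D0H10.Q5.Stm
import Pool.Agent.D0H45.QK.Fin

/-!
Project Q5, U5a: the linear algebra over the field with two elements (compare `S_LA` of
`Pool/Agent/Y703/CQ/Stm.lean`, proved in `Pool/Agent/Y219/CQ`, for the nonsingular case, and `S_LA`, `S_REC`,
`S_LIM`, `S_ABS` of `Pool/Agent/Y703/XL/Stm.lean` for the field with three elements).
-/

set_option autoImplicit false
set_option linter.unusedVariables false

open scoped Classical

namespace Pool.Agent.D0H10.Q5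

open Finset
open Pool.Agent.Y703.CQ (prs ext)

/-- the number of the solutions of the block system -/
noncomputable def nA {U J : Type} [Fintype U] [Fintype J] (U1 : Finset U) (J1 : Finset J)
    (A : U → U → ZMod 2) (B : U → J → ZMod 2) (C : J → U → ZMod 2) (R : J → J → ZMod 2)
    (f : U → ZMod 2) (g : J → ZMod 2) : ℕ :=
  Nat.card {q : (U → ZMod 2) × (J → ZMod 2) // (∀ u, u ∉ U1 → q.1 u = 0) ∧
    (∀ k, k ∉ J1 → q.2 k = 0) ∧
    (∀ u ∈ U1, ∑ v, A u v * (q.1 v + q.1 u) + ∑ l, B u l * (q.2 l + q.1 u) + f u * q.1 u = 0) ∧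
    ∀ k ∈ J1, ∑ u, C k u * (q.1 u + q.2 k) + ∑ l, R k l * (q.2 l + q.2 k) + g k * q.2 k = 0}

/-- U5a: the probability that a random symmetric completion has `2 ^ r` solutions -/
def S_LA2 : Prop := ∀ r : ℕ, ∃ K : ℝ, 0 ≤ K ∧ ∀ (U J : Type) [Fintype U] [Fintype J] [LinearOrder J]
  (U1 : Finset U) (J1 : Finset J), (∃ l, l ∉ J1) → ∀ (A : U → U → ZMod 2) (B : U → J → ZMod 2)
  (C : J → U → ZMod 2) (f : U → ZMod 2) (g : J → ZMod 2),
  (∀ u ∈ U1, ∀ v ∈ U1, A u v = A v u) → (∀ u ∈ U1, ∀ k ∈ J1, B u k = C k u) →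
  (∀ w : U → ZMod 2, (∀ u, u ∉ U1 → w u = 0) → (∃ u, w u ≠ 0) → ∃ k ∈ J1, ∑ u, w u * C k u ≠ 0) →
  |((univ.filter fun α : prs J1 → ZMod 2 => nA U1 J1 A B C (ext α) f g = 2 ^ r).card : ℝ) /
      2 ^ (prs J1).card - prob r| ≤ K * (4 ^ U1.card / 2 ^ J1.card)

end Pool.Agent.D0H10.Q5
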